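import Mathlib.Algebra.Field.ZMod
import Mathlib.LinearAlgebra.Matrix.Hermitian
import Mathlib.Algebra.Order.Archimedean.Real.Hom
import Mathlib.Algebra.QuadraticAlgebra.Basic
import Mathlib.Geometry.Convex.Cone.Pointed
import Mathlib.Analysis.Normed.Module.FiniteDimension
import Mathlib.Data.DFinsupp.WellFounded
import Mathlib.Algebra.Order.Star.Real
import Mathlib.Order.CompletePartialOrder
import Mathlib.Data.Int.Star
import Mathlib.Algebra.Order.Ring.Star
import Mathlib.Algebra.BigOperators.Field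

-- ======== part 0: formerly Pool.Agent.MP_20d318_ag.Lat.Defs
section MrgPart0

/-! Lattice side of the cone theorem for the resolution of `E^3 / mu_3`: definitions. -/

set_option autoImplicit false

namespace Pool.Agent.MP_20d318_ag.Lat

open Finset Matrix

/-- the Eisenstein integers `a + b w`, `w^2 = -1 - w` -/
abbrev O : Type := QuadraticAlgebra ℤ (-1) (-1)

/-- the complex numbers in the coordinates `a + b w` -/
abbrev OR : Type := QuadraticAlgebra ℝ (-1) (-1)

/-- the inclusion -/
def io : O →+* OR where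
  toFun z := ⟨z.re, z.im⟩
  map_one' := by ext <;> simp [QuadraticAlgebra.re_one, QuadraticAlgebra.im_one]
  map_mul' x y := by ext <;> simp
  map_zero' := by ext <;> simp
  map_add' x y := by ext <;> simp

/-- reduction modulo `sqrt (-3)` -/
def red : O →+* ZMod 3 where
  toFun z := z.re + z.im
  map_one' := by simp [QuadraticAlgebra.re_one, QuadraticAlgebra.im_one]
  map_mul' x y := by
    have h : (3 : ZMod 3) = 0 := rfl
    simp only [QuadraticAlgebra.re_mul, QuadraticAlgebra.im_mul]
    push_cast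
    linear_combination (-(x.im : ZMod 3) * y.im) * h
  map_zero' := by simp
  map_add' x y := by simp; ring

/-- the real part -/
noncomputable def rp : OR →ₗ[ℝ] ℝ where
  toFun z := z.re - z.im / 2
  map_add' x y := by simp; ring
  map_smul' c x := by simp; ring

/-- matrices of forms -/
abbrev Mat (n : ℕ) : Type := Matrix (Fin n) (Fin n) OR

/-- the fixed points of `w` on `E^n` -/
abbrev Pt (n : ℕ) : Type := Fin n → ZMod 3

/-- lattice vectors -/
abbrev Vec (n : ℕ) : Type := Fin n → O

variable {n : ℕ}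

/-- the trace pairing -/
noncomputable def pair (H Q : Mat n) : ℝ := ∑ i, ∑ j, rp (H i j * Q i j)

/-- the rank one form `l ↦ |l · v|^2` -/
def rk (v : Vec n) : Mat n := fun i j => io (star (v i) * v j)

/-- the value of a form on a lattice vector -/
noncomputable def ev (H : Mat n) (v : Vec n) : ℝ := pair H (rk v)

/-- change of basis: `ev (act g H) v = ev H (g *ᵥ v)` -/
def act (g : Matrix (Fin n) (Fin n) O) (H : Mat n) : Mat n := (g.map io)ᴴ * H * g.map io

/-- reduction of a vector -/
def rv (v : Vec n) : Pt n := fun i => red (v i)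

/-- the sum of `t` over the line through `x` with direction `d` -/
def lineSum (t : Pt n → ℝ) (x d : Pt n) : ℝ := t x + t (x + d) + t (x - d)

/-- the sum of `m` over the hyperplane `e · x = c` -/
def planeSum (m : Pt n → ℝ) (e : Pt n) (c : ZMod 3) : ℝ := ∑ x with e ⬝ᵥ x = c, m x

/-- classes of divisors `(H, t) = H - ∑ t x E x` and of curves `(Q, m)` -/
abbrev W (n : ℕ) : Type := Mat n × (Pt n → ℝ)

/-- the intersection pairing -/
noncomputable def inter (D Z : W n) : ℝ := pair D.1 Z.1 - ∑ x, D.2 x * Z.2 x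

/-- nonnegative on the lines of the exceptional divisors and on the elliptic curves -/
structure Pell (D : W n) : Prop where
  herm : D.1.IsHermitian
  nonneg : ∀ x, 0 ≤ D.2 x
  line : ∀ v : Vec n, rv v ≠ 0 → ∀ x, lineSum D.2 x (rv v) ≤ ev D.1 v

/-- nonnegative on the exceptional divisors and on the invariant abelian divisors -/
structure Mov (Z : W n) : Prop where
  nonneg : ∀ x, 0 ≤ Z.2 x
  plane : ∀ l : Vec n, rv l ≠ 0 → ∀ c, planeSum Z.2 (rv l) c ≤ ev Z.1 l

/-- what is known about the class of a curve that is not inside an exceptional divisor -/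
structure Cur (Z : W n) : Prop where
  int : ∀ l : Vec n, ∃ k : ℕ, ev Z.1 l = k
  ne : (∃ l : Vec n, ev Z.1 l ≠ 0) ∨ Z.2 = 0
  nonneg : ∀ x, 0 ≤ Z.2 x
  plane : ∀ l : Vec n, ev Z.1 l ≠ 0 → ∀ c, planeSum Z.2 (rv l) c ≤ ev Z.1 l
  const : ∀ l : Vec n, ev Z.1 l = 0 → ∀ x y, Z.2 x ≠ 0 → Z.2 y ≠ 0 → rv l ⬝ᵥ x = rv l ⬝ᵥ y

/-- the class of the invariant abelian divisor `l = c` -/
noncomputable def clS (l : Vec n) (c : ZMod 3) : W n :=
  (rk l, fun x => if rv l ⬝ᵥ x = c then 1 else 0)

/-- the class of the exceptional divisor upstairs -/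
noncomputable def clE (x : Pt n) : W n := (0, fun y => if y = x then -1 else 0)

/-- pull-back by the automorphism `g` -/
def actW (g : Matrix (Fin n) (Fin n) O) (D : W n) : W n :=
  (act g D.1, fun x => D.2 (g.map red *ᵥ x))

/-- the cone spanned by a set -/
abbrev cone {N : Type*} [AddCommGroup N] [Module ℝ N] (R : Set N) : Set N := PointedCone.hull ℝ R

/-- the algebraic interior (contains the interior for every vector space topology) -/
def core {N : Type*} [AddCommGroup N] [Module ℝ N] (S : Set N) : Set N :=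
  {x | ∀ v, ∃ ε : ℝ, 0 < ε ∧ x + ε • v ∈ S}

/-- What the geometry has to supply. `N` is `N^1(X)`, `L` the classes of Cartier divisors, `Cv` the
degrees on curves, `Ef` the classes of effective Cartier divisors, `G` the image of `Aut X`,
`Φ` the class of the pull-back to the blow-up of `E^3`. -/
structure Iface {N : Type*} [AddCommGroup N] [Module ℝ N] (L : AddSubgroup N)
    (Cv : Set (N →ₗ[ℝ] ℝ)) (Ef : Set N) (G : Subgroup (N ≃ₗ[ℝ] N)) (Φ : N →ₗ[ℝ] W 3) : Prop where
  inj : Function.Injective Φ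
  herm : ∀ D, (Φ D).1.IsHermitian
  efL : Ef ⊆ L
  efS : ∀ c, ∃ D ∈ Ef, Φ D = (3 : ℝ) • clS (Pi.single 0 1) c
  efE : ∀ x, ∃ D ∈ Ef, Φ D = (3 : ℝ) • clE x
  efpsd : ∀ D ∈ Ef, 0 ≤ ev (Φ D).1 (Pi.single 0 1)
  cvint : ∀ c ∈ Cv, ∀ D ∈ L, ∃ z : ℤ, c D = z
  cvcl : ∀ c ∈ Cv, ∃ (k : ℝ) (Z : W 3), 0 < k ∧ (∀ D, c D = k * inter (Φ D) Z) ∧
    (Cur Z ∨ (Z.1 = 0 ∧ ∀ x, Z.2 x ≤ 0))
  cvE : ∀ x, ∃ c ∈ Cv, ∃ k : ℝ, 0 < k ∧ ∀ D, c D = k * (Φ D).2 x
  cvL : ∀ x, ∃ c ∈ Cv, ∃ k : ℝ, 0 < k ∧ ∀ D,
    c D = k * (ev (Φ D).1 (Pi.single 0 1) - lineSum (Φ D).2 x (Pi.single 0 1))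
  gL : ∀ g ∈ G, ∀ D ∈ L, g D ∈ L
  gCv : ∀ g ∈ G, ∀ c ∈ Cv, c ∘ₗ (g : N →ₗ[ℝ] N) ∈ Cv
  gEf : ∀ g ∈ G, ∀ D ∈ Ef, g D ∈ Ef
  gl : ∀ g : Matrix (Fin 3) (Fin 3) O, IsUnit g → ∃ a ∈ G, ∀ D, Φ (a D) = actW g (Φ D)

/-- the conclusion of the cone conjecture -/
def Concl {N : Type*} [AddCommGroup N] [Module ℝ N] (L : AddSubgroup N) (C : Set N)
    (G : Subgroup (N ≃ₗ[ℝ] N)) : Prop :=
  ∃ R : Finset N, (R : Set N) ⊆ L ∧ cone (R : Set N) ⊆ C ∧
    (∀ x ∈ C, ∃ g ∈ G, ∃ y ∈ cone (R : Set N), g y = x) ∧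
    ∀ g ∈ G, g ≠ 1 → ∀ x ∈ core (cone (R : Set N)), g x ∉ core (cone (R : Set N))

/-- the inequality for one cone of forms spanned by the vectors `V` -/
def StarOn {k : ℕ} (V : Fin k → Vec n) : Prop :=
  ∀ (D : W n) (w : Fin k → ℝ) (m : Pt n → ℝ), Pell D → (∀ i, 0 ≤ w i) →
    Mov (∑ i, w i • rk (V i), m) → ∑ x, D.2 x * m x ≤ ∑ i, w i * ev D.1 (V i)

end Pool.Agent.MP_20d318_ag.Lat

end MrgPart0

-- ======== part 1: formerly Pool.Agent.MP_20d318_ag.Lat.Cone
section MrgPart1

/-! Finitely generated cones: halfspace sections, Dickson's lemma, Farkas' lemma. -/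

set_option autoImplicit false

namespace Pool.Agent.MP_20d318_ag.Lat

open Finset

variable {N : Type*} [AddCommGroup N] [Module ℝ N]

/-- convex cones containing `0` -/
structure IsCone (S : Set N) : Prop where
  zero : (0 : N) ∈ S
  add : ∀ x ∈ S, ∀ y ∈ S, x + y ∈ S
  smul : ∀ c : ℝ, 0 ≤ c → ∀ x ∈ S, c • x ∈ S

theorem isCone_cone (R : Set N) : IsCone (cone R) :=
  ⟨Submodule.zero_mem _, fun _ hx _ hy => Submodule.add_mem _ hx hy,
    fun c hc _ hx => Submodule.smul_mem (PointedCone.hull ℝ R) ⟨c, hc⟩ hx⟩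

theorem subset_cone (R : Set N) : R ⊆ cone R := PointedCone.subset_hull

theorem IsCone.cone_subset {S R : Set N} (hS : IsCone S) (h : R ⊆ S) : cone R ⊆ S := by
  intro x hx
  induction hx using Submodule.span_induction with
  | mem x hx => exact h hx
  | zero => exact hS.zero
  | add x y _ _ hx hy => exact hS.add x hx y hy
  | smul c x _ hx => exact hS.smul c.1 c.2 x hx

theorem IsCone.inter {S T : Set N} (hS : IsCone S) (hT : IsCone T) : IsCone (S ∩ T) :=
  ⟨⟨hS.zero, hT.zero⟩, fun x hx y hy => ⟨hS.add x hx.1 y hy.1, hT.add x hx.2 y hy.2⟩,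
    fun c hc x hx => ⟨hS.smul c hc x hx.1, hT.smul c hc x hx.2⟩⟩

theorem IsCone.sum_mem {S : Set N} (hS : IsCone S) {ι : Type*} (s : Finset ι) (f : ι → N)
    (h : ∀ i ∈ s, f i ∈ S) : ∑ i ∈ s, f i ∈ S :=
  Finset.sum_induction f (· ∈ S) (fun a b ha hb => hS.add a ha b hb) hS.zero h

theorem cone_mono {R S : Set N} (h : R ⊆ S) : cone R ⊆ cone S :=
  (isCone_cone S).cone_subset (h.trans (subset_cone S))

theorem IsCone.preimage {M : Type*} [AddCommGroup M] [Module ℝ M] {S : Set M} (hS : IsCone S)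
    (f : N →ₗ[ℝ] M) : IsCone (f ⁻¹' S) :=
  ⟨by simpa using hS.zero, fun x hx y hy => by simpa using hS.add _ hx _ hy,
    fun c hc x hx => by simpa using hS.smul c hc _ hx⟩

theorem IsCone.image {M : Type*} [AddCommGroup M] [Module ℝ M] {S : Set N} (hS : IsCone S)
    (f : N →ₗ[ℝ] M) : IsCone (f '' S) :=
  ⟨⟨0, hS.zero, map_zero f⟩, by
    rintro _ ⟨x, hx, rfl⟩ _ ⟨y, hy, rfl⟩
    exact ⟨x + y, hS.add x hx y hy, map_add f x y⟩, by
    rintro c hc _ ⟨x, hx, rfl⟩
    exact ⟨c • x, hS.smul c hc x hx, map_smul f c x⟩⟩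

theorem isCone_dual (Cv : Set (N →ₗ[ℝ] ℝ)) : IsCone {D | ∀ c ∈ Cv, 0 ≤ c D} :=
  ⟨fun c _ => by simp, fun x hx y hy c hc => by
    rw [map_add]; exact add_nonneg (hx c hc) (hy c hc), fun a ha x hx c hc => by
    rw [map_smul]; exact mul_nonneg ha (hx c hc)⟩

theorem isCone_half (f : N →ₗ[ℝ] ℝ) : IsCone {D | 0 ≤ f D} :=
  ⟨by simp, fun x hx y hy => by
    simp only [Set.mem_ofPred_eq, map_add] at *; exact add_nonneg hx hy, fun a ha x hx => by
    simp only [Set.mem_ofPred_eq, map_smul] at *; exact mul_nonneg ha hx⟩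

theorem le_on_cone {R : Set N} {f g : N →ₗ[ℝ] ℝ} (h : ∀ r ∈ R, f r ≤ g r) :
    ∀ x ∈ cone R, f x ≤ g x := by
  intro x hx
  have := (isCone_half (g - f)).cone_subset (R := R) (fun r hr => by simpa using h r hr) hx
  simpa using this

theorem mem_cone_union {R S : Set N} {x : N} (hx : x ∈ cone (R ∪ S)) :
    ∃ p ∈ cone R, ∃ q ∈ cone S, x = p + q := by
  have h1 := isCone_cone R
  have h2 := isCone_cone S
  have : IsCone {x : N | ∃ p ∈ cone R, ∃ q ∈ cone S, x = p + q} := by
    refine ⟨⟨0, h1.zero, 0, h2.zero, by simp⟩, ?_, ?_⟩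
    · rintro _ ⟨p, hp, q, hq, rfl⟩ _ ⟨p', hp', q', hq', rfl⟩
      exact ⟨p + p', h1.add _ hp _ hp', q + q', h2.add _ hq _ hq', by abel⟩
    · rintro c hc _ ⟨p, hp, q, hq, rfl⟩
      exact ⟨c • p, h1.smul c hc _ hp, c • q, h2.smul c hc _ hq, smul_add _ _ _⟩
  refine this.cone_subset ?_ hx
  rintro y (hy | hy)
  · exact ⟨y, subset_cone R hy, 0, h2.zero, by simp⟩
  · exact ⟨0, h1.zero, y, subset_cone S hy, by simp⟩

/-- rational polyhedral -/
def RP (L : AddSubgroup N) (S : Set N) : Prop :=
  ∃ R : Finset N, (R : Set N) ⊆ L ∧ cone (R : Set N) = S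

/-- integral on the lattice -/
def Intg (L : AddSubgroup N) (f : N →ₗ[ℝ] ℝ) : Prop := ∀ x ∈ L, ∃ z : ℤ, f x = z

theorem RP.inter_half {L : AddSubgroup N} {S : Set N} (hS : RP L S) {f : N →ₗ[ℝ] ℝ}
    (hf : Intg L f) : RP L (S ∩ {x | 0 ≤ f x}) := by
  classical
  obtain ⟨R, hRL, rfl⟩ := hS
  set Rp := R.filter (fun r => 0 ≤ f r) with hRp
  set Rm := R.filter (fun r => f r < 0) with hRm
  set B : N → N → N := fun p q => f p • q - f q • p with hB
  set R' := Rp ∪ (Rp ×ˢ Rm).image (fun x => B x.1 x.2) with hR'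
  have hc := isCone_cone (R' : Set N)
  have hcR := isCone_cone (R : Set N)
  refine ⟨R', ?_, Set.Subset.antisymm ?_ ?_⟩
  · intro x hx
    simp only [hR', coe_union, coe_image, Set.mem_union, Set.mem_image, mem_coe, mem_product] at hx
    rcases hx with hx | ⟨⟨p, q⟩, ⟨hp, hq⟩, rfl⟩
    · exact hRL (mem_filter.1 hx).1
    · have hp' := hRL (mem_filter.1 hp).1
      have hq' := hRL (mem_filter.1 hq).1
      obtain ⟨a, ha⟩ := hf p hp'
      obtain ⟨b, hb⟩ := hf q hq'
      simp only [hB, ha, hb, Int.cast_smul_eq_zsmul]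
      exact L.sub_mem (L.zsmul_mem hq' a) (L.zsmul_mem hp' b)
  · refine (hcR.inter (isCone_half f)).cone_subset ?_
    intro x hx
    simp only [hR', coe_union, coe_image, Set.mem_union, Set.mem_image, mem_coe, mem_product] at hx
    rcases hx with hx | ⟨⟨p, q⟩, ⟨hp, hq⟩, rfl⟩
    · exact ⟨subset_cone _ (mem_filter.1 hx).1, (mem_filter.1 hx).2⟩
    · obtain ⟨hp1, hp2⟩ := mem_filter.1 hp
      obtain ⟨hq1, hq2⟩ := mem_filter.1 hq
      refine ⟨?_, ?_⟩
      · simp only [hB]
        rw [sub_eq_add_neg, ← neg_smul]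
        exact hcR.add _ (hcR.smul _ hp2 _ (subset_cone _ hq1)) _
          (hcR.smul _ (by linarith) _ (subset_cone _ hp1))
      · simp [hB, mul_comm]
  · rintro x ⟨hx, hfx⟩
    have hU : (R : Set N) = (Rp : Set N) ∪ Rm := by
      ext r
      simp only [hRp, hRm, coe_filter, Set.mem_union, Set.mem_ofPred_eq, mem_coe]
      constructor
      · intro hr
        rcases le_or_gt 0 (f r) with h | h
        · exact Or.inl ⟨hr, h⟩
        · exact Or.inr ⟨hr, h⟩
      · rintro (h | h) <;> exact h.1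
    rw [hU] at hx
    obtain ⟨p, hp, q, hq, rfl⟩ := mem_cone_union hx
    have hp' : p ∈ cone (R' : Set N) := cone_mono (by simp [hR']) hp
    have hfp : 0 ≤ f p := (isCone_half f).cone_subset (fun r hr => (mem_filter.1 hr).2) hp
    have hq' : q = 0 ∨ f q < 0 := by
      have : IsCone {q : N | q = 0 ∨ f q < 0} := by
        refine ⟨Or.inl rfl, ?_, ?_⟩
        · rintro x (rfl | hx) y (rfl | hy)
          · simp
          · simp [hy]
          · simp [hx]
          · right; rw [map_add]; linarith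
        · rintro c hc x (rfl | hx)
          · simp
          · rcases hc.eq_or_lt with rfl | hc
            · simp
            · right; rw [map_smul]; exact mul_neg_of_pos_of_neg hc hx
      exact this.cone_subset (fun r hr => Or.inr (mem_filter.1 hr).2) hq
    have hBpq : B p q ∈ cone (R' : Set N) := by
      have h1 : ∀ r ∈ Rp, B r q ∈ cone (R' : Set N) := by
        intro r hr
        have : (fun y => B r y) = (f r • LinearMap.id - f.smulRight r : N →ₗ[ℝ] N) := by
          funext y; simp [hB]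
        have h2 := (hc.preimage (f r • LinearMap.id - f.smulRight r)).cone_subset
          (R := (Rm : Set N)) (fun s hs => by
            rw [Set.mem_preimage, ← this]
            refine subset_cone _ ?_
            simp only [hR', coe_union, coe_image, Set.mem_union, Set.mem_image, mem_coe,
              mem_product]
            exact Or.inr ⟨(r, s), ⟨hr, hs⟩, rfl⟩) hq
        rw [Set.mem_preimage, ← this] at h2
        exact h2
      have : (fun y => B y q) = (f.smulRight q - f q • LinearMap.id : N →ₗ[ℝ] N) := by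
        funext y; simp [hB]
      have h2 := (hc.preimage (f.smulRight q - f q • LinearMap.id)).cone_subset
        (R := (Rp : Set N)) (fun s hs => by
          rw [Set.mem_preimage, ← this]
          exact h1 s hs) hp
      rw [Set.mem_preimage, ← this] at h2
      exact h2
    rcases hq' with rfl | hq'
    · simpa using hp'
    · simp only [Set.mem_ofPred_eq, map_add] at hfx
      have hpos : 0 < f p := by linarith
      have : p + q = (f p)⁻¹ • B p q + ((f p + f q) / f p) • p := by
        simp only [hB, smul_sub, smul_smul, inv_mul_cancel₀ hpos.ne', one_smul]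
        rw [add_div, div_self hpos.ne', add_smul, one_smul, div_eq_inv_mul]
        abel
      rw [this]
      exact hc.add _ (hc.smul _ (by positivity) _ hBpq) _ (hc.smul _ (by positivity) _ hp')

theorem RP.inter_fin {L : AddSubgroup N} {S : Set N} (hS : RP L S) {T : Set (N →ₗ[ℝ] ℝ)}
    (hT : T.Finite) (hf : ∀ f ∈ T, Intg L f) : RP L (S ∩ {x | ∀ f ∈ T, 0 ≤ f x}) := by
  induction T, hT using Set.Finite.induction_on with
  | empty => simpa using hS
  | @insert a s _ _ ih =>
    have := (ih fun f h => hf f (Set.mem_insert_of_mem _ h)).inter_half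
      (hf a (Set.mem_insert _ _))
    convert this using 1
    ext x
    simp only [Set.mem_insert_iff, forall_eq_or_imp, Set.mem_inter_iff, Set.mem_ofPred_eq]
    tauto

/-- Dickson's lemma for functionals with natural values on the generators -/
theorem dickson {ι : Type*} (R : Finset N) (A : Set ι) (a : ι → N →ₗ[ℝ] ℝ)
    (ha : ∀ i ∈ A, ∀ r ∈ R, ∃ k : ℕ, a i r = k) :
    ∃ T ⊆ A, T.Finite ∧ ∀ i ∈ A, ∃ j ∈ T, ∀ x ∈ cone (R : Set N), a j x ≤ a i x := by
  classical
  let φ : ι → R → ℕ := fun i r => ⌊a i r⌋₊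
  have hφ : ∀ i ∈ A, ∀ r : R, (φ i r : ℝ) = a i r := by
    intro i hi r
    obtain ⟨k, hk⟩ := ha i hi r r.2
    simp [φ, hk]
  have hfin : {y | Minimal (· ∈ φ '' A) y}.Finite :=
    WellQuasiOrderedLE.finite_of_isAntichain (setOfPred_minimal_antichain _)
  obtain ⟨T, hTA, hTf, hT⟩ := Set.Finite.exists_subset_finite_image_eq (s := A) (f := φ) hfin
    (fun y hy => hy.prop)
  refine ⟨T, hTA, hTf, fun i hi => ?_⟩
  obtain ⟨y, hy1, hy2⟩ := exists_minimal_le_of_wellFoundedLT (· ∈ φ '' A) (φ i) ⟨i, hi, rfl⟩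
  have : y ∈ φ '' T := hT ▸ hy2
  obtain ⟨j, hj, rfl⟩ := this
  refine ⟨j, hj, le_on_cone fun r hr => ?_⟩
  have := hy1 ⟨r, hr⟩
  rw [← hφ j (hTA hj) ⟨r, hr⟩, ← hφ i hi ⟨r, hr⟩]
  exact_mod_cast this

/-- Farkas' lemma -/
theorem farkas {ι : Type*} (F : Finset ι) (s : ι → N →ₗ[ℝ] ℝ) (d : N →ₗ[ℝ] ℝ)
    (h : ∀ Z, (∀ i ∈ F, 0 ≤ s i Z) → 0 ≤ d Z) :
    ∃ c : ι → ℝ, (∀ i, 0 ≤ c i) ∧ ∀ Z, d Z = ∑ i ∈ F, c i * s i Z := by
  classical
  induction F using Finset.induction_on generalizing s d with
  | empty =>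
    refine ⟨0, fun _ => le_rfl, fun Z => ?_⟩
    have h1 := h Z (by simp)
    have h2 := h (-Z) (by simp)
    simp only [map_neg] at h2
    simp only [sum_empty]
    linarith
  | @insert a F haF ih =>
    by_cases h0 : ∀ Z, (∀ i ∈ F, 0 ≤ s i Z) → 0 ≤ d Z
    · obtain ⟨c, hc, hd⟩ := ih s d h0
      refine ⟨Function.update c a 0, fun i => ?_, fun Z => ?_⟩
      · by_cases hi : i = a
        · simp [hi]
        · simp [hi, hc i]
      · rw [sum_insert haF, hd Z]
        simp only [Function.update_self, zero_mul, zero_add]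
        refine sum_congr rfl fun i hi => ?_
        rw [Function.update_of_ne (by rintro rfl; exact haF hi)]
    · push Not at h0
      obtain ⟨Z0, hZ0, hd0⟩ := h0
      have ha0 : s a Z0 < 0 := by
        by_contra hn
        have := h Z0 (by
          intro i hi
          rcases mem_insert.1 hi with rfl | hi
          · exact not_lt.1 hn
          · exact hZ0 i hi)
        linarith
      let π : N →ₗ[ℝ] N := LinearMap.id - ((s a Z0)⁻¹ • s a).smulRight Z0
      have hπ : ∀ (f : N →ₗ[ℝ] ℝ) Z, f (π Z) = f Z - (s a Z0)⁻¹ * s a Z * f Z0 := by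
        intro f Z; simp [π]
      obtain ⟨c, hc, hd⟩ := ih (fun i => s i ∘ₗ π) (d ∘ₗ π) (fun Z hZ => h (π Z) (by
        intro i hi
        rcases mem_insert.1 hi with rfl | hi
        · rw [hπ]; field_simp [ha0.ne]; simp
        · exact hZ i hi))
      have hsum : 0 ≤ ∑ i ∈ F, c i * s i Z0 := sum_nonneg fun i hi => mul_nonneg (hc i) (hZ0 i hi)
      refine ⟨Function.update c a ((s a Z0)⁻¹ * (d Z0 - ∑ i ∈ F, c i * s i Z0)), fun i => ?_,
        fun Z => ?_⟩
      · by_cases hi : i = a
        · subst hi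
          rw [Function.update_self]
          exact mul_nonneg_of_nonpos_of_nonpos (inv_nonpos.2 ha0.le) (by linarith)
        · simp [hi, hc i]
      · rw [sum_insert haF, Function.update_self]
        have h1 := hd Z
        simp only [LinearMap.comp_apply, hπ, mul_sub, sum_sub_distrib] at h1
        have h2 : ∑ i ∈ F, Function.update c a ((s a Z0)⁻¹ * (d Z0 - ∑ i ∈ F, c i * s i Z0)) i *
            s i Z = ∑ i ∈ F, c i * s i Z :=
          sum_congr rfl fun i hi => by rw [Function.update_of_ne (by rintro rfl; exact haF hi)]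
        have h3 : ∑ i ∈ F, c i * ((s a Z0)⁻¹ * s a Z * s i Z0) =
            (s a Z0)⁻¹ * s a Z * ∑ i ∈ F, c i * s i Z0 := by
          rw [mul_sum]; exact sum_congr rfl fun i _ => by ring
        rw [h2]
        rw [h3] at h1
        linear_combination h1

/-- Farkas' lemma for infinitely many constraints, locally finite -/
theorem farkas_compact {E : Type*} [NormedAddCommGroup E] [NormedSpace ℝ E]
    [FiniteDimensional ℝ E] {ι : Type*} (s : ι → E →ₗ[ℝ] ℝ) (d : E →ₗ[ℝ] ℝ)
    (h : ∀ Z, Z ≠ 0 → (∀ i, 0 ≤ s i Z) → d Z ≤ 0 →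
      ∃ F : Finset ι, ∀ᶠ Y in nhds Z, (∀ i ∈ F, 0 ≤ s i Y) → 0 ≤ d Y) :
    ∃ (F : Finset ι) (c : ι → ℝ), (∀ i, 0 ≤ c i) ∧ ∀ Z, d Z = ∑ i ∈ F, c i * s i Z := by
  classical
  have := FiniteDimensional.proper_real E
  have key : ∀ Z ∈ Metric.sphere (0 : E) 1, ∃ F : Finset ι,
      {Y | (∀ i ∈ F, 0 ≤ s i Y) → 0 ≤ d Y} ∈ nhds Z := by
    intro Z hZ
    by_cases h1 : ∀ i, 0 ≤ s i Z
    · by_cases h2 : d Z ≤ 0
      · exact h Z (by rintro rfl; simp at hZ) h1 h2
      · refine ⟨∅, ?_⟩
        have := (d.continuous_of_finiteDimensional.tendsto Z).eventually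
          (lt_mem_nhds (not_le.1 h2))
        exact this.mono fun Y hY _ => hY.le
    · push Not at h1
      obtain ⟨i, hi⟩ := h1
      refine ⟨{i}, ?_⟩
      have := ((s i).continuous_of_finiteDimensional.tendsto Z).eventually (gt_mem_nhds hi)
      exact this.mono fun Y hY h => absurd (h i (mem_singleton_self i)) (not_le.2 hY)
  choose! F hF using key
  obtain ⟨t, ht, hcov⟩ := (isCompact_sphere (0 : E) 1).elim_nhds_subcover _ hF
  refine ⟨t.biUnion F, farkas _ s d fun Z hZ => ?_⟩
  rcases eq_or_ne Z 0 with rfl | hZ0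
  · simp
  have hn : 0 < ‖Z‖ := norm_pos_iff.2 hZ0
  have hY : ‖Z‖⁻¹ • Z ∈ Metric.sphere (0 : E) 1 := by
    simp [norm_smul, hn.ne']
  obtain ⟨X, hX, hXY⟩ := Set.mem_iUnion₂.1 (hcov hY)
  have := hXY fun i hi => by
    rw [map_smul]
    exact mul_nonneg (by positivity) (hZ i (mem_biUnion.2 ⟨X, hX, hi⟩))
  rw [map_smul, smul_eq_mul] at this
  exact nonneg_of_mul_nonneg_right this (by positivity)

end Pool.Agent.MP_20d318_ag.Lat

end MrgPart1

-- ======== part 2: formerly Pool.Agent.MP_20d318_ag.Lat.Basic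
section MrgPart2

/-! Algebra of hermitian forms over the Eisenstein integers. -/

set_option autoImplicit false

namespace Pool.Agent.MP_20d318_ag.Lat

open Finset Matrix

variable {n : ℕ}

/-- the norm of an Eisenstein integer -/
def nm (z : O) : ℤ := z.re * z.re - z.re * z.im + z.im * z.im

@[simp] theorem io_re (z : O) : (io z).re = z.re := rfl
@[simp] theorem io_im (z : O) : (io z).im = z.im := rfl
theorem rp_def (z : OR) : rp z = z.re - z.im / 2 := rfl
theorem red_def (z : O) : red z = z.re + z.im := rfl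

theorem io_star (z : O) : io (star z) = star (io z) := by ext <;> simp

theorem rp_star (z : OR) : rp (star z) = rp z := by simp [rp_def]; ring

theorem nm_nonneg (z : O) : 0 ≤ nm z := by unfold nm; nlinarith [sq_nonneg (z.re - z.im)]

theorem nm_eq_zero {z : O} (h : nm z = 0) : z = 0 := by
  unfold nm at h
  ext
  · simp; nlinarith [sq_nonneg (z.re - z.im), sq_nonneg z.im, sq_nonneg z.re]
  · simp; nlinarith [sq_nonneg (z.re - z.im), sq_nonneg z.im, sq_nonneg z.re]

theorem one_le_nm {z : O} (h : z ≠ 0) : 1 ≤ nm z :=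
  lt_of_le_of_ne (nm_nonneg z) fun h' => h (nm_eq_zero h'.symm)

theorem nm_mul (x y : O) : nm (x * y) = nm x * nm y := by simp [nm]; ring

theorem nm_star (x : O) : nm (star x) = nm x := by simp [nm]; ring

@[simp] theorem nm_zero : nm 0 = 0 := by simp [nm]

@[simp] theorem nm_one : nm 1 = 1 := by decide

theorem io_star_mul (z : O) : io (star z * z) = (nm z : ℝ) • (1 : OR) := by
  ext <;> simp [nm, QuadraticAlgebra.re_one, QuadraticAlgebra.im_one] <;> ring

theorem rp_one : rp 1 = 1 := by simp [rp_def, QuadraticAlgebra.re_one, QuadraticAlgebra.im_one]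

theorem rp_star_mul (z : OR) : rp (star z * z) = z.re * z.re - z.re * z.im + z.im * z.im := by
  simp [rp_def]; ring

theorem pair_comm (H Q : Mat n) : pair H Q = pair Q H := by simp [pair, mul_comm]

/-- the pairing as a bilinear map -/
noncomputable def pairL : Mat n →ₗ[ℝ] Mat n →ₗ[ℝ] ℝ :=
  LinearMap.mk₂ ℝ pair (fun _ _ _ => by simp [pair, add_mul, sum_add_distrib])
    (fun _ _ _ => by simp [pair, mul_sum])
    (fun _ _ _ => by simp [pair, mul_add, sum_add_distrib])
    (fun _ _ _ => by simp [pair, mul_sum])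

theorem pairL_apply (H Q : Mat n) : pairL H Q = pair H Q := rfl

/-- evaluation as a linear map -/
noncomputable def evL (v : Vec n) : Mat n →ₗ[ℝ] ℝ := pairL.flip (rk v)

theorem evL_apply (v : Vec n) (H : Mat n) : evL v H = ev H v := rfl

theorem ev_add (H K : Mat n) (v : Vec n) : ev (H + K) v = ev H v + ev K v := map_add (evL v) H K
theorem ev_smul (c : ℝ) (H : Mat n) (v : Vec n) : ev (c • H) v = c * ev H v := map_smul (evL v) c H
@[simp] theorem ev_zero (v : Vec n) : ev (0 : Mat n) v = 0 := map_zero (evL v)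
theorem ev_sum {ι : Type*} (s : Finset ι) (H : ι → Mat n) (v : Vec n) :
    ev (∑ i ∈ s, H i) v = ∑ i ∈ s, ev (H i) v := map_sum (evL v) H s

theorem pair_sum_rk {ι : Type*} (s : Finset ι) (H : Mat n) (w : ι → ℝ) (V : ι → Vec n) :
    pair H (∑ i ∈ s, w i • rk (V i)) = ∑ i ∈ s, w i * ev H (V i) := by
  rw [← pairL_apply, map_sum]
  simp [pairL_apply, ev]

theorem pair_eq_trace (H Q : Mat n) : pair H Q = rp (trace (H * Qᵀ)) := by
  simp [pair, trace, mul_apply]

theorem pair_act (g : Matrix (Fin n) (Fin n) O) (H Q : Mat n) :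
    pair (act g H) Q = pair H (act gᵀ Q) := by
  rw [pair_eq_trace, pair_eq_trace, act, act]
  have : ((gᵀ.map io)ᴴ)ᵀ = (g.map io)ᴴ := by ext i j <;> simp
  rw [transpose_mul, transpose_mul, this, ← transpose_map, transpose_transpose, Matrix.mul_assoc,
    Matrix.mul_assoc, trace_mul_comm]
  simp only [Matrix.mul_assoc]

theorem act_rk (g : Matrix (Fin n) (Fin n) O) (l : Vec n) : act g (rk l) = rk (l ᵥ* g) := by
  funext i j
  simp only [act, mul_apply, conjTranspose_apply, map_apply, rk, vecMul, dotProduct, star_sum,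
    sum_mul, mul_sum, map_sum, map_mul, io_star, star_mul']
  exact sum_congr rfl fun a _ => sum_congr rfl fun b _ => by ring

theorem ev_act (g : Matrix (Fin n) (Fin n) O) (H : Mat n) (v : Vec n) :
    ev (act g H) v = ev H (g *ᵥ v) := by
  rw [ev, pair_act, act_rk, vecMul_transpose, ev]

theorem ev_rk (l v : Vec n) : ev (rk l) v = nm (l ⬝ᵥ v) := by
  have : ((nm (l ⬝ᵥ v) : ℤ) : ℝ) = rp (io (star (l ⬝ᵥ v) * (l ⬝ᵥ v))) := by
    rw [io_star_mul, map_smul, rp_one]; simp
  rw [this]
  simp only [ev, pair, rk, dotProduct, star_sum, sum_mul, mul_sum, map_sum, star_mul', ← map_mul]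
  rw [sum_comm]
  exact sum_congr rfl fun a _ => sum_congr rfl fun b _ => by congr 2; ring

theorem rk_smul (d : O) (v : Vec n) : rk (d • v) = (nm d : ℝ) • rk v := by
  funext i j
  have : star (d * v i) * (d * v j) = (star d * d) * (star (v i) * v j) := by
    rw [star_mul']; ring
  simp only [rk, Pi.smul_apply, smul_eq_mul, Matrix.smul_apply]
  rw [this, map_mul, io_star_mul, smul_mul_assoc, one_mul]

theorem ev_smul_vec (H : Mat n) (d : O) (v : Vec n) : ev H (d • v) = nm d * ev H v := by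
  rw [ev, rk_smul, ← pairL_apply, map_smul]; rfl

@[simp] theorem ev_zero_vec (H : Mat n) : ev H 0 = 0 := by
  simpa using ev_smul_vec H 0 0

theorem act_act (g h : Matrix (Fin n) (Fin n) O) (H : Mat n) :
    act g (act h H) = act (h * g) H := by
  simp only [act, Matrix.map_mul, conjTranspose_mul, Matrix.mul_assoc]

theorem act_one (H : Mat n) : act 1 H = H := by simp [act]

/-- change of basis as a linear map -/
def actL (g : Matrix (Fin n) (Fin n) O) : Mat n →ₗ[ℝ] Mat n where
  toFun := act g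
  map_add' H K := by simp [act, Matrix.mul_add, Matrix.add_mul]
  map_smul' c H := by simp [act]

theorem act_sum_rk {ι : Type*} (g : Matrix (Fin n) (Fin n) O) (s : Finset ι) (w : ι → ℝ)
    (V : ι → Vec n) : act g (∑ i ∈ s, w i • rk (V i)) = ∑ i ∈ s, w i • rk (V i ᵥ* g) := by
  change actL g _ = _
  rw [map_sum]
  exact sum_congr rfl fun i _ => by rw [map_smul, ← act_rk]; rfl

theorem herm_act (g : Matrix (Fin n) (Fin n) O) {H : Mat n} (h : H.IsHermitian) :
    (act g H).IsHermitian := isHermitian_conjTranspose_mul_mul _ h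

theorem herm_rk (v : Vec n) : (rk v).IsHermitian := by
  funext i j
  simp only [rk, conjTranspose_apply, ← io_star, star_mul', star_star, mul_comm]

theorem star_smul_OR (c : ℝ) (z : OR) : star (c • z) = c • star z := by ext <;> simp; ring

theorem herm_smul (c : ℝ) {H : Mat n} (h : H.IsHermitian) : (c • H).IsHermitian := by
  funext i j
  simp only [conjTranspose_apply, Matrix.smul_apply, star_smul_OR, h.apply]

theorem herm_sum_rk {ι : Type*} (s : Finset ι) (w : ι → ℝ) (V : ι → Vec n) :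
    (∑ i ∈ s, w i • rk (V i)).IsHermitian :=
  Finset.sum_induction _ IsHermitian (fun _ _ => IsHermitian.add) isHermitian_zero
    fun _ _ => herm_smul _ (herm_rk _)

/-- the hermitian part -/
noncomputable def sym (Q : Mat n) : Mat n := (1 / 2 : ℝ) • (Q + Qᴴ)

theorem herm_sym (Q : Mat n) : (sym Q).IsHermitian := herm_smul _ (isHermitian_add_transpose_self Q)

theorem pair_sym {H : Mat n} (h : H.IsHermitian) (Q : Mat n) : pair H (sym Q) = pair H Q := by
  have : pair H Qᴴ = pair H Q := by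
    unfold pair
    rw [sum_comm]
    refine sum_congr rfl fun i _ => sum_congr rfl fun j _ => ?_
    rw [conjTranspose_apply, ← h.apply j i, ← star_mul', rp_star]
  rw [sym, ← pairL_apply, map_smul, map_add, pairL_apply, pairL_apply, this, smul_eq_mul]
  ring

theorem ev_sym (Q : Mat n) (v : Vec n) : ev (sym Q) v = ev Q v := by
  rw [ev, pair_comm, pair_sym (herm_rk v), pair_comm, ev]

/-- the three multipliers `0, 1, w` -/
def tri : Fin 3 → O := ![0, 1, ⟨0, 1⟩]

/-- test vectors -/
def tv (i j : Fin n) (k : Fin 3) : Vec n := fun a =>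
  (if a = i then 1 else 0) + if a = j then tri k else 0

theorem herm_span (S : Submodule ℝ (Mat n)) (h : ∀ i j k, rk (tv i j k) ∈ S) {H : Mat n}
    (hH : H.IsHermitian) : H ∈ S := by
  have h1 : ∀ i j k, k ≠ 0 → single i j (io (tri k)) + single j i (star (io (tri k))) ∈ S := by
    intro i j k hk
    have e : (single i j (io (tri k)) + single j i (star (io (tri k))) : Mat n) =
        rk (tv i j k) - rk (tv i i 0) - rk (tv j j 0) := by
      have hu : star (tri k) * tri k = 1 := by revert k; decide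
      have h0 : tri 0 = 0 := rfl
      funext a b
      simp only [Matrix.add_apply, Matrix.sub_apply, rk, tv, single_apply, h0, ← io_star, ← map_sub,
        ite_self, add_zero, star_add, apply_ite star, star_zero, star_one, @eq_comm _ a,
        @eq_comm _ b]
      have key : ∀ (P Q R T : Prop) [Decidable P] [Decidable Q] [Decidable R] [Decidable T],
          ((if P ∧ T then io (tri k) else 0) + if Q ∧ R then io (star (tri k)) else 0) =
          io (((if P then 1 else 0) + if Q then star (tri k) else 0) *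
            ((if R then 1 else 0) + if T then tri k else 0) -
            (if P then 1 else 0) * (if R then 1 else 0) -
            (if Q then 1 else 0) * (if T then 1 else 0)) := by
        intro P Q R T _ _ _ _
        by_cases h1 : P <;> by_cases h2 : Q <;> by_cases h3 : R <;> by_cases h4 : T <;>
          simp [h1, h2, h3, h4, add_mul, mul_add, hu]
        ring
      exact key _ _ _ _
    rw [e]
    exact S.sub_mem (S.sub_mem (h _ _ _) (h _ _ _)) (h _ _ _)
  have h2 : ∀ i j (z : OR), single i j z + single j i (star z) ∈ S := by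
    intro i j z
    have e : (single i j z + single j i (star z) : Mat n) =
        z.re • (single i j (io (tri 1)) + single j i (star (io (tri 1)))) +
        z.im • (single i j (io (tri 2)) + single j i (star (io (tri 2)))) := by
      have e1 : z = z.re • io (tri 1) + z.im • io (tri 2) := by
        ext <;> simp [tri, QuadraticAlgebra.re_one, QuadraticAlgebra.im_one]
      conv_lhs => rw [e1]
      simp only [star_add, star_smul_OR, single_add, smul_add, smul_single]
      abel
    rw [e]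
    exact S.add_mem (S.smul_mem _ (h1 _ _ _ (by decide))) (S.smul_mem _ (h1 _ _ _ (by decide)))
  have e : H = (1 / 2 : ℝ) • ∑ i, ∑ j, (single i j (H i j) + single j i (star (H i j))) := by
    simp only [sum_add_distrib, hH.apply]
    rw [sum_comm (f := fun i j => single j i (H j i)), ← matrix_eq_sum_single, ← two_smul ℝ,
      smul_smul]
    simp
  rw [e]
  exact S.smul_mem _ (S.sum_mem fun i _ => S.sum_mem fun j _ => h2 _ _ _)

theorem ext_ev {H : Mat n} (hH : H.IsHermitian) (h : ∀ v, ev H v = 0) : H = 0 := by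
  have := herm_span (LinearMap.ker (pairL H)) (fun i j k => h _) hH.transpose
  rw [LinearMap.mem_ker, pairL_apply, pair] at this
  have e : ∀ i j, rp (H i j * Hᵀ i j) = rp (star (H j i) * H j i) := fun i j => by
    rw [hH.apply, transpose_apply]
  have h0 : ∀ z : OR, 0 ≤ rp (star z * z) := fun z => by
    rw [rp_star_mul]; nlinarith [sq_nonneg (z.re - z.im)]
  simp only [e] at this
  funext j i
  have h1 := (sum_eq_zero_iff_of_nonneg fun j _ => h0 _).1
    ((sum_eq_zero_iff_of_nonneg fun i _ => sum_nonneg fun j _ => h0 _).1 this i (mem_univ _)) j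
    (mem_univ _)
  rw [rp_star_mul] at h1
  ext
  · simp; nlinarith [sq_nonneg ((H j i).re - (H j i).im), sq_nonneg (H j i).im, sq_nonneg (H j i).re]
  · simp; nlinarith [sq_nonneg ((H j i).re - (H j i).im), sq_nonneg (H j i).im, sq_nonneg (H j i).re]

theorem exists_unit {a b : O} (hb : b ≠ 0) (h : nm b ≤ nm a) : ∃ u : O, nm (a + u * b) < nm a := by
  by_contra hn
  push Not at hn
  have h1 := hn ⟨1, 0⟩
  have h2 := hn ⟨-1, 0⟩
  have h3 := hn ⟨0, 1⟩
  have h4 := hn ⟨0, -1⟩
  have h5 := hn ⟨1, 1⟩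
  have h6 := hn ⟨-1, -1⟩
  have h0 := one_le_nm hb
  set c := a * star b with hc
  have hN : nm c = nm a * nm b := by rw [hc, nm_mul, nm_star]
  have e : ∀ u : O, nm (a + u * b) = nm a + nm u * nm b +
      (2 * (c * star u).re - (c * star u).im) := fun u => by simp [nm, hc]; ring
  rw [e] at h1 h2 h3 h4 h5 h6
  generalize nm a = A at *
  generalize nm b = B at *
  simp [nm] at h1 h2 h3 h4 h5 h6 hN
  have k1 : (2 * c.re - c.im) ^ 2 ≤ B ^ 2 := sq_le_sq' (by linarith) (by linarith)
  have k2 : (c.re + c.im) ^ 2 ≤ B ^ 2 := sq_le_sq' (by linarith) (by linarith)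
  have k3 : (c.re - 2 * c.im) ^ 2 ≤ B ^ 2 := sq_le_sq' (by linarith) (by linarith)
  nlinarith

theorem transv (v : Vec n) {i j : Fin n} (hij : i ≠ j) (c : O) :
    ∃ g : Matrix (Fin n) (Fin n) O, IsUnit g ∧ v = g *ᵥ Function.update v i (v i + c * v j) := by
  refine ⟨transvection i j (-c), ?_, ?_⟩
  · rw [isUnit_iff_isUnit_det, det_transvection_of_ne _ _ hij]; exact isUnit_one
  · funext a
    rw [transvection, add_mulVec, one_mulVec, single_mulVec]
    by_cases ha : a = i
    · subst ha; simp [hij.symm]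
    · simp [ha]

/-- the Euclidean algorithm -/
theorem euclid (v : Vec (n + 1)) :
    ∃ (g : Matrix (Fin (n + 1)) (Fin (n + 1)) O) (d : O), IsUnit g ∧ v = g *ᵥ Pi.single 0 d := by
  have step : ∀ (v : Vec (n + 1)) (i j : Fin (n + 1)) (c : O), i ≠ j →
      (∃ (g : Matrix (Fin (n + 1)) (Fin (n + 1)) O) (d : O), IsUnit g ∧
        Function.update v i (v i + c * v j) = g *ᵥ Pi.single 0 d) →
      ∃ (g : Matrix (Fin (n + 1)) (Fin (n + 1)) O) (d : O), IsUnit g ∧ v = g *ᵥ Pi.single 0 d := by
    rintro v i j c hij ⟨g, d, hg, h⟩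
    obtain ⟨g', hg', h'⟩ := transv v hij c
    exact ⟨g' * g, d, hg'.mul hg, by rw [← mulVec_mulVec, ← h, ← h']⟩
  induction hm : (∑ i, nm (v i)).toNat using Nat.strong_induction_on generalizing v with
  | _ m ih =>
  by_cases h : ∃ i j, i ≠ j ∧ v j ≠ 0 ∧ nm (v j) ≤ nm (v i)
  · obtain ⟨i, j, hij, hj, hle⟩ := h
    obtain ⟨u, hu⟩ := exists_unit hj hle
    refine step v i j u hij (ih _ ?_ _ rfl)
    rw [← hm, Int.toNat_lt_toNat]
    · refine sum_lt_sum (fun a _ => ?_) ⟨i, mem_univ _, by simpa using hu⟩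
      by_cases ha : a = i
      · subst ha; simpa using hu.le
      · simp [ha]
    · exact lt_of_lt_of_le (one_le_nm hj) (single_le_sum (fun a _ => nm_nonneg (v a)) (mem_univ j))
  · push Not at h
    by_cases h0 : ∀ i, i ≠ 0 → v i = 0
    · refine ⟨1, v 0, isUnit_one, ?_⟩
      funext a
      by_cases ha : a = 0
      · simp [ha]
      · simp [ha, h0 a ha]
    · push Not at h0
      obtain ⟨i, hi, hvi⟩ := h0
      have hz : ∀ a, a ≠ i → v a = 0 := by
        intro a ha
        by_contra hva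
        exact lt_asymm (h a i ha hvi) (h i a ha.symm hva)
      refine step v 0 i 1 hi.symm (step _ i 0 (-1) hi ⟨1, v i, isUnit_one, ?_⟩)
      funext a
      by_cases ha : a = i
      · subst ha; simp [hi, hz 0 hi.symm]
      · by_cases ha0 : a = 0
        · subst ha0; simp [ha, hz 0 ha]
        · simp [ha, ha0, hz a ha]

end Pool.Agent.MP_20d318_ag.Lat

end MrgPart2

-- ======== part 3: formerly Pool.Agent.MP_20d318_ag.Lat.Lin
section MrgPart3

/-! Linear algebra for the geometric side. -/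

set_option autoImplicit false

namespace Pool.Agent.MP_20d318_ag.Lat

open Finset Matrix

variable {n : ℕ}

theorem pair_rk (l : Vec n) (Q : Mat n) : pair (rk l) Q = ev Q l := pair_comm _ _

theorem rk_herm (v : Vec n) : (rk v).IsHermitian := herm_rk v

theorem act_herm (g : Matrix (Fin n) (Fin n) O) {H : Mat n} (h : H.IsHermitian) :
    (act g H).IsHermitian := herm_act g h

theorem herm_ext (H : Mat (n + 1)) (hH : H.IsHermitian)
    (h : ∀ g, IsUnit g → ev (act g H) (Pi.single 0 1) = 0) : H = 0 := by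
  refine ext_ev hH fun v => ?_
  obtain ⟨g, d, hg, rfl⟩ := euclid v
  have e : (Pi.single 0 d : Vec (n + 1)) = d • Pi.single 0 1 := by
    rw [← Pi.single_smul]; simp
  rw [← ev_act, e, ev_smul_vec, h g hg, mul_zero]

theorem pair_congr {H Q Q2 : Mat n} (hH : H.IsHermitian) (h : ∀ l, ev Q2 l = ev Q l) :
    pair H Q2 = pair H Q := by
  have : sym Q2 = sym Q := sub_eq_zero.1 (ext_ev ((herm_sym _).sub (herm_sym _)) fun v => by
    rw [← evL_apply, map_sub, evL_apply, evL_apply, ev_sym, ev_sym, h, sub_self])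
  rw [← pair_sym hH, this, pair_sym hH]

theorem pair_act_of_ev (H Q Q2 : Mat n) (g : Matrix (Fin n) (Fin n) O) (hH : H.IsHermitian)
    (h : ∀ l, ev Q2 l = ev Q (l ᵥ* g)) : pair H Q2 = pair (act g H) Q := by
  rw [pair_act]
  exact pair_congr hH fun l => by rw [h, ev_act, mulVec_transpose]

theorem gram (q : Vec n → ℤ) (h1 : ∀ a b, q (a + b) + q (a - b) = 2 * q a + 2 * q b)
    (h2 : ∀ a, q ((QuadraticAlgebra.omega : O) • a) = q a) : ∃ Q : Mat n, ∀ l, ev Q l = q l := by
  have q0 : q 0 = 0 := by have := h1 0 0; simp at this; omega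
  have qn : ∀ a, q (-a) = q a := fun a => by have := h1 0 a; simp [q0] at this; omega
  let β : Vec n → Vec n → ℤ := fun a c => q (a + c) - q (a - c)
  have hs : ∀ a c, β a c = β c a := fun a c => by
    simp only [β]; rw [add_comm, ← qn (a - c), neg_sub]
  have ha : ∀ c a a', β (a + a') c = β a c + β a' c := by
    intro c a a'
    have e1 := h1 (a + c) a'
    have e2 := h1 (a - c) a'
    have e3 := h1 (a' + c) a
    have e4 := h1 (a' - c) a
    have e5 := qn (a + c - a')
    have e6 := qn (a - c - a')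
    rw [show -(a + c - a') = a' - c - a by abel] at e5
    rw [show -(a - c - a') = a' + c - a by abel] at e6
    rw [show a + c + a' = a + a' + c by abel] at e1
    rw [show a - c + a' = a + a' - c by abel] at e2
    rw [show a' + c + a = a + a' + c by abel] at e3
    rw [show a' - c + a = a + a' - c by abel] at e4
    simp only [β]; omega
  let B : Vec n →+ Vec n →+ ℤ := AddMonoidHom.mk'
    (fun a => AddMonoidHom.mk' (β a) fun c c' => by rw [hs, ha, hs c, hs c'])
    fun a a' => AddMonoidHom.ext fun c => ha c a a'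
  have hB : ∀ a c, B a c = β a c := fun _ _ => rfl
  set w : O := QuadraticAlgebra.omega with hw
  have hi : ∀ a c, B (w • a) (w • c) = B a c := fun a c => by
    simp only [hB, β, ← smul_add, ← smul_sub, h2]
  have hq : ∀ a, B a a = 4 * q a := fun a => by
    have := h1 a a
    simp only [hB, β, sub_self, q0] at *; omega
  let E : Fin n → Vec n := fun i => Pi.single i 1
  have h3 : ∀ i j, B (w • E i) (E j) = -B (E i) (E j) - B (E i) (w • E j) := by
    intro i j
    have e1 : w • w • w • E i = E i := by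
      rw [smul_smul, smul_smul, show w * w * w = 1 by decide, one_smul]
    have e2 : w • w • E j = -E j - w • E j := by
      rw [smul_smul, show w * w = -1 - w by decide, sub_smul, neg_smul, one_smul]
    rw [← hi, ← hi, e1, e2, map_sub, map_neg]
  refine ⟨fun i j => ⟨(B (E i) (E j) - B (E i) (w • E j)) / 6,
    -(B (E i) (E j) + 2 * B (E i) (w • E j)) / 6⟩, fun l => ?_⟩
  have hl : l = ∑ i, ((l i).re • E i + (l i).im • w • E i) := by
    funext a
    simp only [E, Finset.sum_apply, Pi.add_apply, Pi.smul_apply, Pi.single_apply, smul_ite,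
      smul_zero, sum_add_distrib, sum_ite_eq, mem_univ, if_true]
    ext <;> simp [hw]
  have h4 : (q l : ℝ) = (B l l : ℝ) / 4 := by rw [hq]; push_cast; ring
  rw [h4]
  conv_rhs => rw [hl]
  simp only [map_sum, map_add, map_zsmul, AddMonoidHom.finsetSum_apply, AddMonoidHom.add_apply,
    AddMonoidHom.smul_apply, hi, h3, ev, pair, smul_eq_mul, Int.cast_sum, sum_div]
  rw [sum_comm]
  simp only [mul_sum, ← sum_add_distrib, Int.cast_sum, sum_div]
  refine sum_congr rfl fun i _ => sum_congr rfl fun j _ => ?_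
  simp [rp_def, rk]
  ring

end Pool.Agent.MP_20d318_ag.Lat

end MrgPart3

-- marker of a merged file
example : 731051 + 667430 = 731051 + 667430 := rfl
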