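import Mathlib.Algebra.Order.Ring.Star
import Mathlib.Analysis.RCLike.Lemmas
import Mathlib.LinearAlgebra.Matrix.FiniteDimensional
import Mathlib.Data.Finset.Functor
import Pool.Agent.MP_20d318_ag.Lat.Lin

/-! Looijenga's lemma: a covering rational polyhedral cone yields a fundamental domain. -/

set_option autoImplicit false

namespace Pool.Agent.MP_20d318_ag.Lat

open Finset

variable {N : Type*} [AddCommGroup N] [Module ℝ N]

theorem exists_weights {k : ℕ} {A : Set (Fin k → ℝ)} (hA : A.Finite) (h0 : ∀ a ∈ A, a ≠ 0) :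
    ∃ T : ℕ, 1 ≤ T ∧ ∀ a ∈ A, ∑ j : Fin k, ((T : ℝ) ^ k + (T : ℝ) ^ (j : ℕ)) * a j ≠ 0 := by
  classical
  let p : (Fin k → ℝ) → Polynomial ℝ := fun a =>
    ∑ j : Fin k, (Polynomial.monomial k (a j) + Polynomial.monomial (j : ℕ) (a j))
  have hp : ∀ a ∈ A, p a ≠ 0 := by
    intro a ha h
    apply h0 a ha
    funext j
    have := congrArg (fun q => Polynomial.coeff q j) h
    simp only [p, Polynomial.finsetSum_coeff, Polynomial.coeff_add, Polynomial.coeff_monomial,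
      Polynomial.coeff_zero, j.2.ne', if_false, zero_add, Fin.val_inj] at this
    simpa using this
  have hfin : (⋃ a ∈ A, {x : ℝ | (p a).IsRoot x}).Finite :=
    hA.biUnion fun a ha => Polynomial.finite_setOfPred_isRoot (hp a ha)
  have hinf : (Set.range fun n : ℕ => ((n + 1 : ℕ) : ℝ)).Infinite :=
    Set.infinite_range_of_injective fun m n h => by simpa using h
  obtain ⟨_, ⟨n, rfl⟩, hn⟩ := hinf.exists_notMem_finite hfin
  refine ⟨n + 1, by omega, fun a ha h => hn ?_⟩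
  refine Set.mem_biUnion ha ?_
  simp only [Set.mem_ofPred_eq, Polynomial.IsRoot, p, Polynomial.eval_finsetSum,
    Polynomial.eval_add, Polynomial.eval_monomial]
  rw [← h]
  exact sum_congr rfl fun j _ => by ring

theorem exists_sep [FiniteDimensional ℝ N] (Cv : Set (N →ₗ[ℝ] ℝ))
    (hsep : ∀ x, (∀ c ∈ Cv, c x = 0) → x = 0) :
    ∃ (k : ℕ) (c : Fin k → N →ₗ[ℝ] ℝ), (∀ j, c j ∈ Cv) ∧ ∀ x, (∀ j, c j x = 0) → x = 0 := by
  obtain ⟨f, hf, hs, -⟩ := Submodule.exists_fun_fin_finrank_span_eq ℝ Cv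
  refine ⟨_, f, hf, fun x hx => hsep x fun c hc => ?_⟩
  have : c ∈ Submodule.span ℝ (Set.range f) := by
    rw [hs]; exact Submodule.subset_span hc
  obtain ⟨a, rfl⟩ := (Submodule.mem_span_range_iff_exists_fun ℝ).1 this
  simp [hx]

theorem nat_of_int {r : ℝ} (h : ∃ z : ℤ, r = z) (h0 : 0 ≤ r) : ∃ k : ℕ, r = k := by
  obtain ⟨z, rfl⟩ := h
  obtain ⟨k, rfl⟩ := Int.eq_ofNat_of_zero_le (by exact_mod_cast h0 : 0 ≤ z)
  exact ⟨k, by simp⟩

theorem exists_xi [FiniteDimensional ℝ N] {L : AddSubgroup N} {C : Set N}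
    {G : Subgroup (N ≃ₗ[ℝ] N)} {Cv : Set (N →ₗ[ℝ] ℝ)}
    (hint : ∀ c ∈ Cv, Intg L c) (hpos : ∀ c ∈ Cv, ∀ x ∈ C, 0 ≤ c x)
    (hsep : ∀ x, (∀ c ∈ Cv, c x = 0) → x = 0)
    (hGL : ∀ g ∈ G, ∀ x ∈ L, g x ∈ L) (hGC : ∀ g ∈ G, ∀ x ∈ C, g x ∈ C)
    (hspan : Submodule.span ℝ ((L : Set N) ∩ C) = ⊤) :
    ∃ ξ : N →ₗ[ℝ] ℝ, Intg L ξ ∧ (∀ x ∈ C, 0 ≤ ξ x) ∧ ∀ g ∈ G, (∀ x, ξ (g x) = ξ x) → g = 1 := by
  classical
  obtain ⟨k, c, hc, hcs⟩ := exists_sep Cv hsep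
  obtain ⟨B, hB, -, hBs, -⟩ := Submodule.exists_finset_span_eq_linearIndepOn ℝ ((L : Set N) ∩ C)
  let Γ : N → Fin k → ℝ := fun x j => c j x
  have hΓ : Function.Injective Γ := by
    intro x y h
    refine sub_eq_zero.1 (hcs _ fun j => ?_)
    rw [map_sub]; exact sub_eq_zero.2 (congrFun h j)
  have hfin : ∀ M : ℝ, {z : N | z ∈ (L : Set N) ∩ C ∧ ∑ j, c j z ≤ M}.Finite := by
    intro M
    refine Set.Finite.of_finite_image (f := Γ) ?_ hΓ.injOn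
    refine (Set.Finite.pi' (t := fun _ : Fin k => (fun n : ℕ => (n : ℝ)) '' Set.Iic ⌊M⌋₊)
      fun _ => (Set.finite_Iic _).image _).subset ?_
    rintro _ ⟨z, ⟨hz, hM⟩, rfl⟩ j
    obtain ⟨n, hn⟩ := nat_of_int (hint _ (hc j) z hz.1) (hpos _ (hc j) z hz.2)
    refine ⟨n, Nat.le_floor ?_, hn.symm⟩
    rw [← hn]
    exact (single_le_sum (fun i _ => hpos _ (hc i) z hz.2) (mem_univ j)).trans hM
  let A : Set (Fin k → ℝ) := ⋃ b ∈ (B : Set N), (fun z => Γ z - Γ b) ''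
    ({z : N | z ∈ (L : Set N) ∩ C ∧ ∑ j, c j z ≤ 2 * ∑ j, c j b} \ {b})
  have hA : A.Finite := B.finite_toSet.biUnion fun b _ => ((hfin _).sdiff).image _
  obtain ⟨T, hT1, hT⟩ := exists_weights hA (by
    intro a ha
    obtain ⟨b, -, z, hz, rfl⟩ := Set.mem_iUnion₂.1 ha
    exact fun h => hz.2 (hΓ (sub_eq_zero.1 h)))
  have hT1' : (1 : ℝ) ≤ T := by exact_mod_cast hT1
  let u : Fin k → ℝ := fun j => (T : ℝ) ^ k + (T : ℝ) ^ (j : ℕ)
  have hu1 : ∀ j, (T : ℝ) ^ k ≤ u j := fun j => le_add_of_nonneg_right (by positivity)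
  have hu2 : ∀ j, u j ≤ 2 * (T : ℝ) ^ k := fun j => by
    have := pow_le_pow_right₀ hT1' j.2.le
    simp only [u]; linarith
  have hK : (0 : ℝ) < (T : ℝ) ^ k := by positivity
  refine ⟨∑ j, u j • c j, fun x hx => ?_, fun x hx => ?_, fun g hg hξ => ?_⟩
  · choose z hz using fun j => hint _ (hc j) x hx
    refine ⟨∑ j : Fin k, ((T : ℤ) ^ k + (T : ℤ) ^ (j : ℕ)) * z j, ?_⟩
    simp [u, hz]
  · simp only [LinearMap.sum_apply, LinearMap.smul_apply, smul_eq_mul]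
    exact sum_nonneg fun j _ => mul_nonneg (hK.le.trans (hu1 j)) (hpos _ (hc j) x hx)
  · have hb : ∀ b ∈ (B : Set N), g b = b := by
      intro b hb
      by_contra hne
      have h1 := hξ b
      simp only [LinearMap.sum_apply, LinearMap.smul_apply, smul_eq_mul] at h1
      have hgb : g b ∈ (L : Set N) ∩ C := ⟨hGL g hg b (hB hb).1, hGC g hg b (hB hb).2⟩
      have h2 : (T : ℝ) ^ k * ∑ j, c j (g b) ≤ ∑ j, u j * c j (g b) := by
        rw [mul_sum]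
        exact sum_le_sum fun j _ => mul_le_mul_of_nonneg_right (hu1 j) (hpos _ (hc j) _ hgb.2)
      have h3 : ∑ j, u j * c j b ≤ (T : ℝ) ^ k * (2 * ∑ j, c j b) := by
        rw [← mul_assoc, mul_comm _ 2, mul_sum]
        exact sum_le_sum fun j _ => mul_le_mul_of_nonneg_right (hu2 j) (hpos _ (hc j) _ (hB hb).2)
      have h4 : ∑ j, c j (g b) ≤ 2 * ∑ j, c j b := le_of_mul_le_mul_left (by linarith) hK
      refine hT (Γ (g b) - Γ b) (Set.mem_biUnion hb ⟨g b, ⟨⟨hgb, h4⟩, hne⟩, rfl⟩) ?_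
      simp only [Pi.sub_apply, Γ, mul_sub, sum_sub_distrib]
      exact sub_eq_zero.2 h1
    ext x
    have hx : x ∈ Submodule.span ℝ (B : Set N) := by rw [hBs, hspan]; trivial
    induction hx using Submodule.span_induction with
    | mem x hx => exact hb x hx
    | zero => simp
    | add x y _ _ hx hy => simp only [map_add, hx, hy]
    | smul a x _ hx => simp only [map_smul, hx]

theorem looijenga [FiniteDimensional ℝ N] {L : AddSubgroup N} {C : Set N}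
    {G : Subgroup (N ≃ₗ[ℝ] N)} {Cv : Set (N →ₗ[ℝ] ℝ)} (hC : IsCone C)
    (hint : ∀ c ∈ Cv, Intg L c) (hpos : ∀ c ∈ Cv, ∀ x ∈ C, 0 ≤ c x)
    (hsep : ∀ x, (∀ c ∈ Cv, c x = 0) → x = 0)
    (hGL : ∀ g ∈ G, ∀ x ∈ L, g x ∈ L) (hGC : ∀ g ∈ G, ∀ x ∈ C, g x ∈ C)
    (hspan : Submodule.span ℝ C = ⊤) {P : Set N} (hP : RP L P) (hPC : P ⊆ C)
    (hcov : ∀ x ∈ C, ∃ g ∈ G, g x ∈ P) : Concl L C G := by
  classical
  have hspan' : Submodule.span ℝ ((L : Set N) ∩ C) = ⊤ := by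
    rw [eq_top_iff, ← hspan, Submodule.span_le]
    intro x hx
    obtain ⟨g, hg, hgx⟩ := hcov x hx
    obtain ⟨R, hRL, rfl⟩ := hP
    have hc : IsCone (Submodule.span ℝ ((L : Set N) ∩ C) : Set N) :=
      ⟨Submodule.zero_mem _, fun _ hx _ hy => Submodule.add_mem _ hx hy,
        fun c _ _ hx => Submodule.smul_mem _ c hx⟩
    have := (hc.preimage (g⁻¹ : N ≃ₗ[ℝ] N).toLinearMap).cone_subset (R := (R : Set N))
      (fun r hr => Submodule.subset_span ⟨hGL _ (G.inv_mem hg) r (hRL hr),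
        hGC _ (G.inv_mem hg) r (hPC (subset_cone _ hr))⟩) hgx
    simpa using this
  obtain ⟨ξ, hξi, hξp, hξ⟩ := exists_xi hint hpos hsep hGL hGC hspan'
  obtain ⟨R0, hR0L, hR0⟩ := id hP
  obtain ⟨T, hTG, hTf, hT⟩ := dickson R0 (G : Set (N ≃ₗ[ℝ] N)) (fun g => ξ ∘ₗ g.toLinearMap)
    fun g hg r hr => nat_of_int (hξi _ (hGL g hg r (hR0L hr)))
      (hξp _ (hGC g hg r (hPC (hR0 ▸ subset_cone _ hr))))
  rw [hR0] at hT
  have hPj : ∀ j ∈ T, ∃ R : Finset N, (R : Set N) ⊆ L ∧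
      cone (R : Set N) = {y | y ∈ P ∧ ∀ i ∈ T, ξ (j y) ≤ ξ (i y)} := by
    intro j hj
    have := hP.inter_fin (hTf.image fun i => ξ ∘ₗ i.toLinearMap - ξ ∘ₗ j.toLinearMap) (by
      rintro _ ⟨i, hi, rfl⟩ x hx
      obtain ⟨a, ha⟩ := hξi _ (hGL i (hTG hi) x hx)
      obtain ⟨b, hb⟩ := hξi _ (hGL j (hTG hj) x hx)
      exact ⟨a - b, by simp [ha, hb]⟩)
    obtain ⟨R, h1, h2⟩ := this
    refine ⟨R, h1, h2.trans ?_⟩
    ext y
    simp
  choose! Rj hRj1 hRj2 using hPj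
  let R : Finset N := hTf.toFinset.biUnion fun j => (Rj j).image j
  have hR : ∀ x, x ∈ R ↔ ∃ j ∈ T, ∃ y ∈ Rj j, j y = x := by
    intro x; simp [R]
  let σ : Set N := {x | ∀ c ∈ (fun g : N ≃ₗ[ℝ] N => ξ ∘ₗ g.toLinearMap - ξ) '' G, 0 ≤ c x}
  have hσ : ∀ x, x ∈ σ ↔ ∀ g ∈ G, ξ x ≤ ξ (g x) := by
    intro x; simp [σ]
  have hsub : cone (R : Set N) ⊆ C ∩ σ := by
    refine (hC.inter (isCone_dual _)).cone_subset fun x hx => ?_
    obtain ⟨j, hj, y, hy, rfl⟩ := (hR x).1 hx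
    have hy' := subset_cone _ (mem_coe.2 hy)
    rw [hRj2 j hj] at hy'
    refine ⟨hGC j (hTG hj) y (hPC hy'.1), (hσ _).2 fun g hg => ?_⟩
    obtain ⟨i, hi, h⟩ := hT (g * j) (G.mul_mem hg (hTG hj))
    exact (hy'.2 i hi).trans (h y hy'.1)
  refine ⟨R, fun x hx => ?_, fun x hx => (hsub hx).1, fun x hx => ?_, fun g hg hg1 x hx hgx => ?_⟩
  · obtain ⟨j, hj, y, hy, rfl⟩ := (hR x).1 hx
    exact hGL j (hTG hj) y (hRj1 j hj hy)
  · obtain ⟨g, hg, hgx⟩ := hcov x hx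
    obtain ⟨j0, hj0, -⟩ := hT 1 G.one_mem
    obtain ⟨j, hj, hmin⟩ := Set.exists_min_image T (fun j => ξ (j (g x))) hTf ⟨j0, hj0⟩
    have h1 : g x ∈ cone (Rj j : Set N) := by rw [hRj2 j hj]; exact ⟨hgx, hmin⟩
    have h2 := ((isCone_cone (R : Set N)).preimage j.toLinearMap).cone_subset
      (R := (Rj j : Set N)) (fun r hr => subset_cone _ ((hR _).2 ⟨j, hj, r, hr, rfl⟩)) h1
    exact ⟨(j * g)⁻¹, G.inv_mem (G.mul_mem (hTG hj) hg), j (g x), h2, by simp⟩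
  · have hmem : ∀ y ∈ core (cone (R : Set N)), y ∈ σ := by
      intro y hy
      obtain ⟨ε, -, h⟩ := hy 0
      simpa using (hsub h).2
    have h1 := (hσ _).1 (hmem x hx) g hg
    have h2 := (hσ _).1 (hmem _ hgx) g⁻¹ (G.inv_mem hg)
    have h3 : ∀ v, ξ v ≤ ξ (g v) := by
      intro v
      obtain ⟨ε, hε, h⟩ := hx v
      have h4 := (hσ _).1 (hsub h).2 g hg
      simp only [map_add, map_smul, smul_eq_mul] at h4
      have h5 : ξ (g x) ≤ ξ x := by simpa using h2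
      exact le_of_mul_le_mul_left (by linarith) hε
    refine hg1 (hξ g hg fun v => le_antisymm ?_ (h3 v))
    simpa using h3 (-v)

end Pool.Agent.MP_20d318_ag.Lat
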