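import Pool.Agent.MP_20d318_ag.Lat.VorData
import Mathlib.Analysis.InnerProductSpace.Basic
import Mathlib.Data.Pi.Interval
import Mathlib.RingTheory.PiTensorProduct
import Mathlib.Topology.Sheaves.Presheaf
import Mathlib.RingTheory.Finiteness.Prod
import Mathlib.Analysis.RCLike.Lemmas
import Mathlib.Combinatorics.SimpleGraph.Basic
import Pool.Agent.MP_20d318_ag.Lat.Loo

-- ======== part 0: formerly Pool.Agent.MP_20d318_ag.Lat.Vor
section MrgPart0

/-! Voronoi reduction over the Eisenstein integers in ranks two and three. -/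

set_option autoImplicit false

namespace Pool.Agent.MP_20d318_ag.Lat

open Finset Matrix

variable {n : ℕ}

/-- nonnegative with a discrete set of values on the lattice -/
structure FinVal (H : Mat n) : Prop where
  nonneg : ∀ v, 0 ≤ ev H v
  fin : ∀ B : ℝ, {r | r ≤ B ∧ ∃ v, ev H v = r}.Finite

theorem FinVal.act {H : Mat n} (h : FinVal H) (g : Matrix (Fin n) (Fin n) O) : FinVal (act g H) :=
  ⟨fun v => by rw [ev_act]; exact h.nonneg _, fun B => (h.fin B).subset fun r ⟨h1, v, h2⟩ =>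
    ⟨h1, g *ᵥ v, by rw [← h2, ev_act]⟩⟩

theorem FinVal.congr {H K : Mat n} (h : FinVal H) (e : ∀ v, ev K v = ev H v) : FinVal K :=
  ⟨fun v => e v ▸ h.nonneg v, fun B => by simpa only [e] using h.fin B⟩

theorem finVal_of_int {H : Mat n} {K : ℝ} (hK : 0 < K) (h : ∀ v, ∃ k : ℕ, K * ev H v = k) :
    FinVal H := by
  refine ⟨fun v => ?_, fun B => ?_⟩
  · obtain ⟨k, hk⟩ := h v
    exact nonneg_of_mul_nonneg_right (by rw [hk]; positivity) hK
  · refine ((Set.finite_Iic ⌊K * B⌋₊).image fun k : ℕ => (k : ℝ) / K).subset ?_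
    rintro _ ⟨h1, v, rfl⟩
    obtain ⟨k, hk⟩ := h v
    refine ⟨k, Nat.le_floor ?_, ?_⟩
    · rw [← hk]; exact mul_le_mul_of_nonneg_left h1 hK.le
    · simp only [← hk]; field_simp

theorem isCone_finVal : IsCone {H : Mat n | FinVal H} := by
  refine ⟨finVal_of_int one_pos fun v => ⟨0, by simp⟩, fun H hH K hK => ⟨fun v => ?_, fun B => ?_⟩,
    fun c hc H hH => ⟨fun v => ?_, fun B => ?_⟩⟩
  · rw [ev_add]; exact add_nonneg (hH.nonneg v) (hK.nonneg v)
  · refine ((hH.fin B).image2 (· + ·) (hK.fin B)).subset ?_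
    rintro _ ⟨h1, v, rfl⟩
    rw [ev_add] at h1 ⊢
    exact ⟨_, ⟨by linarith [hK.nonneg v], v, rfl⟩, _, ⟨by linarith [hH.nonneg v], v, rfl⟩, rfl⟩
  · rw [ev_smul]; exact mul_nonneg hc (hH.nonneg v)
  · rcases hc.eq_or_lt with rfl | hc
    · refine (Set.finite_singleton 0).subset ?_
      rintro _ ⟨-, v, rfl⟩
      simp
    · refine ((hH.fin (B / c)).image (c * ·)).subset ?_
      rintro _ ⟨h1, v, rfl⟩
      rw [ev_smul] at h1 ⊢
      exact ⟨_, ⟨by rw [le_div_iff₀ hc]; linarith, v, rfl⟩, rfl⟩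

theorem exists_min {T K : Type*} [Fintype K] [Nonempty T] (U : T → K → Vec n) {H : Mat n}
    (hH : FinVal H) : ∃ (t : T) (g : Matrix (Fin n) (Fin n) O), IsUnit g ∧
      ∀ t' (g' : Matrix (Fin n) (Fin n) O), IsUnit g' →
        ∑ k, ev (act g H) (U t k) ≤ ∑ k, ev (act g H) (g' *ᵥ U t' k) := by
  classical
  obtain ⟨t0⟩ := ‹Nonempty T›
  let B := ∑ k, ev H (U t0 k)
  let S : Set (K → ℝ) := {y | ∑ k, y k ≤ B ∧ ∃ (t : T) (g : Matrix (Fin n) (Fin n) O), IsUnit g ∧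
    y = fun k => ev H (g *ᵥ U t k)}
  have hS : S.Finite := by
    refine (Set.Finite.pi' fun _ : K => hH.fin B).subset ?_
    rintro _ ⟨h1, t, g, -, rfl⟩ k
    exact ⟨(single_le_sum (f := fun k => ev H (g *ᵥ U t k)) (fun i _ => hH.nonneg _)
      (mem_univ k)).trans h1, _, rfl⟩
  obtain ⟨_, ⟨h1, t, g, hg, rfl⟩, hmin⟩ := Set.exists_min_image S (fun y => ∑ k, y k) hS
    ⟨fun k => ev H (U t0 k), le_rfl, t0, 1, isUnit_one, by simp⟩
  refine ⟨t, g, hg, fun t' g' hg' => ?_⟩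
  simp only [ev_act, mulVec_mulVec]
  by_cases h2 : ∑ k, ev H ((g * g') *ᵥ U t' k) ≤ B
  · exact hmin _ ⟨h2, t', g * g', hg.mul hg', rfl⟩
  · exact h1.trans (not_le.1 h2).le

theorem span_of_cert {ι : Type*} [Fintype ι] (V : ι → Vec n) (d : ℤ) (hd : d ≠ 0)
    (M : Fin n → Fin n → Fin 3 → ι → ℤ)
    (h : ∀ i j k a b, d • (star (tv i j k a) * tv i j k b) =
      ∑ m, M i j k m • (star (V m a) * V m b)) {H : Mat n} (hH : H.IsHermitian) :
    ∃ w : ι → ℝ, H = ∑ m, w m • rk (V m) := by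
  have := herm_span (Submodule.span ℝ (Set.range fun m => rk (V m))) (fun i j k => ?_) hH
  · obtain ⟨w, hw⟩ := (Submodule.mem_span_range_iff_exists_fun ℝ).1 this
    exact ⟨w, hw.symm⟩
  · refine (Submodule.mem_span_range_iff_exists_fun ℝ).2 ⟨fun m => (d : ℝ)⁻¹ * M i j k m, ?_⟩
    have hd' : (d : ℝ) ≠ 0 := by exact_mod_cast hd
    funext a b
    have := congrArg (fun z => (d : ℝ)⁻¹ • io z) (h i j k a b)
    simp only [map_zsmul, map_sum, ← Int.cast_smul_eq_zsmul ℝ, smul_smul, inv_mul_cancel₀ hd',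
      one_smul, smul_sum] at this
    simp only [Matrix.sum_apply, Matrix.smul_apply, rk]
    exact this.symm

theorem sum_ev {ι K : Type*} [Fintype ι] [Fintype K] (w : ι → ℝ) (V : ι → Vec n) (u : K → Vec n) :
    ∑ k, ev (∑ m, w m • rk (V m)) (u k) = ∑ m, w m * sv (V m) u := by
  simp only [ev_sum, ev_smul, ev_rk, sv, Int.cast_sum, mul_sum]
  exact sum_comm

theorem nb {ι K : Type*} [Fintype ι] [Fintype K] {w : ι → ℝ} {V : ι → Vec n} {u u' : K → Vec n}
    (h : ∑ k, ev (∑ m, w m • rk (V m)) (u k) ≤ ∑ k, ev (∑ m, w m • rk (V m)) (u' k)) :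
    0 ≤ ∑ m, w m * ((sv (V m) u' - sv (V m) u : ℤ) : ℝ) := by
  rw [sum_ev, sum_ev] at h
  simp only [Int.cast_sub, mul_sub, sum_sub_distrib]
  linarith

theorem isUnit_of_nm {z : O} (h : nm z = 1) : IsUnit z := by
  refine IsUnit.of_mul_eq_one (star z) ?_
  unfold nm at h
  ext
  · simp [QuadraticAlgebra.re_one]; linarith
  · simp [QuadraticAlgebra.im_one]; ring

/-- `H` lies in the cone of the forms of rank one attached to `V` -/
def InCone {k : ℕ} (V : Fin k → Vec n) (H : Mat n) : Prop :=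
  ∃ w : Fin k → ℝ, (∀ i, 0 ≤ w i) ∧ H = ∑ i, w i • rk (V i)

theorem vor2 {H : Mat 2} (hH : H.IsHermitian) (hF : FinVal H) :
    ∃ g : Matrix (Fin 2) (Fin 2) O, IsUnit g ∧ InCone V4 (act g H) := by
  obtain ⟨t, g, hg, hmin⟩ := exists_min U2 hF
  obtain ⟨w, hw⟩ := span_of_cert V4 1 one_ne_zero M4 s4 (herm_act g hH)
  refine ⟨g, hg, w, fun f => ?_, hw⟩
  obtain rfl : t = 0 := Subsingleton.elim _ _
  have := hmin 0 (G4 f) (by
    rw [isUnit_iff_isUnit_det, det_fin_two]; exact isUnit_of_nm (c4_det f))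
  rw [hw] at this
  have := nb this
  simp only [c4_val] at this
  simpa using this

theorem isUnit_of_d3 {g : Matrix (Fin 3) (Fin 3) O} (h : nm (d3 g) = 1) : IsUnit g := by
  rw [isUnit_iff_isUnit_det, det_fin_three]; exact isUnit_of_nm h

theorem sum_ix {M : Type*} [AddCommMonoid M] (F : Fin 12 → M) :
    ∑ i, F i = ∑ x, ∑ y, F (ix x y) := by
  rw [← Fintype.sum_prod_type', ← (finProdFinEquiv (m := 4) (n := 3)).sum_comp]
  rfl

theorem vor3 {H : Mat 3} (hH : H.IsHermitian) (hF : FinVal H) :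
    ∃ g : Matrix (Fin 3) (Fin 3) O, IsUnit g ∧ (InCone V9 (act g H) ∨ InCone V12 (act g H)) := by
  obtain ⟨t, g, hg, hmin⟩ := exists_min U3 hF
  refine ⟨g, hg, ?_⟩
  obtain rfl | rfl : t = 0 ∨ t = 1 := by omega
  · obtain ⟨w, hw⟩ := span_of_cert V9 2 two_ne_zero M9 s9 (herm_act g hH)
    refine Or.inl ⟨w, fun f => ?_, hw⟩
    have := hmin 1 (G9 f) (isUnit_of_d3 (c9_det f))
    rw [hw] at this
    have := nb this
    simp only [c9_val] at this
    simpa using this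
  · obtain ⟨w, hw⟩ := span_of_cert V12 1 one_ne_zero M12 s12 (herm_act g hH)
    have key : ∀ f : Fin 4 → Fin 3, 0 ≤ ∑ x, w (ix x (f x)) := by
      intro f
      have := hmin (G12 (f 0) (f 1) (f 2) (f 3)).1 _
        (isUnit_of_d3 (c12_det (f 0) (f 1) (f 2) (f 3)))
      rw [hw] at this
      have := nb this
      have e : ![f 0, f 1, f 2, f 3] = f := by funext x; fin_cases x <;> rfl
      rw [sum_ix] at this
      simp only [c12_val, e, apply_ite (Int.cast : ℤ → ℝ), Int.cast_zero, mul_ite, mul_zero,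
        sum_ite_eq', mem_univ, if_true] at this
      split_ifs at this <;> rw [← sum_mul] at this <;> simpa using this
    choose f hf using fun x => Finite.exists_min fun y => w (ix x y)
    let e : Fin 4 → ℝ := fun x => (∑ x, w (ix x (f x))) / 4 - w (ix x (f x))
    have he : ∑ x, e x = 0 := by simp [e, sum_sub_distrib]; ring
    let w' : Fin 12 → ℝ := fun i => w i + e ((finProdFinEquiv (m := 4) (n := 3)).symm i).1
    have hw' : ∀ x y, w' (ix x y) = w (ix x y) + e x := fun x y => by simp [w', ix]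
    refine Or.inr ⟨w', fun i => ?_, ?_⟩
    · obtain ⟨⟨x, y⟩, rfl⟩ := (finProdFinEquiv (m := 4) (n := 3)).surjective i
      have h1 := hw' x y
      have h2 := hf x y
      have h3 := key f
      change 0 ≤ w' (ix x y)
      simp only [e] at h1
      linarith
    · have hJ : ∀ x, ∑ y, rk (V12 (ix x y)) = ∑ y, rk (V12 (ix 0 y)) := by
        intro x
        funext a b
        simp only [Matrix.sum_apply, rk, ← map_sum, c12_rel x]
      rw [hw, sum_ix, sum_ix]
      simp only [hw', add_smul, sum_add_distrib, ← smul_sum, hJ, ← sum_smul, he, zero_smul,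
        add_zero]

end Pool.Agent.MP_20d318_ag.Lat

end MrgPart0

-- ======== part 1: formerly Pool.Agent.MP_20d318_ag.Lat.Star
section MrgPart1

/-! The classes in `Pell` are nonnegative on all curves. -/

set_option autoImplicit false

namespace Pool.Agent.MP_20d318_ag.Lat

open Finset Matrix

variable {n : ℕ}

theorem rv_mulVec (g : Matrix (Fin n) (Fin n) O) (v : Vec n) : rv (g *ᵥ v) = g.map red *ᵥ rv v := by
  funext i
  simp [rv, mulVec, dotProduct]

theorem rv_vecMul (g : Matrix (Fin n) (Fin n) O) (v : Vec n) : rv (v ᵥ* g) = rv v ᵥ* g.map red := by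
  funext i
  simp [rv, vecMul, dotProduct]

theorem rv_smul (d : O) (v : Vec n) : rv (d • v) = red d • rv v := by
  funext i
  simp [rv]

/-- the permutation of the fixed points -/
noncomputable def ptE {g : Matrix (Fin n) (Fin n) O} (hg : IsUnit g) : Pt n ≃ Pt n :=
  Equiv.ofBijective (fun x => g.map red *ᵥ x) (Finite.injective_iff_bijective.1
    (mulVec_injective_iff_isUnit.2 (hg.map (RingHom.mapMatrix red))))

theorem ptE_apply {g : Matrix (Fin n) (Fin n) O} (hg : IsUnit g) (x : Pt n) :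
    ptE hg x = g.map red *ᵥ x := rfl

theorem rv_ne {g : Matrix (Fin n) (Fin n) O} (hg : IsUnit g) {v : Vec n} (h : rv v ≠ 0) :
    rv (g *ᵥ v) ≠ 0 := by
  rw [rv_mulVec, ← ptE_apply hg]
  intro h0
  exact h ((ptE hg).injective (h0.trans (by simp [ptE_apply])))

theorem Pell.act {D : W n} (h : Pell D) {g : Matrix (Fin n) (Fin n) O} (hg : IsUnit g) :
    Pell (actW g D) := by
  refine ⟨herm_act g h.herm, fun x => h.nonneg _, fun v hv x => ?_⟩
  have := h.line (g *ᵥ v) (rv_ne hg hv) (g.map red *ᵥ x)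
  simpa only [actW, lineSum, ev_act, rv_mulVec, mulVec_add, mulVec_sub] using this

/-- transport of the class of a curve -/
def trZ (g h : Matrix (Fin n) (Fin n) O) (Z : W n) : W n :=
  (act g Z.1, fun x => Z.2 (hᵀ.map red *ᵥ x))

theorem isUnit_tr {g h : Matrix (Fin n) (Fin n) O} (e : g * h = 1) : IsUnit hᵀ := by
  rw [isUnit_transpose]
  exact IsUnit.of_mul_eq_one g (mul_eq_one_comm.1 e)

theorem inter_tr {g h : Matrix (Fin n) (Fin n) O} (e : g * h = 1) (D Z : W n) :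
    inter (actW hᵀ D) (trZ g h Z) = inter D Z := by
  simp only [inter, actW, trZ, pair_act, transpose_transpose, act_act, e, act_one]
  rw [← (ptE (isUnit_tr e)).sum_comp fun x => D.2 x * Z.2 x]
  rfl

theorem dot_tr {g h : Matrix (Fin n) (Fin n) O} (e : g * h = 1) (l : Vec n) (x : Pt n) :
    rv (g *ᵥ l) ⬝ᵥ (hᵀ.map red *ᵥ x) = rv l ⬝ᵥ x := by
  rw [dotProduct_mulVec, ← rv_vecMul, vecMul_transpose, mulVec_mulVec, mul_eq_one_comm.1 e,
    one_mulVec]

theorem plane_tr {g h : Matrix (Fin n) (Fin n) O} (e : g * h = 1) (Z : W n) (l : Vec n)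
    (c : ZMod 3) : planeSum (trZ g h Z).2 (rv l) c = planeSum Z.2 (rv (g *ᵥ l)) c := by
  simp only [planeSum, sum_filter, trZ]
  rw [← (ptE (isUnit_tr e)).sum_comp fun x => if rv (g *ᵥ l) ⬝ᵥ x = c then Z.2 x else 0]
  simp only [ptE_apply, dot_tr e]

theorem Mov.tr {Z : W n} (hZ : Mov Z) {g h : Matrix (Fin n) (Fin n) O} (e : g * h = 1) :
    Mov (trZ g h Z) := by
  refine ⟨fun x => hZ.nonneg _, fun l hl c => ?_⟩
  rw [plane_tr e]
  exact (hZ.plane _ (rv_ne (IsUnit.of_mul_eq_one h e) hl) c).trans_eq (ev_act _ _ _).symm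

theorem Cur.tr {Z : W n} (hZ : Cur Z) {g h : Matrix (Fin n) (Fin n) O} (e : g * h = 1) :
    Cur (trZ g h Z) := by
  have hev : ∀ l, ev (trZ g h Z).1 l = ev Z.1 (g *ᵥ l) := fun l => ev_act _ _ _
  refine ⟨fun l => by rw [hev]; exact hZ.int _, ?_, fun x => hZ.nonneg _, fun l hl c => ?_,
    fun l hl x y hx hy => ?_⟩
  · rcases hZ.ne with ⟨l, hl⟩ | h0
    · exact Or.inl ⟨h *ᵥ l, by rwa [hev, mulVec_mulVec, e, one_mulVec]⟩
    · exact Or.inr (by funext x; simp [trZ, h0])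
  · rw [plane_tr e, hev] at *
    exact hZ.plane _ hl c
  · rw [hev] at hl
    simpa only [dot_tr e] using hZ.const _ hl _ _ hx hy

/-- the duality between `Pell` and `Mov` -/
def Star (n : ℕ) : Prop :=
  ∀ D Z : W n, Pell D → Z.1.IsHermitian → Mov Z → FinVal Z.1 → 0 ≤ inter D Z

theorem star_aux {k : ℕ} {V : Fin k → Vec n} (hV : StarOn V) {D Z : W n} (hD : Pell D)
    (hZ : Mov Z) {g : Matrix (Fin n) (Fin n) O} (hg : IsUnit g) (hc : InCone V (act g Z.1)) :
    0 ≤ inter D Z := by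
  obtain ⟨h, e⟩ := hg.exists_right_inv
  obtain ⟨w, hw, hQ⟩ := hc
  have h1 := hZ.tr e
  rw [← inter_tr e, inter]
  rw [trZ, hQ] at h1
  have := hV _ w _ (hD.act (isUnit_tr e)) hw h1
  simp only [trZ, hQ, pair_sum_rk]
  linarith

theorem star_three (h9 : StarOn V9) (h12 : StarOn V12) : Star 3 := by
  intro D Z hD hH hZ hF
  obtain ⟨g, hg, h | h⟩ := vor3 hH hF
  · exact star_aux h9 hD hZ hg h
  · exact star_aux h12 hD hZ hg h

theorem star_two (h4 : StarOn V4) : Star 2 := by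
  intro D Z hD hH hZ hF
  obtain ⟨g, hg, h⟩ := vor2 hH hF
  exact star_aux h4 hD hZ hg h

theorem star_one : Star 1 := by
  intro D Z hD hH hZ hF
  let e : Vec 1 := fun _ => 1
  have hr : rv e = fun _ => 1 := by funext i; simp [rv, e]
  have hne : rv e ≠ 0 := by rw [hr]; decide
  have hQ : Z.1 = ev Z.1 e • rk e := by
    refine sub_eq_zero.1 (ext_ev (hH.sub (herm_smul _ (herm_rk e))) fun v => ?_)
    have : v = v 0 • e := by funext i; simp [e, Subsingleton.elim i 0]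
    rw [this, ev_smul_vec, ← evL_apply, map_sub, map_smul, evL_apply, evL_apply, ev_rk]
    simp [e, dotProduct]
  have h1 : ∀ x, Z.2 x ≤ ev Z.1 e := fun x => by
    refine le_trans ?_ (hZ.plane e hne (rv e ⬝ᵥ x))
    exact single_le_sum (fun y _ => hZ.nonneg y) (by simp)
  have h2 : ∑ x, D.2 x ≤ ev D.1 e := by
    refine le_trans (le_of_eq ?_) (hD.line e hne 0)
    have : (univ : Finset (Pt 1)) = {0, 0 + rv e, 0 - rv e} := by rw [hr]; decide
    rw [this, sum_insert (by rw [hr]; decide), sum_pair (by rw [hr]; decide), lineSum, add_assoc]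
  rw [inter, hQ, ← pairL_apply, map_smul, pairL_apply, smul_eq_mul, sub_nonneg]
  calc ∑ x, D.2 x * Z.2 x ≤ ∑ x, D.2 x * ev Z.1 e :=
        sum_le_sum fun x _ => mul_le_mul_of_nonneg_left (h1 x) (hD.nonneg x)
    _ ≤ ev Z.1 e * ev D.1 e := by
        rw [← sum_mul, mul_comm]; exact mul_le_mul_of_nonneg_left h2 (hF.nonneg e)

theorem lin_zero {a b : ℝ} (h : ∀ k : ℤ, 0 ≤ a + k * b) : b = 0 := by
  by_contra hb
  rcases lt_or_gt_of_ne hb with hb | hb
  · obtain ⟨k, hk⟩ := exists_int_gt (a / -b)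
    rw [div_lt_iff₀ (by linarith)] at hk
    linarith [h k]
  · obtain ⟨k, hk⟩ := exists_int_gt (a / b)
    rw [div_lt_iff₀ hb] at hk
    have := h (-k)
    push_cast at this
    linarith

theorem ev_expand (Q : Mat n) (u v : Vec n) : ev Q (u + v) = ev Q u + ev Q v +
    ∑ i, ∑ j, rp (Q i j * io (star (u i) * v j + star (v i) * u j)) := by
  simp only [ev, pair, rk, ← sum_add_distrib, ← map_add, ← mul_add, Pi.add_apply, star_add]
  refine sum_congr rfl fun i _ => sum_congr rfl fun j _ => ?_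
  congr 3; ring

theorem row_zero {Q : Mat n} (hH : Q.IsHermitian) (h : ∀ v, 0 ≤ ev Q v)
    {i : Fin n} (h0 : ev Q (Pi.single i 1) = 0) (j : Fin n) : Q i j = 0 := by
  have key : ∀ u : O, rp (Q i j * io u) = 0 := by
    intro u
    have := lin_zero (a := ev Q (Pi.single j u)) (b := 2 * rp (Q i j * io u)) fun k => by
      have h1 := h ((k : O) • Pi.single i 1 + Pi.single j u)
      rw [ev_expand, ev_smul_vec, h0] at h1
      have e : ∀ a b, Q a b * io (star (((k : O) • Pi.single i 1 : Vec n) a) *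
          (Pi.single j u : Vec n) b + star ((Pi.single j u : Vec n) a) *
          ((k : O) • Pi.single i 1 : Vec n) b) =
          (if b = j then if a = i then (k : ℝ) • (Q i j * io u) else 0 else 0) +
          (if b = i then if a = j then (k : ℝ) • star (Q i j * io u) else 0 else 0) := by
        intro a b
        rw [map_add, mul_add]
        congr 1
        · by_cases ha : a = i <;> by_cases hb : b = j <;> simp [ha, hb, Int.cast_smul_eq_zsmul]
          ring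
        · by_cases ha : a = j <;> by_cases hb : b = i <;>
            simp [ha, hb, Int.cast_smul_eq_zsmul, hH.apply, io_star]
          ring
      simp only [e] at h1
      simp only [map_add, sum_add_distrib, apply_ite rp, map_zero, sum_ite_eq', mem_univ,
        if_true, map_smul, rp_star, smul_eq_mul] at h1
      linarith
    linarith
  have h1 := key 1
  have h2 := key ⟨0, 1⟩
  simp [rp_def] at h1 h2
  ext
  · simp; linarith
  · simp; linarith

/-- restriction to the hyperplane `x 0 = c` -/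
def res (c : ZMod 3) (Z : W (n + 1)) : W n :=
  (Z.1.submatrix Fin.succ Fin.succ, fun x => Z.2 (Fin.cons c x))

theorem ev_cons (H : Mat (n + 1)) (v : Vec n) :
    ev H (Fin.cons 0 v) = ev (H.submatrix Fin.succ Fin.succ) v := by
  simp [ev, pair, rk, Fin.sum_univ_succ]

theorem rv_cons (v : Vec n) : rv (Fin.cons 0 v : Vec (n + 1)) = Fin.cons 0 (rv v) := by
  funext i
  refine Fin.cases ?_ (fun i => ?_) i <;> simp [rv]

theorem sum_pt (f : Pt (n + 1) → ℝ) : ∑ x, f x = ∑ c, ∑ x : Pt n, f (Fin.cons c x) := by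
  rw [← Fintype.sum_prod_type', ← (Fin.consEquiv fun _ => ZMod 3).sum_comp]
  rfl

theorem Pell.res {D : W (n + 1)} (h : Pell D) (c : ZMod 3) : Pell (res c D) := by
  refine ⟨h.herm.submatrix _, fun x => h.nonneg _, fun v hv x => ?_⟩
  have := h.line (Fin.cons 0 v) (by
    rw [rv_cons]; intro h0; exact hv (funext fun i => by simpa using congrFun h0 i.succ))
    (Fin.cons c x)
  rw [ev_cons, rv_cons] at this
  have e1 : (Fin.cons c x + Fin.cons 0 (rv v) : Pt (n + 1)) = Fin.cons c (x + rv v) := by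
    funext i; refine Fin.cases ?_ (fun i => ?_) i <;> simp
  have e2 : (Fin.cons c x - Fin.cons 0 (rv v) : Pt (n + 1)) = Fin.cons c (x - rv v) := by
    funext i; refine Fin.cases ?_ (fun i => ?_) i <;> simp
  simpa only [lineSum, e1, e2, Lat.res] using this

theorem dot_cons (e x : Pt n) (c : ZMod 3) :
    (Fin.cons 0 e : Pt (n + 1)) ⬝ᵥ Fin.cons c x = e ⬝ᵥ x := by
  simp [dotProduct, Fin.sum_univ_succ]

/-- the statement for curves -/
def CurStar (n : ℕ) : Prop := ∀ D Z : W n, Pell D → Z.1.IsHermitian → Cur Z → 0 ≤ inter D Z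

theorem curStar_zero : CurStar 0 := by
  intro D Z _ _ hZ
  rcases hZ.ne with ⟨l, hl⟩ | h
  · simp [ev, pair] at hl
  · simp [inter, pair, h]

theorem Cur.finVal {Z : W n} (hZ : Cur Z) : FinVal Z.1 :=
  finVal_of_int one_pos (by simpa using hZ.int)

theorem curStar_res (ih : CurStar n) {D Z : W (n + 1)} (hD : Pell D) (hH : Z.1.IsHermitian)
    (hZ : Cur Z) (h0 : ev Z.1 (Pi.single 0 1) = 0) : 0 ≤ inter D Z := by
  have hr := row_zero hH hZ.finVal.nonneg h0
  have hc : ∀ i, Z.1 i 0 = 0 := fun i => by rw [← hH.apply, hr, star_zero]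
  obtain ⟨c, hm⟩ : ∃ c, ∀ x, Z.2 x ≠ 0 → x 0 = c := by
    by_cases h : ∃ y, Z.2 y ≠ 0
    · obtain ⟨y, hy⟩ := h
      refine ⟨y 0, fun x hx => ?_⟩
      have := hZ.const _ h0 x y hx hy
      simpa [rv, dotProduct, Fin.sum_univ_succ] using this
    · exact ⟨0, fun x hx => absurd ⟨x, hx⟩ h⟩
  have hs : ∀ f : Pt (n + 1) → ℝ, (∀ x, Z.2 x = 0 → f x = 0) →
      ∑ x, f x = ∑ x : Pt n, f (Fin.cons c x) := by
    intro f hf
    rw [sum_pt, sum_eq_single c _ (by simp)]
    intro b _ hb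
    refine sum_eq_zero fun x _ => hf _ ?_
    by_contra hx
    exact hb (by simpa using hm _ hx)
  have hp : ∀ H : Mat (n + 1), pair H Z.1 = pair (H.submatrix Fin.succ Fin.succ) (res c Z).1 := by
    intro H
    simp [pair, Fin.sum_univ_succ, hr, hc, res]
  have hev : ∀ l, ev (res c Z).1 l = ev Z.1 (Fin.cons 0 l) := fun l => (ev_cons _ _).symm
  have e : inter D Z = inter (res c D) (res c Z) := by
    rw [inter, inter, hp, hs _ fun x hx => by simp [hx]]
    rfl
  rw [e]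
  refine ih _ _ (hD.res c) (hH.submatrix _) ⟨fun l => by rw [hev]; exact hZ.int _, ?_,
    fun x => hZ.nonneg _, fun l hl b => ?_, fun l hl x y hx hy => ?_⟩
  · rcases hZ.ne with ⟨l, hl⟩ | h
    · refine Or.inl ⟨Fin.tail l, ?_⟩
      rw [ev, pair_comm, hp] at hl
      rw [ev, pair_comm]
      exact hl
    · exact Or.inr (by funext x; simp [res, h])
  · rw [hev] at hl ⊢
    refine le_trans (le_of_eq ?_) (hZ.plane _ hl b)
    simp only [planeSum, sum_filter]
    rw [hs _ fun x hx => by simp [hx]]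
    simp only [rv_cons, dot_cons, res]
  · rw [hev] at hl
    simpa only [rv_cons, dot_cons] using hZ.const _ hl _ _ hx hy

theorem curStar_succ (hS : Star (n + 1)) (ih : CurStar n) : CurStar (n + 1) := by
  intro D Z hD hH hZ
  by_cases h : ∀ l, l ≠ 0 → ev Z.1 l ≠ 0
  · refine hS D Z hD hH ⟨hZ.nonneg, fun l hl c => hZ.plane l (h l ?_) c⟩ hZ.finVal
    rintro rfl
    exact hl (funext fun i => by simp [rv])
  · push Not at h
    obtain ⟨l, hl, h0⟩ := h
    obtain ⟨g, d, hg, rfl⟩ := euclid l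
    obtain ⟨h, e⟩ := hg.exists_right_inv
    rw [← inter_tr e]
    refine curStar_res ih (hD.act (isUnit_tr e)) (herm_act g hH) (hZ.tr e) ?_
    have hd : d ≠ 0 := by rintro rfl; simp at hl
    have e1 : (Pi.single 0 d : Vec (n + 1)) = d • Pi.single 0 1 := by
      rw [← Pi.single_smul]; simp
    rw [← ev_act, e1, ev_smul_vec] at h0
    have : (nm d : ℝ) ≠ 0 := by exact_mod_cast (by linarith [one_le_nm hd] : nm d ≠ 0)
    exact (mul_eq_zero.1 h0).resolve_left this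

theorem cur_nonneg (h9 : StarOn V9) (h12 : StarOn V12) (h4 : StarOn V4) {D Z : W 3} (hD : Pell D)
    (hZ : Cur Z) : 0 ≤ inter D Z := by
  have := curStar_succ (star_three h9 h12) (curStar_succ (star_two h4)
    (curStar_succ star_one curStar_zero)) D (sym Z.1, Z.2) hD (herm_sym _)
    ⟨by simpa only [ev_sym] using hZ.int, by simpa only [ev_sym] using hZ.ne, hZ.nonneg,
      by simpa only [ev_sym] using hZ.plane, by simpa only [ev_sym] using hZ.const⟩
  simpa only [inter, pair_sym hD.herm] using this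

end Pool.Agent.MP_20d318_ag.Lat

end MrgPart1

-- ======== part 2: formerly Pool.Agent.MP_20d318_ag.Lat.PD
section MrgPart2

/-! Forms with positive minimum on the lattice are positive definite. -/

set_option autoImplicit false

namespace Pool.Agent.MP_20d318_ag.Lat

open Finset Matrix Filter Topology

section
variable {ι : Type*} [Fintype ι]

/-- a real quadratic form -/
def qf (A : ι → ι → ℝ) (x : ι → ℝ) : ℝ := ∑ a, ∑ b, A a b * x a * x b

theorem qf_smul (A : ι → ι → ℝ) (c : ℝ) (x : ι → ℝ) : qf A (c • x) = c ^ 2 * qf A x := by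
  simp only [qf, mul_sum, Pi.smul_apply, smul_eq_mul]
  exact sum_congr rfl fun a _ => sum_congr rfl fun b _ => by ring

theorem qf_add (A : ι → ι → ℝ) (c : ℝ) (x y : ι → ℝ) : qf A (y + c • x) =
    qf A y + c * (∑ a, ∑ b, A a b * (x a * y b + y a * x b)) + c ^ 2 * qf A x := by
  simp only [qf, mul_sum, Pi.add_apply, Pi.smul_apply, smul_eq_mul, ← sum_add_distrib]
  exact sum_congr rfl fun a _ => sum_congr rfl fun b _ => by ring

theorem qf_cont : Continuous fun p : (ι → ι → ℝ) × (ι → ℝ) => qf p.1 p.2 := by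
  unfold qf; fun_prop

theorem qf_cont' (A : ι → ι → ℝ) : Continuous (qf A) := by
  unfold qf; fun_prop

theorem psd_real {A : ι → ι → ℝ} (h : ∀ z : ι → ℤ, 0 ≤ qf A fun a => z a) (x : ι → ℝ) :
    0 ≤ qf A x := by
  let u : ℕ → ι → ℝ := fun k a => ((k : ℝ) + 1)⁻¹ * ⌊((k : ℝ) + 1) * x a⌋
  have hu : Tendsto u atTop (𝓝 x) := by
    refine tendsto_pi_nhds.2 fun a => ?_
    have h1 : Tendsto (fun k : ℕ => x a - 1 / ((k : ℝ) + 1)) atTop (𝓝 (x a)) := by
      simpa using (tendsto_const_nhds (x := x a)).sub tendsto_one_div_add_atTop_nhds_zero_nat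
    refine tendsto_of_tendsto_of_tendsto_of_le_of_le h1 tendsto_const_nhds (fun k => ?_) fun k => ?_
    · have hk : (0 : ℝ) < k + 1 := by positivity
      simp only [u]
      rw [le_inv_mul_iff₀ hk, mul_sub, mul_one_div_cancel hk.ne']
      exact (Int.sub_one_lt_floor _).le
    · have hk : (0 : ℝ) < k + 1 := by positivity
      simp only [u]
      rw [inv_mul_le_iff₀ hk]
      exact Int.floor_le _
  refine ge_of_tendsto' (((qf_cont' A).tendsto x).comp hu) fun k => ?_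
  have : u k = ((k : ℝ) + 1)⁻¹ • fun a => ((⌊((k : ℝ) + 1) * x a⌋ : ℤ) : ℝ) := rfl
  rw [Function.comp_apply, this, qf_smul]
  exact mul_nonneg (sq_nonneg _) (h _)

theorem pd_real {A : ι → ι → ℝ} {μ : ℝ} (hμ : 0 < μ)
    (h : ∀ z : ι → ℤ, z ≠ 0 → μ ≤ qf A fun a => z a) {x : ι → ℝ} (hx : x ≠ 0) : 0 < qf A x := by
  have hp := psd_real (A := A) fun z => by
    rcases eq_or_ne z 0 with rfl | hz
    · simp [qf]
    · exact hμ.le.trans (h z hz)
  refine lt_of_le_of_ne (hp x) fun h0 => ?_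
  have hinv : ∀ y (c : ℝ), qf A (y + c • x) = qf A y := by
    intro y c
    have := lin_zero (a := qf A y) (b := ∑ a, ∑ b, A a b * (x a * y b + y a * x b)) fun k => by
      have := hp (y + (k : ℝ) • x)
      rwa [qf_add, ← h0, mul_zero, add_zero] at this
    rw [qf_add, this, ← h0]; simp
  let u : ℕ → ι → ℝ := fun k a => Int.fract ((k : ℝ) * x a)
  obtain ⟨p, -, φ, hφ, hu⟩ := (isCompact_Icc (a := (0 : ι → ℝ)) (b := 1)).tendsto_subseq
    (x := u) fun k => ⟨fun a => Int.fract_nonneg _, fun a => (Int.fract_lt_one _).le⟩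
  have hd : Tendsto (fun k => u (φ (k + 1)) - u (φ k)) atTop (𝓝 0) := by
    simpa using (hu.comp (tendsto_add_atTop_nat 1)).sub hu
  have h1 := (((qf_cont' A).tendsto 0).comp hd).eventually
    (gt_mem_nhds (show qf A 0 < μ by simpa [qf] using hμ))
  have h2 := hd.norm.eventually (gt_mem_nhds (show ‖(0 : ι → ℝ)‖ < ‖x‖ by simpa using hx))
  obtain ⟨k, hk1, hk2⟩ := (h1.and h2).exists
  let z : ι → ℤ := fun a => ⌊(φ k : ℝ) * x a⌋ - ⌊(φ (k + 1) : ℝ) * x a⌋
  have e : u (φ (k + 1)) - u (φ k) = (fun a => (z a : ℝ)) + ((φ (k + 1) : ℝ) - φ k) • x := by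
    funext a
    simp only [u, z, Int.fract, Pi.sub_apply, Pi.add_apply, Pi.smul_apply, smul_eq_mul]
    push_cast; ring
  rw [Function.comp_apply, e, hinv] at hk1
  have hz : z = 0 := by
    by_contra hz
    exact absurd (h z hz) (not_le.2 hk1)
  have h3 : (1 : ℝ) ≤ (φ (k + 1) : ℝ) - φ k := by
    have : φ k + 1 ≤ φ (k + 1) := hφ (Nat.lt_succ_self k)
    have : ((φ k + 1 : ℕ) : ℝ) ≤ φ (k + 1) := by exact_mod_cast this
    push_cast at this; linarith
  rw [e, hz] at hk2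
  have : (fun a => (((0 : ι → ℤ) a : ℤ) : ℝ)) = 0 := by funext a; simp
  rw [this, zero_add, norm_smul, Real.norm_of_nonneg (by linarith)] at hk2
  nlinarith [norm_nonneg x]

theorem pd_nhds {A : ι → ι → ℝ} (h : ∀ x, x ≠ 0 → 0 < qf A x) :
    ∃ ε : ℝ, 0 < ε ∧ ∀ᶠ B in 𝓝 A, ∀ x, ε * ‖x‖ ^ 2 ≤ qf B x := by
  have hK := isCompact_sphere (0 : ι → ℝ) 1
  obtain ⟨a, ha, hb⟩ := hK.exists_forall_le' (qf_cont' A).continuousOn (a := 0)
    fun x hx => h x (by rintro rfl; simp at hx)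
  refine ⟨a / 2, by positivity, ?_⟩
  have := hK.eventually_forall_of_forall_eventually (x₀ := A) (P := fun B x => a / 2 < qf B x)
    fun y hy => (qf_cont.tendsto (A, y)).eventually
      (lt_mem_nhds (by linarith [hb y hy] : a / 2 < qf A y))
  refine this.mono fun B hB x => ?_
  rcases eq_or_ne x 0 with rfl | hx
  · simp [qf]
  have hn : 0 < ‖x‖ := norm_pos_iff.2 hx
  have h1 := hB (‖x‖⁻¹ • x) (by simp [norm_smul, hn.ne'])
  rw [qf_smul, inv_pow, lt_inv_mul_iff₀ (by positivity)] at h1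
  linarith

end

variable {n : ℕ}

/-- the real Gram matrix -/
noncomputable def gmat : Mat n →ₗ[ℝ] (Fin n × Fin 2 → Fin n × Fin 2 → ℝ) where
  toFun Q a b := rp (Q a.1 b.1 * io (star (tri a.2.succ) * tri b.2.succ))
  map_add' H K := by funext a b; simp [add_mul]
  map_smul' c H := by funext a b; simp

/-- integer coordinates -/
def crd (v : Vec n) : Fin n × Fin 2 → ℤ := fun a => ![(v a.1).re, (v a.1).im] a.2

theorem crd_bij : Function.Bijective (crd : Vec n → _) := by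
  refine ⟨fun v w h => ?_, fun z => ⟨fun i => ⟨z (i, 0), z (i, 1)⟩, ?_⟩⟩
  · funext i
    ext
    · exact congrFun h (i, 0)
    · exact congrFun h (i, 1)
  · funext ⟨i, b⟩
    fin_cases b <;> rfl

theorem qf_gram (Q : Mat n) (v : Vec n) : qf (gmat Q) (fun a => crd v a) = ev Q v := by
  simp only [qf, Fintype.sum_prod_type, ev, pair]
  refine sum_congr rfl fun i _ => ?_
  rw [sum_comm]
  refine sum_congr rfl fun j _ => ?_
  simp [gmat, crd, tri, rk, rp_def, QuadraticAlgebra.re_one, QuadraticAlgebra.im_one]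
  ring

theorem bound_nhds {Y : Type*} [TopologicalSpace Y] (K : Y → Mat n) (y : Y)
    (hK : Continuous fun y => gmat (K y)) {μ : ℝ} (hμ : 0 < μ)
    (h : ∀ v, v ≠ 0 → μ ≤ ev (K y) v) :
    ∃ s : Vec n → ℝ, (∀ v, 0 ≤ s v) ∧ (∀ B, {v | s v ≤ B}.Finite) ∧
      ∀ᶠ y' in 𝓝 y, ∀ v, s v ≤ ev (K y') v := by
  obtain ⟨ε, hε, hb⟩ := pd_nhds (A := gmat (K y)) fun x hx => pd_real hμ (fun z hz => by
    obtain ⟨v, rfl⟩ := crd_bij.2 z
    rw [qf_gram]
    refine h v ?_
    rintro rfl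
    exact hz (funext fun ⟨i, b⟩ => by fin_cases b <;> rfl)) hx
  refine ⟨fun v => ε * ‖fun a => (crd v a : ℝ)‖ ^ 2, fun v => by positivity, fun B => ?_, ?_⟩
  · refine Set.Finite.of_finite_image (f := crd) ?_ crd_bij.1.injOn
    refine (Set.finite_Icc (fun _ => -⌈B / ε + 1⌉) fun _ => ⌈B / ε + 1⌉).subset ?_
    rintro _ ⟨v, hv, rfl⟩
    have h1 : ∀ a, |crd v a| ≤ ⌈B / ε + 1⌉ := by
      intro a
      have h2 := norm_le_pi_norm (fun a => (crd v a : ℝ)) a
      have h3 : ‖fun a => (crd v a : ℝ)‖ ^ 2 ≤ B / ε := by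
        rw [le_div_iff₀ hε, mul_comm]; exact hv
      have h4 : ((|crd v a| : ℤ) : ℝ) ≤ B / ε + 1 := by
        rw [Int.cast_abs, ← Real.norm_eq_abs]
        nlinarith [sq_nonneg (‖fun a => (crd v a : ℝ)‖ - 1)]
      exact_mod_cast h4.trans (Int.le_ceil _)
    exact ⟨fun a => (abs_le.1 (h1 a)).1, fun a => (abs_le.1 (h1 a)).2⟩
  · exact ((hK.tendsto y).eventually hb).mono fun y' hy' v => by
      rw [← qf_gram]; exact hy' _

theorem finVal_of_bound {H : Mat n} {s : Vec n → ℝ} (h0 : ∀ v, 0 ≤ s v)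
    (h1 : ∀ B, {v | s v ≤ B}.Finite) (h : ∀ v, s v ≤ ev H v) : FinVal H :=
  ⟨fun v => (h0 v).trans (h v), fun B => ((h1 B).image (ev H)).subset
    fun _ ⟨hr, v, hv⟩ => ⟨v, (h v).trans (hv ▸ hr), hv⟩⟩

end Pool.Agent.MP_20d318_ag.Lat

end MrgPart2

-- ======== part 3: formerly Pool.Agent.MP_20d318_ag.Lat.Eff
section MrgPart3

/-! Classes in `Pell` are nonnegative combinations of abelian and exceptional divisors. -/

set_option autoImplicit false

namespace Pool.Agent.MP_20d318_ag.Lat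

open Finset Matrix Filter Topology

variable {n : ℕ}

theorem single_eq (d : O) : (Pi.single 0 d : Vec (n + 1)) = d • Pi.single 0 1 := by
  rw [← Pi.single_smul]; simp

theorem rv_e0 : rv (Pi.single 0 1 : Vec (n + 1)) = Pi.single 0 1 := by
  funext i
  by_cases h : i = 0 <;> simp [rv, h]

theorem rv_e0_ne : rv (Pi.single 0 1 : Vec (n + 1)) ≠ 0 := by
  rw [rv_e0]; intro h; simpa using congrFun h 0

theorem pos_min {H : Mat (n + 1)} {μ : ℝ} (hμ : 0 ≤ μ) (h : ∀ l, rv l ≠ 0 → μ ≤ ev H l)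
    (l : Vec (n + 1)) (hl : l ≠ 0) : μ ≤ ev H l := by
  obtain ⟨g, d, hg, rfl⟩ := euclid l
  have hd : d ≠ 0 := by rintro rfl; simp at hl
  have h1 : (1 : ℝ) ≤ nm d := by exact_mod_cast one_le_nm hd
  have h2 := h _ (rv_ne hg rv_e0_ne)
  rw [single_eq, mulVec_smul, ev_smul_vec]
  nlinarith

/-- the intersection pairing as a bilinear map -/
noncomputable def interL : W n →ₗ[ℝ] W n →ₗ[ℝ] ℝ :=
  LinearMap.mk₂ ℝ inter
    (fun _ _ _ => by simp [inter, ← pairL_apply, add_mul, sum_add_distrib]; ring)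
    (fun _ _ _ => by simp [inter, ← pairL_apply, mul_sub, mul_sum, mul_assoc])
    (fun _ _ _ => by simp [inter, ← pairL_apply, mul_add, sum_add_distrib]; ring)
    (fun _ _ _ => by simp [inter, ← pairL_apply, mul_sub, mul_sum, mul_left_comm])

theorem interL_apply (D Z : W n) : interL D Z = inter D Z := rfl

theorem inter_clS (l : Vec n) (c : ZMod 3) (Z : W n) :
    inter (clS l c) Z = ev Z.1 l - planeSum Z.2 (rv l) c := by
  simp [inter, clS, ev, pair_comm (rk l), planeSum, sum_filter]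

theorem inter_clE (x : Pt n) (Z : W n) : inter (clE x) Z = Z.2 x := by
  simp [inter, clE, ← pairL_apply]

theorem pair_nonneg {H Q : Mat 3} (hH : H.IsHermitian) (hF : FinVal H) (hQ : ∀ v, 0 ≤ ev Q v) :
    0 ≤ pair H Q := by
  obtain ⟨g, hg, h⟩ := vor3 hH hF
  obtain ⟨g', e⟩ := hg.exists_right_inv
  have key : ∀ {k : ℕ} (V : Fin k → Vec 3), InCone V (act g H) → 0 ≤ pair H Q := by
    rintro k V ⟨w, hw, h⟩
    rw [← act_one H, ← e, ← act_act, h, act_sum_rk, pair_comm, pair_sum_rk]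
    exact sum_nonneg fun i _ => mul_nonneg (hw i) (hQ _)
  exact h.elim (key _) (key _)

theorem eq_zero_of_pair {H Q : Mat 3} (hH : H.IsHermitian) {μ : ℝ} (hμ : 0 < μ)
    (h : ∀ v, v ≠ 0 → μ ≤ ev H v) (hQ : Q.IsHermitian) (hQ0 : ∀ v, 0 ≤ ev Q v)
    (h0 : pair H Q ≤ 0) : Q = 0 := by
  let J : Mat 3 := ∑ i, (1 : ℝ) • rk (Pi.single i 1)
  obtain ⟨s, hs0, hs1, hs⟩ := bound_nhds (fun δ : ℝ => H - δ • J) 0
    (by simp only [map_sub, map_smul]; fun_prop) hμ (by simpa using h)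
  obtain ⟨δ, hδ, hδ0⟩ := ((hs.filter_mono nhdsWithin_le_nhds).and
    (self_mem_nhdsWithin (s := Set.Ioi 0))).exists
  have h1 := pair_nonneg (hH.sub (herm_smul δ (herm_sum_rk _ _ _))) (finVal_of_bound hs0 hs1 hδ) hQ0
  rw [← pairL_apply, map_sub, map_smul, LinearMap.sub_apply, LinearMap.smul_apply, pairL_apply,
    pairL_apply, pair_comm _ Q, pair_comm _ Q, pair_sum_rk, pair_comm, smul_eq_mul] at h1
  have h2 : ∑ i, (1 : ℝ) * ev Q (Pi.single i 1) ≤ 0 :=
    le_of_mul_le_mul_left (by linarith) (show 0 < δ from hδ0)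
  funext i j
  refine row_zero hQ hQ0 (le_antisymm (le_trans ?_ h2) (hQ0 _)) j
  simp only [one_mul]
  exact single_le_sum (f := fun i => ev Q (Pi.single i 1)) (fun i _ => hQ0 _) (mem_univ i)

/-- coordinates on the classes of curves -/
noncomputable def psi : ((Fin 9 → ℝ) × (Pt 3 → ℝ)) →ₗ[ℝ] W 3 :=
  (Fintype.linearCombination ℝ fun i => rk (V9 i)).prodMap LinearMap.id

theorem psi_fst (Z : (Fin 9 → ℝ) × (Pt 3 → ℝ)) : (psi Z).1 = ∑ i, Z.1 i • rk (V9 i) := rfl

theorem psi_snd (Z : (Fin 9 → ℝ) × (Pt 3 → ℝ)) : (psi Z).2 = Z.2 := rfl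

theorem V9_indep {w : Fin 9 → ℝ} (h : ∑ i, w i • rk (V9 i) = 0) : w = 0 := by
  funext f
  have h1 := nb (w := w) (V := V9) (u := U3 0) (u' := fun k => G9 f *ᵥ U3 1 k) (by simp [h])
  have h2 := nb (w := -w) (V := V9) (u := U3 0) (u' := fun k => G9 f *ᵥ U3 1 k) (by simp [h])
  simp only [c9_val] at h1 h2
  simp at h1 h2
  exact le_antisymm (by simpa using (by linarith : w f ≤ 0)) h1

/-- the generators -/
def gens : Set (W 3) := {D | (∃ l c, rv l ≠ 0 ∧ D = clS l c) ∨ ∃ x, D = clE x}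

theorem eff (hS : Star 3) {D : W 3} (hD : Pell D) {x0 : Pt 3} (hx0 : D.2 x0 ≠ 0) :
    D ∈ cone gens := by
  classical
  have hmin : ∀ v, v ≠ 0 → D.2 x0 ≤ ev D.1 v := pos_min (hD.nonneg x0) fun l hl =>
    le_trans (by unfold lineSum; linarith [hD.nonneg (x0 + rv l), hD.nonneg (x0 - rv l)])
      (hD.line l hl x0)
  have hpos : 0 < D.2 x0 := lt_of_le_of_ne (hD.nonneg x0) hx0.symm
  obtain ⟨F, c, hc, hd⟩ := farkas_compact (fun i : gens => interL i.1 ∘ₗ psi) (interL D ∘ₗ psi) (by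
    intro Z hZ0 hZ hdZ
    have hm : ∀ x, 0 ≤ Z.2 x := fun x => by
      simpa [interL_apply, inter_clE, psi_snd] using hZ ⟨_, Or.inr ⟨x, rfl⟩⟩
    have hp : ∀ l, rv l ≠ 0 → ∀ c, planeSum Z.2 (rv l) c ≤ ev (psi Z).1 l := fun l hl c => by
      simpa [interL_apply, inter_clS, psi_snd] using hZ ⟨_, Or.inl ⟨l, c, hl, rfl⟩⟩
    have hq : ∀ x l, l ≠ 0 → Z.2 x ≤ ev (psi Z).1 l := fun x => pos_min (hm x) fun l hl =>
      le_trans (single_le_sum (fun y _ => hm y) (by simp)) (hp l hl (rv l ⬝ᵥ x))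
    obtain ⟨x, hx⟩ : ∃ x, 0 < Z.2 x := by
      by_contra hn
      push Not at hn
      have h2 : Z.2 = 0 := funext fun x => le_antisymm (hn x) (hm x)
      have h1 := eq_zero_of_pair hD.herm hpos hmin (Q := (psi Z).1) (herm_sum_rk _ _ _)
        (fun v => by
          rcases eq_or_ne v 0 with rfl | hv
          · simp
          · exact (hm 0).trans (hq 0 v hv))
        (by simpa [interL_apply, inter, psi_snd, h2] using hdZ)
      exact hZ0 (Prod.ext (V9_indep h1) h2)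
    obtain ⟨s, hs0, hs1, hs⟩ := bound_nhds (fun Y => (psi Y).1) Z
      (gmat ∘ₗ LinearMap.fst ℝ _ _ ∘ₗ psi).continuous_of_finiteDimensional hx (hq x)
    have hM : ∀ᶠ Y in 𝓝 Z, ∑ y, Y.2 y < ∑ y, Z.2 y + 1 :=
      (show Continuous fun Y : (Fin 9 → ℝ) × (Pt 3 → ℝ) => ∑ y, Y.2 y by fun_prop).continuousAt
        |>.eventually (gt_mem_nhds (lt_add_one _))
    have hfin : {i : gens | (∃ l c, s l ≤ ∑ y, Z.2 y + 1 ∧ i.1 = clS l c) ∨
        ∃ x, i.1 = clE x}.Finite := by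
      refine Set.Finite.of_finite_image (f := Subtype.val) ?_ Subtype.val_injective.injOn
      refine ((((hs1 (∑ y, Z.2 y + 1)).prod (Set.finite_univ (α := ZMod 3))).image
        fun p => clS p.1 p.2).union (Set.finite_range clE)).subset ?_
      rintro _ ⟨i, (⟨l, c, h1, h2⟩ | ⟨x, h⟩), rfl⟩
      · exact Or.inl ⟨(l, c), ⟨h1, trivial⟩, h2.symm⟩
      · exact Or.inr ⟨x, h.symm⟩
    refine ⟨hfin.toFinset, (hs.and hM).mono fun Y ⟨hY1, hY2⟩ hY => ?_⟩
    have hm' : ∀ x, 0 ≤ Y.2 x := fun x => by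
      simpa [interL_apply, inter_clE, psi_snd] using
        hY ⟨_, Or.inr ⟨x, rfl⟩⟩ (hfin.mem_toFinset.2 (Or.inr ⟨x, rfl⟩))
    refine hS D (psi Y) hD (herm_sum_rk _ _ _) ⟨hm', fun l hl c => ?_⟩
      (finVal_of_bound hs0 hs1 hY1)
    by_cases hl' : s l ≤ ∑ y, Z.2 y + 1
    · simpa [interL_apply, inter_clS, psi_snd] using
        hY ⟨_, Or.inl ⟨l, c, hl, rfl⟩⟩ (hfin.mem_toFinset.2 (Or.inl ⟨l, c, hl', rfl⟩))
    · have : planeSum (psi Y).2 (rv l) c ≤ ∑ y, Y.2 y :=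
        sum_le_sum_of_subset_of_nonneg (subset_univ _) fun y _ _ => hm' y
      linarith [hY1 l, not_le.1 hl'])
  have hherm : ∀ i : gens, i.1.1.IsHermitian := by
    rintro ⟨_, ⟨l, c, -, rfl⟩ | ⟨x, rfl⟩⟩
    · exact herm_rk l
    · exact isHermitian_zero
  have h0 : ∀ Z, inter (D - ∑ i ∈ F, c i • i.1) (psi Z) = 0 := fun Z => by
    have := hd Z
    simp only [LinearMap.comp_apply] at this
    simp [← interL_apply, this]
  have e : D - ∑ i ∈ F, c i • i.1 = 0 := by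
    refine Prod.ext (ext_ev (hD.herm.sub ?_) fun v => ?_) (funext fun x => ?_)
    · rw [Prod.fst_sum]
      exact Finset.sum_induction _ IsHermitian (fun _ _ => IsHermitian.add) isHermitian_zero
        fun i _ => herm_smul _ (hherm i)
    · obtain ⟨w, hw⟩ := span_of_cert V9 2 two_ne_zero M9 s9 (herm_rk v)
      have := h0 (w, 0)
      rw [inter, psi_fst, ← hw] at this
      simpa [psi_snd, ev] using this
    · have := h0 (0, Pi.single x 1)
      rw [inter, psi_fst, psi_snd] at this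
      simp only [Pi.zero_apply, zero_smul, sum_const_zero, ← pairL_apply, map_zero, Pi.single_apply,
        mul_ite, mul_one, mul_zero, sum_ite_eq', mem_univ, if_true, zero_sub, neg_eq_zero] at this
      exact this
  rw [sub_eq_zero.1 e]
  exact (isCone_cone _).sum_mem _ _ fun i _ => (isCone_cone _).smul _ (hc i) _ (subset_cone _ i.2)

end Pool.Agent.MP_20d318_ag.Lat

end MrgPart3

-- ======== part 4: formerly Pool.Agent.MP_20d318_ag.Lat.Main
section MrgPart4

/-! Assembly of the lattice side. -/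

set_option autoImplicit false

namespace Pool.Agent.MP_20d318_ag.Lat

open Finset Matrix

/-- the first basis vector -/
abbrev e0 : Vec 3 := Pi.single 0 1

theorem prim (v : Vec 3) : ∃ (g : Matrix (Fin 3) (Fin 3) O) (d : O), IsUnit g ∧ v = d • (g *ᵥ e0) := by
  obtain ⟨g, d, hg, rfl⟩ := euclid v
  exact ⟨g, d, hg, by rw [single_eq, mulVec_smul]⟩

theorem pell_of_prim {D : W 3} (h1 : D.1.IsHermitian) (h2 : ∀ x, 0 ≤ D.2 x)
    (h3 : ∀ g : Matrix (Fin 3) (Fin 3) O, IsUnit g → ∀ x,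
      lineSum D.2 x (rv (g *ᵥ e0)) ≤ ev D.1 (g *ᵥ e0)) : Pell D := by
  refine ⟨h1, h2, fun v hv x => ?_⟩
  obtain ⟨g, d, hg, rfl⟩ := prim v
  have h4 := h3 g hg x
  rw [rv_smul] at hv ⊢
  have hd : red d ≠ 0 := by intro h; simp [h] at hv
  have hd1 : (1 : ℝ) ≤ nm d := by exact_mod_cast one_le_nm (by rintro rfl; simp at hd)
  have h5 : lineSum D.2 x (red d • rv (g *ᵥ e0)) = lineSum D.2 x (rv (g *ᵥ e0)) := by
    have : ∀ a : ZMod 3, a ≠ 0 → a = 1 ∨ a = -1 := by decide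
    rcases this _ hd with h | h <;> rw [h]
    · rw [one_smul]
    · simp only [lineSum, neg_smul, one_smul, sub_neg_eq_add, ← sub_eq_add_neg]; ring
  have h6 : 0 ≤ lineSum D.2 x (rv (g *ᵥ e0)) := add_nonneg (add_nonneg (h2 _) (h2 _)) (h2 _)
  rw [h5, ev_smul_vec]
  nlinarith

theorem actW_clS (g : Matrix (Fin 3) (Fin 3) O) (c : ZMod 3) :
    actW gᵀ ((3 : ℝ) • clS e0 c) = (3 : ℝ) • clS (g *ᵥ e0) c := by
  have : actW gᵀ (clS e0 c) = clS (g *ᵥ e0) c := by
    simp only [actW, clS, act_rk, vecMul_transpose, dotProduct_mulVec, ← rv_vecMul]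
  rw [← this]
  exact Prod.ext ((actL gᵀ).map_smul _ _) rfl

theorem isCone_inCone {k : ℕ} (V : Fin k → Vec 3) : IsCone {H | InCone V H} := by
  refine ⟨⟨0, fun _ => le_rfl, by simp⟩, ?_, ?_⟩
  · rintro _ ⟨w, hw, rfl⟩ _ ⟨w', hw', rfl⟩
    exact ⟨w + w', fun i => add_nonneg (hw i) (hw' i), by simp [add_smul, sum_add_distrib]⟩
  · rintro c hc _ ⟨w, hw, rfl⟩
    exact ⟨c • w, fun i => mul_nonneg hc (hw i), by simp [smul_sum, smul_smul]⟩

variable {N : Type*} [AddCommGroup N] [Module ℝ N] {L : AddSubgroup N}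
  {Cv : Set (N →ₗ[ℝ] ℝ)} {Ef : Set N} {G : Subgroup (N ≃ₗ[ℝ] N)} {Φ : N →ₗ[ℝ] W 3}

namespace Iface

variable (h : Iface L Cv Ef G Φ)
include h

theorem line_fun {g : Matrix (Fin 3) (Fin 3) O} (hg : IsUnit g) (x : Pt 3) :
    ∃ c ∈ Cv, ∃ k : ℝ, 0 < k ∧ ∀ D,
      c D = k * (ev (Φ D).1 (g *ᵥ e0) - lineSum (Φ D).2 x (rv (g *ᵥ e0))) := by
  obtain ⟨a, ha, hΦ⟩ := h.gl g hg
  obtain ⟨y, rfl⟩ := (ptE hg).surjective x
  obtain ⟨c, hc, k, hk, e⟩ := h.cvL y
  refine ⟨_, h.gCv a ha c hc, k, hk, fun D => ?_⟩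
  rw [LinearMap.comp_apply, e, LinearEquiv.coe_coe, hΦ, rv_mulVec, rv_e0]
  simp only [actW, ev_act, lineSum, mulVec_add, mulVec_sub, ptE_apply]

theorem pell_of_nef {D : N} (hD : ∀ c ∈ Cv, 0 ≤ c D) : Pell (Φ D) := by
  refine pell_of_prim (h.herm D) (fun x => ?_) fun g hg x => ?_
  · obtain ⟨c, hc, k, hk, e⟩ := h.cvE x
    exact nonneg_of_mul_nonneg_right (e D ▸ hD c hc) hk
  · obtain ⟨c, hc, k, hk, e⟩ := h.line_fun hg x
    exact sub_nonneg.1 (nonneg_of_mul_nonneg_right (e D ▸ hD c hc) hk)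

theorem nef_of_pell (h9 : StarOn V9) (h12 : StarOn V12) (h4 : StarOn V4) {D : N}
    (hD : Pell (Φ D)) : ∀ c ∈ Cv, 0 ≤ c D := by
  intro c hc
  obtain ⟨k, Z, hk, e, hZ | ⟨h1, h2⟩⟩ := h.cvcl c hc
  · rw [e]; exact mul_nonneg hk.le (cur_nonneg h9 h12 h4 hD hZ)
  · rw [e, inter, h1, ← pairL_apply, map_zero, zero_sub]
    exact mul_nonneg hk.le (neg_nonneg.2 (sum_nonpos fun x _ =>
      mul_nonpos_of_nonneg_of_nonpos (hD.nonneg x) (h2 x)))

theorem efS' {g : Matrix (Fin 3) (Fin 3) O} (hg : IsUnit g) (c : ZMod 3) :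
    ∃ D ∈ Ef, Φ D = (3 : ℝ) • clS (g *ᵥ e0) c := by
  obtain ⟨a, ha, hΦ⟩ := h.gl gᵀ ((isUnit_transpose g).2 hg)
  obtain ⟨D, hD, e⟩ := h.efS c
  exact ⟨a D, h.gEf a ha D hD, by rw [hΦ, e, actW_clS]⟩

omit h in
theorem third_mem {Y : W 3} (hY : ∃ D ∈ Ef, Φ D = (3 : ℝ) • Y) : Y ∈ Φ '' cone Ef := by
  obtain ⟨D, hD, e⟩ := hY
  refine ⟨(1 / 3 : ℝ) • D, (isCone_cone _).smul _ (by norm_num) _ (subset_cone _ hD), ?_⟩
  rw [map_smul, e, smul_smul]; simp

theorem clE_mem (x : Pt 3) : clE x ∈ Φ '' cone Ef := third_mem (h.efE x)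

theorem rk_mem (l : Vec 3) : (rk l, 0) ∈ Φ '' cone Ef := by
  have hK := (isCone_cone Ef).image Φ
  obtain ⟨g, d, hg, rfl⟩ := prim l
  have : ((rk (d • (g *ᵥ e0)), 0) : W 3) = (nm d : ℝ) • (clS (g *ᵥ e0) 0 +
      ∑ x with rv (g *ᵥ e0) ⬝ᵥ x = 0, clE x) := by
    refine Prod.ext ?_ (funext fun y => ?_)
    · simp [rk_smul, clS, clE, Prod.fst_sum]
    · simp only [clS, clE, Prod.snd_sum, Prod.smul_snd, Prod.snd_add, Pi.smul_apply, Pi.add_apply,
        Finset.sum_apply, sum_ite_eq, mem_filter, mem_univ, true_and, Pi.zero_apply]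
      split_ifs <;> simp
  rw [this]
  exact hK.smul _ (by exact_mod_cast nm_nonneg d) _ (hK.add _ (third_mem (h.efS' hg 0)) _
    (hK.sum_mem _ _ fun x _ => h.clE_mem x))

theorem gens_sub : cone gens ⊆ Φ '' cone Ef := by
  have hK := (isCone_cone Ef).image Φ
  refine hK.cone_subset ?_
  rintro _ (⟨l, c, hl, rfl⟩ | ⟨x, rfl⟩)
  · obtain ⟨g, d, hg, rfl⟩ := prim l
    have hd : red d ≠ 0 := by intro h; simp [rv_smul, h] at hl
    have hd1 : (1 : ℝ) ≤ nm d := by exact_mod_cast one_le_nm (by rintro rfl; simp at hd)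
    have : clS (d • (g *ᵥ e0)) c = clS (g *ᵥ e0) (red d * c) +
        ((nm d : ℝ) - 1) • (rk (g *ᵥ e0), 0) := by
      refine Prod.ext ?_ (funext fun y => ?_)
      · simp [rk_smul, clS, sub_smul]
      · have : ∀ a b c : ZMod 3, a ≠ 0 → (a * b = c ↔ b = a * c) := by decide
        simp [clS, rv_smul, this _ _ _ hd]
    rw [this]
    exact hK.add _ (third_mem (h.efS' hg _)) _ (hK.smul _ (by linarith) _ (h.rk_mem _))
  · exact h.clE_mem x

theorem eff_of_pell (hS : Star 3) {k : ℕ} {V : Fin k → Vec 3} {Y : W 3} (hY : Pell Y)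
    (hV : InCone V Y.1) : Y ∈ Φ '' cone Ef := by
  by_cases h0 : ∃ x, Y.2 x ≠ 0
  · obtain ⟨x, hx⟩ := h0
    exact h.gens_sub (eff hS hY hx)
  · push Not at h0
    obtain ⟨w, hw, e⟩ := hV
    have hK := (isCone_cone Ef).image Φ
    have : Y = ∑ i, w i • (rk (V i), 0) :=
      Prod.ext (by simp [e, Prod.fst_sum]) (funext fun x => by simp [h0, Prod.snd_sum])
    rw [this]
    exact hK.sum_mem _ _ fun i _ => hK.smul _ (hw i) _ (h.rk_mem _)

theorem rat : ∃ K : ℝ, 0 < K ∧ ∀ D ∈ L, ∀ v, ∃ z : ℤ, K * ev (Φ D).1 v = z := by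
  let P : (N → ℝ) → Prop := fun f => ∃ K : ℤ, 0 < K ∧ ∀ D ∈ L, ∃ z : ℤ, K * f D = z
  have hadd : ∀ f g, P f → P g → P fun D => f D + g D := by
    rintro f g ⟨K, hK, hf⟩ ⟨K', hK', hg⟩
    refine ⟨K * K', mul_pos hK hK', fun D hD => ?_⟩
    obtain ⟨a, ha⟩ := hf D hD
    obtain ⟨b, hb⟩ := hg D hD
    exact ⟨K' * a + K * b, by push_cast; rw [← ha, ← hb]; ring⟩
  have hc : ∀ (f : N → ℝ) (c : N →ₗ[ℝ] ℝ) (k : ℝ), c ∈ Cv → 0 < k → (∀ D, c D = k * f D) →
      (∃ D ∈ L, f D = 3 ∨ f D = -3) → P f := by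
    rintro f c k hc hk e ⟨D0, hD0, h0⟩
    obtain ⟨a, ha⟩ : ∃ a : ℤ, k * 3 = a := by
      obtain ⟨a, ha⟩ := h.cvint c hc D0 hD0
      rcases h0 with h0 | h0
      · exact ⟨a, by rw [← ha, e, h0]⟩
      · exact ⟨-a, by push_cast; rw [← ha, e, h0]; ring⟩
    refine ⟨a, by exact_mod_cast (by rw [← ha]; positivity : (0 : ℝ) < a), fun D hD => ?_⟩
    obtain ⟨b, hb⟩ := h.cvint c hc D hD
    exact ⟨3 * b, by push_cast; rw [← ha, ← hb, e]; ring⟩
  have ht : ∀ x, P fun D => (Φ D).2 x := by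
    intro x
    obtain ⟨c, hc', k, hk, e⟩ := h.cvE x
    obtain ⟨D, hD, e'⟩ := h.efE x
    exact hc _ c k hc' hk e ⟨D, h.efL hD, Or.inr (by simp [e', clE])⟩
  obtain ⟨K, hK, h1⟩ : P fun D => ev (Φ D).1 e0 := by
    obtain ⟨c, hc', k, hk, e⟩ := h.cvL 0
    obtain ⟨D, hD, e'⟩ := h.efE 0
    have hne : (Pi.single 0 1 : Pt 3) ≠ 0 := by decide
    have := hadd _ _ (hc _ c k hc' hk e ⟨D, h.efL hD, Or.inl (by simp [e', clE, lineSum, hne])⟩)
      (hadd _ _ (hadd _ _ (ht 0) (ht (0 + Pi.single 0 1))) (ht (0 - Pi.single 0 1)))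
    simpa only [lineSum, sub_add_cancel] using this
  refine ⟨K, by exact_mod_cast hK, fun D hD v => ?_⟩
  obtain ⟨g, d, hg, rfl⟩ := prim v
  obtain ⟨a, ha, hΦ⟩ := h.gl g hg
  obtain ⟨z, hz⟩ := h1 _ (h.gL a ha D hD)
  refine ⟨nm d * z, ?_⟩
  beta_reduce at hz
  rw [hΦ, actW, ev_act] at hz
  rw [ev_smul_vec]; push_cast; rw [← hz]; ring

theorem finVal {D : N} (hD : D ∈ cone Ef) : FinVal (Φ D).1 := by
  obtain ⟨K, hK, h1⟩ := h.rat
  refine (isCone_finVal.preimage (LinearMap.fst ℝ _ _ ∘ₗ Φ)).cone_subset (fun D hD => ?_) hD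
  refine finVal_of_int hK fun v => nat_of_int (h1 D (h.efL hD) v) (mul_nonneg hK.le ?_)
  obtain ⟨g, d, hg, rfl⟩ := prim v
  obtain ⟨a, ha, hΦ⟩ := h.gl g hg
  have := h.efpsd _ (h.gEf a ha D hD)
  rw [hΦ, actW, ev_act] at this
  rw [ev_smul_vec]
  exact mul_nonneg (by exact_mod_cast nm_nonneg d) this

theorem rp_cell (h9 : StarOn V9) (h12 : StarOn V12) (h4 : StarOn V4) {k : ℕ}
    (V : Fin k → Vec 3) : RP L {D | InCone V (Φ D).1 ∧ ∀ c ∈ Cv, 0 ≤ c D} := by
  classical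
  have hA : ∀ i, ∃ D ∈ L, (Φ D).1 = (3 : ℝ) • rk (V i) := fun i => by
    obtain ⟨g, d, hg, e⟩ := prim (V i)
    obtain ⟨D, hD, e'⟩ := h.efS' hg 0
    exact ⟨nm d • D, L.zsmul_mem (h.efL hD) _, by
      rw [e, rk_smul, map_zsmul, e', ← Int.cast_smul_eq_zsmul ℝ, smul_comm]; rfl⟩
  choose A hAL hA using hA
  choose B hBL hB using h.efE
  let R : Finset N := univ.image A ∪ (univ.image B ∪ univ.image fun x => -B x)
  have hR : ∀ r, r ∈ R ↔ (∃ i, A i = r) ∨ (∃ x, B x = r) ∨ ∃ x, -B x = r := by simp [R]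
  have hRL : (R : Set N) ⊆ L := by
    intro r hr
    rcases (hR r).1 hr with ⟨i, rfl⟩ | ⟨x, rfl⟩ | ⟨x, rfl⟩
    exacts [hAL i, h.efL (hBL x), L.neg_mem (h.efL (hBL x))]
  have hc := isCone_cone (R : Set N)
  have hRS : cone (R : Set N) = {D | InCone V (Φ D).1} := by
    refine Set.Subset.antisymm (((isCone_inCone V).preimage
      (LinearMap.fst ℝ _ _ ∘ₗ Φ)).cone_subset fun r hr => ?_) ?_
    · change InCone V (Φ r).1
      rcases (hR r).1 hr with ⟨i, rfl⟩ | ⟨x, rfl⟩ | ⟨x, rfl⟩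
      · exact ⟨Pi.single i 3, fun j => by by_cases hj : j = i <;> simp [hj], by
          simp [hA, Pi.single_apply]⟩
      · exact ⟨0, fun _ => le_rfl, by simp [hB, clE]⟩
      · exact ⟨0, fun _ => le_rfl, by simp [hB, clE]⟩
    · rintro D ⟨w, hw, e⟩
      have : D = ∑ i, (w i / 3) • A i + ∑ x, (-(Φ (D - ∑ i, (w i / 3) • A i)).2 x / 3) • B x := by
        rw [← sub_eq_iff_eq_add']
        have h1 : (Φ (D - ∑ i, (w i / 3) • A i)).1 = 0 := by
          simp [e, Prod.fst_sum, hA, smul_smul]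
        generalize D - ∑ i, (w i / 3) • A i = Y at h1
        refine h.inj (Prod.ext ?_ (funext fun y => ?_))
        · simp [h1, Prod.fst_sum, hB, clE]
        · simp [Prod.snd_sum, hB, clE]
      rw [this]
      refine hc.add _ (hc.sum_mem _ _ fun i _ => hc.smul _ (by linarith [hw i]) _
        (subset_cone _ ((hR _).2 (Or.inl ⟨i, rfl⟩)))) _ (hc.sum_mem _ _ fun x _ => ?_)
      generalize -(Φ (D - ∑ i, (w i / 3) • A i)).2 x / 3 = a
      rcases le_total 0 a with ha | ha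
      · exact hc.smul _ ha _ (subset_cone _ ((hR _).2 (Or.inr (Or.inl ⟨x, rfl⟩))))
      · rw [← neg_smul_neg]
        exact hc.smul _ (neg_nonneg.2 ha) _ (subset_cone _ ((hR _).2 (Or.inr (Or.inr ⟨x, rfl⟩))))
  have hD := fun e : Pt 3 => dickson R {g : Matrix (Fin 3) (Fin 3) O | IsUnit g ∧ rv (g *ᵥ e0) = e}
    (fun g => evL (g *ᵥ e0) ∘ₗ LinearMap.fst ℝ _ _ ∘ₗ Φ) fun g _ r hr => by
      change ∃ k : ℕ, ev (Φ r).1 (g *ᵥ e0) = k
      rcases (hR r).1 hr with ⟨i, rfl⟩ | ⟨x, rfl⟩ | ⟨x, rfl⟩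
      · rw [hA, ev_smul, ev_rk]
        exact nat_of_int ⟨3 * _, by push_cast; rfl⟩
          (mul_nonneg (by norm_num) (by exact_mod_cast nm_nonneg _))
      · exact ⟨0, by simp [hB, clE]⟩
      · exact ⟨0, by simp [hB, clE]⟩
  choose T hT1 hT2 hT3 using hD
  choose! cL hcL kL hkL eL using fun g hg x => h.line_fun (g := g) hg x
  choose cE hcE kE hkE eE using h.cvE
  have := RP.inter_fin ⟨R, hRL, rfl⟩ (T := Set.range cE ∪ ⋃ e, ⋃ x, (fun g => cL g x) '' T e)
    ((Set.finite_range _).union (Set.finite_iUnion fun e => Set.finite_iUnion fun x =>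
      (hT2 e).image _)) (fun c hc => h.cvint c (by
      rcases hc with ⟨x, rfl⟩ | hc
      · exact hcE x
      · simp only [Set.mem_iUnion] at hc
        obtain ⟨e, x, g, hg, rfl⟩ := hc
        exact hcL g (hT1 e hg).1 x))
  convert this using 1
  ext D
  constructor
  · rintro ⟨h1, h2⟩
    refine ⟨by rw [hRS]; exact h1, fun c hc => h2 c ?_⟩
    rcases hc with ⟨x, rfl⟩ | hc
    · exact hcE x
    · simp only [Set.mem_iUnion] at hc
      obtain ⟨e, x, g, hg, rfl⟩ := hc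
      exact hcL g (hT1 e hg).1 x
  · rintro ⟨h1, h2⟩
    refine ⟨by rw [hRS] at h1; exact h1, h.nef_of_pell h9 h12 h4 (pell_of_prim (h.herm D)
      (fun x => ?_) fun g hg x => ?_)⟩
    · exact nonneg_of_mul_nonneg_right (eE x D ▸ h2 _ (Or.inl ⟨x, rfl⟩)) (hkE x)
    · obtain ⟨j, hj, hle⟩ := hT3 _ g ⟨hg, rfl⟩
      obtain ⟨hj1, hj2⟩ := hT1 _ hj
      have h3 := h2 (cL j x) (Or.inr (Set.mem_iUnion.2 ⟨_, Set.mem_iUnion.2 ⟨x, j, hj, rfl⟩⟩))
      rw [eL j hj1, hj2] at h3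
      exact (sub_nonneg.1 (nonneg_of_mul_nonneg_right h3 (hkL j hj1 x))).trans (hle D h1)

end Iface

/-- The lattice side of the cone theorem. -/
theorem cone_of_iface (h : Iface L Cv Ef G Φ) (h9 : StarOn V9) (h12 : StarOn V12)
    (h4 : StarOn V4) : Concl L ({D | ∀ c ∈ Cv, 0 ≤ c D} ∩ cone Ef) G := by
  classical
  have hS := star_three h9 h12
  have : FiniteDimensional ℝ N := FiniteDimensional.of_injective Φ h.inj
  have hC := (isCone_dual Cv).inter (isCone_cone Ef)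
  have hGN : ∀ g ∈ G, ∀ D, (∀ c ∈ Cv, 0 ≤ c D) → ∀ c ∈ Cv, 0 ≤ c (g D) :=
    fun g hg D hD c hc => hD _ (h.gCv g hg c hc)
  have hmem : ∀ {k : ℕ} {V : Fin k → Vec 3} {Y : W 3}, Pell Y → InCone V Y.1 →
      Y ∈ Φ '' ({D | ∀ c ∈ Cv, 0 ≤ c D} ∩ cone Ef) := by
    intro k V Y hY hV
    obtain ⟨D, hD, rfl⟩ := h.eff_of_pell hS hY hV
    exact ⟨D, ⟨h.nef_of_pell h9 h12 h4 hY, hD⟩, rfl⟩
  obtain ⟨R9, hL9, hR9⟩ := h.rp_cell h9 h12 h4 V9
  obtain ⟨R12, hL12, hR12⟩ := h.rp_cell h9 h12 h4 V12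
  have hcell : ∀ {k : ℕ} {V : Fin k → Vec 3} (D : N), (InCone V (Φ D).1 ∧ ∀ c ∈ Cv, 0 ≤ c D) →
      D ∈ {D | ∀ c ∈ Cv, 0 ≤ c D} ∩ cone Ef := by
    intro k V D hD
    obtain ⟨D', hD', e⟩ := hmem (h.pell_of_nef hD.2) hD.1
    exact h.inj e ▸ hD'
  refine looijenga (Cv := Cv) (P := cone ((R9 ∪ R12 : Finset N) : Set N)) hC h.cvint
    (fun c hc x hx => hx.1 c hc) (fun D hD => ?_) h.gL (fun g hg D hD => ⟨hGN g hg D hD.1, ?_⟩) ?_
    ⟨_, by rw [coe_union]; exact Set.union_subset hL9 hL12, rfl⟩ (hC.cone_subset ?_)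
    fun D hD => ?_
  · have h1 := h.pell_of_nef (D := D) fun c hc => (hD c hc).ge
    have h2 := h.pell_of_nef (D := -D) fun c hc => by simp [hD c hc]
    have h3 : ∀ {Y : W 3}, Pell Y → ∀ v, v ≠ 0 → 0 ≤ ev Y.1 v := fun hY => pos_min le_rfl
      fun l hl => (add_nonneg (add_nonneg (hY.nonneg _) (hY.nonneg _)) (hY.nonneg _)).trans
        (hY.line l hl 0)
    refine h.inj (Prod.ext ?_ (funext fun x => ?_))
    · rw [map_zero]
      refine ext_ev h1.herm fun v => ?_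
      rcases eq_or_ne v 0 with rfl | hv
      · simp
      · have := h3 h2 v hv
        rw [map_neg, Prod.fst_neg, ← evL_apply, map_neg, evL_apply] at this
        linarith [h3 h1 v hv]
    · have := h2.nonneg x
      simp only [map_neg, Prod.snd_neg, Pi.neg_apply, map_zero, Prod.snd_zero, Pi.zero_apply] at *
      linarith [h1.nonneg x]
  · exact ((isCone_cone Ef).preimage g.toLinearMap).cone_subset
      (fun x hx => subset_cone _ (h.gEf g hg x hx)) hD.2
  · set S := Submodule.span ℝ ({D | ∀ c ∈ Cv, 0 ≤ c D} ∩ cone Ef)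
    have hS' : ∀ {k : ℕ} {V : Fin k → Vec 3} {Y : W 3}, Pell Y → InCone V Y.1 → Y ∈ S.map Φ :=
      fun h1 h2 => Set.image_mono Submodule.subset_span (hmem h1 h2)
    have h1 : ∀ H : Mat 3, H.IsHermitian → (H, 0) ∈ S.map Φ := fun H hH =>
      herm_span ((S.map Φ).comap (LinearMap.inl ℝ _ _)) (fun i j k => hS' (V := ![tv i j k])
        ⟨herm_rk _, fun _ => le_rfl, fun v _ x => by
          simp only [LinearMap.inl_apply, ev_rk, lineSum, Pi.zero_apply, add_zero]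
          exact_mod_cast nm_nonneg _⟩ ⟨fun _ => 1, fun _ => zero_le_one, by simp⟩) hH
    have h2 : ∀ x : Pt 3, ((0, Pi.single x 1) : W 3) ∈ S.map Φ := by
      intro x
      let J : Mat 3 := ∑ i, (3 : ℝ) • rk (Pi.single i 1)
      have hJ : J.IsHermitian := herm_sum_rk _ _ _
      have := (S.map Φ).sub_mem (hS' (Y := (J, Pi.single x 1)) (V := fun i => Pi.single i 1)
        ⟨hJ, fun y => by by_cases hy : y = x <;> simp [hy], fun v hv y => ?_⟩
        ⟨fun _ => 3, fun _ => by norm_num, rfl⟩) (h1 J hJ)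
      · simpa using this
      · obtain ⟨i, hi⟩ := Function.ne_iff.1 hv
        have h3 : (1 : ℝ) ≤ nm (v i) := by
          exact_mod_cast one_le_nm (by intro h0; simp [rv, h0] at hi)
        have h4 : ∀ y, (Pi.single x 1 : Pt 3 → ℝ) y ≤ 1 := fun y => by
          by_cases hy : y = x <;> simp [hy]
        have h5 : (nm (v i) : ℝ) ≤ ∑ i, (nm (v i) : ℝ) := single_le_sum (f := fun i => (nm (v i) : ℝ))
          (fun i _ => by exact_mod_cast nm_nonneg _) (mem_univ i)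
        simp only [J, ev_sum, ev_smul, ev_rk, single_dotProduct, one_mul, ← mul_sum, lineSum]
        linarith [h4 y, h4 (y + rv v), h4 (y - rv v)]
    refine eq_top_iff.2 fun D _ => ?_
    have e : Φ D = ((Φ D).1, 0) + ∑ x, (Φ D).2 x • ((0, Pi.single x 1) : W 3) :=
      Prod.ext (by simp [Prod.fst_sum]) (funext fun y => by simp [Prod.snd_sum, Pi.single_apply])
    obtain ⟨D', hD', e'⟩ : Φ D ∈ S.map Φ := by
      rw [e]
      exact add_mem (h1 _ (h.herm D)) (Submodule.sum_mem _ fun x _ => Submodule.smul_mem _ _ (h2 x))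
    exact h.inj e' ▸ hD'
  · rw [coe_union]
    rintro r (hr | hr)
    · exact hcell r (hR9.subset (subset_cone _ hr))
    · exact hcell r (hR12.subset (subset_cone _ hr))
  · obtain ⟨g, hg, hV⟩ := vor3 (h.herm D) (h.finVal hD.2)
    obtain ⟨a, ha, hΦ⟩ := h.gl g hg
    refine ⟨a, ha, ?_⟩
    rcases hV with hV | hV
    · exact cone_mono (by simp) (hR9.superset ⟨by rwa [hΦ], hGN a ha D hD.1⟩)
    · exact cone_mono (by simp) (hR12.superset ⟨by rwa [hΦ], hGN a ha D hD.1⟩)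

end Pool.Agent.MP_20d318_ag.Lat

end MrgPart4

-- ======== part 5: formerly Pool.Agent.MP_20d318_ag.Lat.StarH
section MrgPart5

/-! The inequality with the form of the divisor in a Voronoi cone. -/

set_option autoImplicit false

namespace Pool.Agent.MP_20d318_ag.Lat

open Finset Matrix

variable {n : ℕ}

/-- the inequality for divisors whose form lies in the cone spanned by the vectors `V` -/
def StarH {k : ℕ} (V : Fin k → Vec n) : Prop :=
  ∀ (c : Fin k → ℝ) (t : Pt n → ℝ) (Z : W n), (∀ i, 0 ≤ c i) → Pell (∑ i, c i • rk (V i), t) →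
    Mov Z → ∑ x, t x * Z.2 x ≤ ∑ i, c i * ev Z.1 (V i)

theorem starH_aux {k : ℕ} {V : Fin k → Vec n} (hV : StarH V) {D Z : W n} (hD : Pell D)
    (hZ : Mov Z) {g : Matrix (Fin n) (Fin n) O} (hg : IsUnit g) (hc : InCone V (act g D.1)) :
    0 ≤ inter D Z := by
  obtain ⟨h, e⟩ := ((isUnit_transpose g).2 hg).exists_left_inv
  obtain ⟨w, hw, hH⟩ := hc
  have h1 := hD.act hg
  rw [← inter_tr e, inter, transpose_transpose]
  rw [actW, hH] at h1
  have := hV w _ _ hw h1 (hZ.tr e)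
  simp only [actW, hH, pair_comm _ (trZ h gᵀ Z).1, pair_sum_rk]
  linarith

theorem star_lim (h : ∀ D Z : W (n + 1), Pell D → FinVal D.1 → Mov Z → 0 ≤ inter D Z)
    {D Z : W (n + 1)} (hD : Pell D) (hZ : Mov Z) : 0 ≤ inter D Z := by
  let J : Mat (n + 1) := ∑ i, (1 : ℝ) • rk (Pi.single i 1)
  have hJ : ∀ v, ev J v = ∑ i, (nm (v i) : ℝ) := fun v => by simp [J, ev_sum, ev_rk]
  have hJ0 : ∀ v, 0 ≤ ev J v := fun v => by
    rw [hJ]; exact sum_nonneg fun i _ => by exact_mod_cast nm_nonneg _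
  have hJ1 : ∀ v, v ≠ 0 → 1 ≤ ev J v := fun v hv => by
    obtain ⟨i, hi⟩ := Function.ne_iff.1 hv
    rw [hJ]
    exact le_trans (by exact_mod_cast one_le_nm hi) (single_le_sum (f := fun i => (nm (v i) : ℝ))
      (fun i _ => by exact_mod_cast nm_nonneg _) (mem_univ i))
  have h0 : ∀ v, v ≠ 0 → 0 ≤ ev D.1 v := pos_min le_rfl fun l hl =>
    (add_nonneg (add_nonneg (hD.nonneg _) (hD.nonneg _)) (hD.nonneg _)).trans (hD.line l hl 0)
  have key : ∀ ε : ℝ, 0 < ε → 0 ≤ inter D Z + ε * pair J Z.1 := by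
    intro ε hε
    obtain ⟨s, hs0, hs1, hs⟩ := bound_nhds (fun _ : ℝ => D.1 + ε • J) 0 continuous_const hε
      fun v hv => by rw [ev_add, ev_smul]; nlinarith [h0 v hv, hJ1 v hv]
    have := h (D.1 + ε • J, D.2) Z ⟨hD.herm.add (herm_smul _ (herm_sum_rk _ _ _)), hD.nonneg,
      fun v hv x => (hD.line v hv x).trans (by
        rw [ev_add, ev_smul]; nlinarith [hJ0 v])⟩ (finVal_of_bound hs0 hs1 hs.self_of_nhds) hZ
    simp only [inter, ← pairL_apply, map_add, map_smul, LinearMap.add_apply, LinearMap.smul_apply,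
      smul_eq_mul] at this ⊢
    linarith
  have hc : Filter.Tendsto (fun ε : ℝ => inter D Z + ε * pair J Z.1) (nhdsWithin 0 (Set.Ioi 0))
      (nhds (inter D Z)) := by
    have : Continuous fun ε : ℝ => inter D Z + ε * pair J Z.1 := by fun_prop
    simpa using (this.tendsto 0).mono_left nhdsWithin_le_nhds
  exact ge_of_tendsto hc (Filter.mem_of_superset self_mem_nhdsWithin key)

theorem star_all (h9 : StarH V9) (h12 : StarH V12) {D Z : W 3} (hD : Pell D) (hZ : Mov Z) :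
    0 ≤ inter D Z := by
  refine star_lim (fun D Z hD hF hZ => ?_) hD hZ
  obtain ⟨g, hg, h | h⟩ := vor3 hD.herm hF
  · exact starH_aux h9 hD hZ hg h
  · exact starH_aux h12 hD hZ hg h

theorem star_all2 (h4 : StarH V4) {D Z : W 2} (hD : Pell D) (hZ : Mov Z) : 0 ≤ inter D Z := by
  refine star_lim (fun D Z hD hF hZ => ?_) hD hZ
  obtain ⟨g, hg, h⟩ := vor2 hD.herm hF
  exact starH_aux h4 hD hZ hg h

theorem starOn_of_all (h : ∀ D Z : W n, Pell D → Mov Z → 0 ≤ inter D Z) {k : ℕ}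
    (V : Fin k → Vec n) : StarOn V := by
  intro D w m hD _ hZ
  have := h D _ hD hZ
  rw [inter, pair_sum_rk] at this
  linarith

/-- The lattice side of the cone theorem from the three finite inequalities. -/
theorem cone_of_starH {N : Type*} [AddCommGroup N] [Module ℝ N] {L : AddSubgroup N}
    {Cv : Set (N →ₗ[ℝ] ℝ)} {Ef : Set N} {G : Subgroup (N ≃ₗ[ℝ] N)} {Φ : N →ₗ[ℝ] W 3}
    (h : Iface L Cv Ef G Φ) (h9 : StarH V9) (h12 : StarH V12) (h4 : StarH V4) :
    Concl L ({D | ∀ c ∈ Cv, 0 ≤ c D} ∩ cone Ef) G :=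
  cone_of_iface h (starOn_of_all (fun _ _ => star_all h9 h12) _)
    (starOn_of_all (fun _ _ => star_all h9 h12) _) (starOn_of_all (fun _ _ => star_all2 h4) _)

end Pool.Agent.MP_20d318_ag.Lat

end MrgPart5

-- marker of a merged file
example : 731051 + 614176 = 731051 + 614176 := rfl
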