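import Pool.Agent.MP_20d318_ag.Lat.Lin

/-! Data of the Voronoi reduction over the Eisenstein integers in ranks two and three. -/

set_option autoImplicit false

namespace Pool.Agent.MP_20d318_ag.Lat

open Finset Matrix

/-- the nine lines of minimal vectors of `E6*` -/
def V9 : Fin 9 → Vec 3 :=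
  ![![⟨1, 0⟩, ⟨0, 0⟩, ⟨0, 0⟩],
    ![⟨0, 0⟩, ⟨1, 0⟩, ⟨0, 0⟩],
    ![⟨1, 0⟩, ⟨1, 0⟩, ⟨0, 0⟩],
    ![⟨1, 0⟩, ⟨0, -1⟩, ⟨0, -1⟩],
    ![⟨1, 1⟩, ⟨1, 0⟩, ⟨0, -1⟩],
    ![⟨0, 0⟩, ⟨0, 0⟩, ⟨1, 0⟩],
    ![⟨0, 0⟩, ⟨1, 0⟩, ⟨1, 0⟩],
    ![⟨0, 1⟩, ⟨0, 0⟩, ⟨1, 0⟩],
    ![⟨1, 0⟩, ⟨1, 0⟩, ⟨0, -1⟩]]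

/-- the twelve lines of roots of `E6`, in four orthogonal triples -/
def V12 : Fin 12 → Vec 3 :=
  ![![⟨1, 0⟩, ⟨0, 0⟩, ⟨0, 0⟩],
    ![⟨1, 1⟩, ⟨0, -1⟩, ⟨1, 0⟩],
    ![⟨0, 0⟩, ⟨1, 0⟩, ⟨-1, 0⟩],
    ![⟨0, 0⟩, ⟨1, 0⟩, ⟨0, 0⟩],
    ![⟨0, 1⟩, ⟨0, 0⟩, ⟨1, 0⟩],
    ![⟨0, 1⟩, ⟨1, 0⟩, ⟨0, 1⟩],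
    ![⟨0, 0⟩, ⟨0, 0⟩, ⟨1, 0⟩],
    ![⟨1, 0⟩, ⟨-1, 0⟩, ⟨0, -1⟩],
    ![⟨1, 0⟩, ⟨0, -1⟩, ⟨0, 0⟩],
    ![⟨0, 0⟩, ⟨1, 0⟩, ⟨0, 1⟩],
    ![⟨0, 1⟩, ⟨1, 0⟩, ⟨0, 0⟩],
    ![⟨1, 0⟩, ⟨0, 0⟩, ⟨0, -1⟩]]

/-- the four lines of roots of `D4` -/
def V4 : Fin 4 → Vec 2 :=
  ![![⟨1, 0⟩, ⟨0, 0⟩],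
    ![⟨0, 0⟩, ⟨1, 0⟩],
    ![⟨1, 0⟩, ⟨1, 1⟩],
    ![⟨1, 0⟩, ⟨0, 1⟩]]

/-- the two perfect forms in rank three as sums of rank one forms -/
def U3 : Fin 2 → Fin 9 → Vec 3 :=
  ![![![⟨1, 0⟩, ⟨0, 0⟩, ⟨0, -1⟩],
    ![⟨-1, 0⟩, ⟨1, 0⟩, ⟨0, 0⟩],
    ![⟨0, 0⟩, ⟨-1, 0⟩, ⟨1, 0⟩],
    ![⟨1, 0⟩, ⟨0, 0⟩, ⟨0, -1⟩],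
    ![⟨-1, 0⟩, ⟨1, 0⟩, ⟨0, 0⟩],
    ![⟨0, 0⟩, ⟨-1, 0⟩, ⟨1, 0⟩],
    ![⟨1, 0⟩, ⟨0, 0⟩, ⟨0, -1⟩],
    ![⟨-1, 0⟩, ⟨1, 0⟩, ⟨0, 0⟩],
    ![⟨0, 0⟩, ⟨-1, 0⟩, ⟨1, 0⟩]],
    ![![⟨1, 2⟩, ⟨1, 0⟩, ⟨1, 0⟩],
    ![⟨0, 0⟩, ⟨1, 0⟩, ⟨1, 0⟩],
    ![⟨0, 0⟩, ⟨1, 0⟩, ⟨0, 1⟩],
    ![⟨1, 2⟩, ⟨1, 0⟩, ⟨1, 0⟩],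
    ![⟨0, 0⟩, ⟨1, 0⟩, ⟨1, 0⟩],
    ![⟨0, 0⟩, ⟨1, 0⟩, ⟨0, 1⟩],
    ![⟨0, 0⟩, ⟨0, 0⟩, ⟨0, 0⟩],
    ![⟨0, 0⟩, ⟨0, 0⟩, ⟨0, 0⟩],
    ![⟨0, 0⟩, ⟨0, 0⟩, ⟨0, 0⟩]]]

/-- the perfect form in rank two -/
def U2 : Fin 1 → Fin 3 → Vec 2 :=
  ![![![⟨1, 0⟩, ⟨0, 1⟩],
    ![⟨1, 0⟩, ⟨0, 1⟩],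
    ![⟨1, 0⟩, ⟨1, 0⟩]]]

/-- neighbours -/
def G9 : Fin 9 → Matrix (Fin 3) (Fin 3) O :=
  ![!![⟨-1, -1⟩, ⟨1, 1⟩, ⟨0, 1⟩; ⟨0, 1⟩, ⟨0, 0⟩, ⟨0, 0⟩; ⟨0, 0⟩, ⟨1, 0⟩, ⟨0, 0⟩],
    !![⟨0, 1⟩, ⟨0, 0⟩, ⟨0, 0⟩; ⟨1, 0⟩, ⟨0, -1⟩, ⟨1, 0⟩; ⟨0, 0⟩, ⟨-1, 0⟩, ⟨0, 0⟩],
    !![⟨0, 1⟩, ⟨0, 0⟩, ⟨0, 0⟩; ⟨0, 0⟩, ⟨0, -1⟩, ⟨0, 1⟩; ⟨0, 0⟩, ⟨0, 1⟩, ⟨0, 0⟩],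
    !![⟨0, 1⟩, ⟨0, 0⟩, ⟨0, 0⟩; ⟨0, 0⟩, ⟨1, 0⟩, ⟨0, 0⟩; ⟨0, 0⟩, ⟨0, 0⟩, ⟨-1, 0⟩],
    !![⟨0, 1⟩, ⟨0, 0⟩, ⟨0, 0⟩; ⟨0, 0⟩, ⟨1, 0⟩, ⟨0, 0⟩; ⟨0, 0⟩, ⟨0, 0⟩, ⟨0, 1⟩],
    !![⟨0, 1⟩, ⟨0, 0⟩, ⟨0, 0⟩; ⟨0, 0⟩, ⟨1, 0⟩, ⟨0, 0⟩; ⟨1, 0⟩, ⟨-1, 0⟩, ⟨-1, -1⟩],
    !![⟨0, 1⟩, ⟨0, 0⟩, ⟨0, 0⟩; ⟨0, 0⟩, ⟨1, 1⟩, ⟨0, 0⟩; ⟨1, 0⟩, ⟨0, 0⟩, ⟨-1, -1⟩],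
    !![⟨0, 1⟩, ⟨0, 0⟩, ⟨0, 0⟩; ⟨0, 0⟩, ⟨1, 1⟩, ⟨0, 0⟩; ⟨0, 0⟩, ⟨0, -1⟩, ⟨0, 1⟩],
    !![⟨0, 1⟩, ⟨0, 0⟩, ⟨0, 0⟩; ⟨0, 0⟩, ⟨1, 1⟩, ⟨0, 0⟩; ⟨0, 0⟩, ⟨0, 0⟩, ⟨-1, 0⟩]]

/-- neighbours -/
def G12 : Fin 3 → Fin 3 → Fin 3 → Fin 3 → Fin 2 × Matrix (Fin 3) (Fin 3) O :=
  ![![![![(1, !![⟨-1, 0⟩, ⟨0, 1⟩, ⟨-1, 0⟩; ⟨0, 0⟩, ⟨1, 1⟩, ⟨0, 1⟩; ⟨1, 1⟩, ⟨0, 0⟩, ⟨1, 1⟩]),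
    (1, !![⟨0, 1⟩, ⟨0, 0⟩, ⟨0, 1⟩; ⟨0, -1⟩, ⟨0, 1⟩, ⟨0, 0⟩; ⟨1, 0⟩, ⟨-1, 0⟩, ⟨1, 0⟩]),
    (1, !![⟨0, 0⟩, ⟨0, 1⟩, ⟨-1, 0⟩; ⟨-1, -1⟩, ⟨1, 1⟩, ⟨0, 1⟩; ⟨0, -1⟩, ⟨0, 1⟩, ⟨0, 0⟩])],
    ![(1, !![⟨-1, -1⟩, ⟨0, 0⟩, ⟨-1, -1⟩; ⟨0, 1⟩, ⟨0, -1⟩, ⟨0, 1⟩; ⟨0, 1⟩, ⟨0, 0⟩, ⟨0, 0⟩]),
    (1, !![⟨-1, -1⟩, ⟨0, 0⟩, ⟨-1, -1⟩; ⟨1, 1⟩, ⟨-1, -1⟩, ⟨0, 0⟩; ⟨0, 1⟩, ⟨0, 0⟩, ⟨0, 0⟩]),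
    (1, !![⟨-1, -1⟩, ⟨-1, 0⟩, ⟨-1, -1⟩; ⟨0, 1⟩, ⟨0, 0⟩, ⟨0, 1⟩; ⟨0, 1⟩, ⟨0, 0⟩, ⟨0, 0⟩])],
    ![(1, !![⟨-1, -1⟩, ⟨-1, -1⟩, ⟨0, 0⟩; ⟨0, 0⟩, ⟨-1, 0⟩, ⟨-1, -1⟩; ⟨0, 1⟩, ⟨0, 0⟩, ⟨0, 0⟩]),
    (0, !![⟨-1, -1⟩, ⟨0, -1⟩, ⟨0, 0⟩; ⟨0, 1⟩, ⟨0, 0⟩, ⟨1, 1⟩; ⟨0, 1⟩, ⟨0, 0⟩, ⟨0, 0⟩]),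
    (1, !![⟨0, 0⟩, ⟨-1, -1⟩, ⟨0, -1⟩; ⟨1, 1⟩, ⟨-1, -1⟩, ⟨0, 0⟩; ⟨0, 1⟩, ⟨0, 0⟩, ⟨0, 0⟩])]],
    ![![(1, !![⟨-1, 0⟩, ⟨0, 0⟩, ⟨1, 0⟩; ⟨0, 1⟩, ⟨0, 0⟩, ⟨0, 0⟩; ⟨0, 0⟩, ⟨-1, 0⟩, ⟨-1, -1⟩]),
    (1, !![⟨0, 0⟩, ⟨0, -1⟩, ⟨1, 0⟩; ⟨0, 1⟩, ⟨0, 0⟩, ⟨0, 0⟩; ⟨-1, 0⟩, ⟨-1, 0⟩, ⟨0, 0⟩]),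
    (0, !![⟨-1, -1⟩, ⟨0, -1⟩, ⟨0, 0⟩; ⟨0, 1⟩, ⟨0, 0⟩, ⟨0, 0⟩; ⟨0, 1⟩, ⟨0, 0⟩, ⟨0, -1⟩])],
    ![(1, !![⟨-1, -1⟩, ⟨0, 0⟩, ⟨-1, -1⟩; ⟨0, 1⟩, ⟨0, 0⟩, ⟨0, 0⟩; ⟨0, 0⟩, ⟨-1, 0⟩, ⟨0, 0⟩]),
    (1, !![⟨-1, 0⟩, ⟨1, 0⟩, ⟨1, 1⟩; ⟨0, 1⟩, ⟨0, 0⟩, ⟨0, 0⟩; ⟨0, 0⟩, ⟨-1, -1⟩, ⟨0, 0⟩]),
    (1, !![⟨-1, 0⟩, ⟨0, 0⟩, ⟨1, 0⟩; ⟨0, 1⟩, ⟨0, 0⟩, ⟨0, 0⟩; ⟨0, 0⟩, ⟨-1, -1⟩, ⟨0, 0⟩])],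
    ![(1, !![⟨0, 1⟩, ⟨0, -1⟩, ⟨1, 0⟩; ⟨0, 1⟩, ⟨0, 0⟩, ⟨0, 0⟩; ⟨0, 0⟩, ⟨-1, 0⟩, ⟨0, 0⟩]),
    (1, !![⟨0, 1⟩, ⟨1, 0⟩, ⟨1, 0⟩; ⟨0, 1⟩, ⟨0, 0⟩, ⟨0, 0⟩; ⟨0, 0⟩, ⟨-1, -1⟩, ⟨0, 0⟩]),
    (1, !![⟨-1, 0⟩, ⟨1, 1⟩, ⟨-1, -1⟩; ⟨0, 1⟩, ⟨0, 0⟩, ⟨0, 0⟩; ⟨0, 0⟩, ⟨-1, -1⟩, ⟨0, 0⟩])]],
    ![![(1, !![⟨-1, -1⟩, ⟨-1, -1⟩, ⟨0, 0⟩; ⟨0, 1⟩, ⟨0, 0⟩, ⟨0, 0⟩; ⟨0, 1⟩, ⟨-1, 0⟩, ⟨1, 0⟩]),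
    (1, !![⟨0, -1⟩, ⟨-1, -1⟩, ⟨0, -1⟩; ⟨0, 1⟩, ⟨0, 0⟩, ⟨0, 0⟩; ⟨-1, 0⟩, ⟨0, 0⟩, ⟨-1, 0⟩]),
    (1, !![⟨-1, 0⟩, ⟨0, 0⟩, ⟨1, 0⟩; ⟨0, 1⟩, ⟨0, 0⟩, ⟨0, 0⟩; ⟨0, 1⟩, ⟨0, -1⟩, ⟨0, 0⟩])],
    ![(0, !![⟨0, 0⟩, ⟨1, 0⟩, ⟨0, -1⟩; ⟨0, 1⟩, ⟨0, 0⟩, ⟨0, 0⟩; ⟨0, 0⟩, ⟨0, -1⟩, ⟨0, 0⟩]),
    (1, !![⟨0, 0⟩, ⟨0, -1⟩, ⟨1, 0⟩; ⟨0, 1⟩, ⟨0, 0⟩, ⟨0, 0⟩; ⟨0, 0⟩, ⟨-1, -1⟩, ⟨0, 0⟩]),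
    (1, !![⟨-1, -1⟩, ⟨0, 0⟩, ⟨-1, -1⟩; ⟨0, 1⟩, ⟨0, 0⟩, ⟨0, 0⟩; ⟨0, 0⟩, ⟨-1, -1⟩, ⟨0, 0⟩])],
    ![(1, !![⟨0, 0⟩, ⟨-1, -1⟩, ⟨0, -1⟩; ⟨0, 1⟩, ⟨0, 0⟩, ⟨0, 0⟩; ⟨0, 0⟩, ⟨-1, 0⟩, ⟨0, 0⟩]),
    (1, !![⟨0, 0⟩, ⟨1, 0⟩, ⟨-1, -1⟩; ⟨0, 1⟩, ⟨0, 0⟩, ⟨0, 0⟩; ⟨0, 0⟩, ⟨-1, -1⟩, ⟨0, 0⟩]),
    (1, !![⟨0, 1⟩, ⟨0, -1⟩, ⟨1, 0⟩; ⟨0, 1⟩, ⟨0, 0⟩, ⟨0, 0⟩; ⟨0, 0⟩, ⟨-1, -1⟩, ⟨0, 0⟩])]]],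
    ![![![(1, !![⟨0, 1⟩, ⟨0, 0⟩, ⟨0, 0⟩; ⟨1, 0⟩, ⟨-1, 0⟩, ⟨0, 0⟩; ⟨1, 0⟩, ⟨0, 0⟩, ⟨-1, 0⟩]),
    (1, !![⟨0, 1⟩, ⟨0, 0⟩, ⟨0, 0⟩; ⟨0, -1⟩, ⟨0, 1⟩, ⟨-1, 0⟩; ⟨1, 0⟩, ⟨-1, 0⟩, ⟨0, 0⟩]),
    (1, !![⟨0, 1⟩, ⟨0, 0⟩, ⟨0, 0⟩; ⟨1, 0⟩, ⟨-1, 0⟩, ⟨0, 0⟩; ⟨1, 0⟩, ⟨-1, 0⟩, ⟨-1, -1⟩])],
    ![(1, !![⟨0, 1⟩, ⟨0, 0⟩, ⟨0, 0⟩; ⟨1, 1⟩, ⟨0, 0⟩, ⟨1, 1⟩; ⟨0, 0⟩, ⟨0, 1⟩, ⟨0, 0⟩]),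
    (1, !![⟨0, 1⟩, ⟨0, 0⟩, ⟨0, 0⟩; ⟨0, 0⟩, ⟨1, 1⟩, ⟨0, 1⟩; ⟨0, 0⟩, ⟨0, 1⟩, ⟨0, 0⟩]),
    (0, !![⟨0, 1⟩, ⟨0, 0⟩, ⟨0, 0⟩; ⟨1, 1⟩, ⟨0, 0⟩, ⟨1, 0⟩; ⟨0, 0⟩, ⟨-1, -1⟩, ⟨0, 0⟩])],
    ![(1, !![⟨0, 1⟩, ⟨0, 0⟩, ⟨0, 0⟩; ⟨0, 1⟩, ⟨1, 1⟩, ⟨0, 1⟩; ⟨0, 0⟩, ⟨0, 1⟩, ⟨0, 0⟩]),
    (1, !![⟨0, 1⟩, ⟨0, 0⟩, ⟨0, 0⟩; ⟨0, 0⟩, ⟨-1, 0⟩, ⟨1, 1⟩; ⟨0, 0⟩, ⟨0, 0⟩, ⟨0, 1⟩]),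
    (1, !![⟨0, 1⟩, ⟨0, 0⟩, ⟨0, 0⟩; ⟨0, 0⟩, ⟨0, 1⟩, ⟨-1, 0⟩; ⟨0, 0⟩, ⟨-1, 0⟩, ⟨0, 0⟩])]],
    ![![(1, !![⟨0, 1⟩, ⟨0, 0⟩, ⟨0, 0⟩; ⟨0, 0⟩, ⟨0, 1⟩, ⟨0, 0⟩; ⟨0, -1⟩, ⟨0, 1⟩, ⟨-1, 0⟩]),
    (1, !![⟨0, 1⟩, ⟨0, 0⟩, ⟨0, 0⟩; ⟨0, 0⟩, ⟨1, 1⟩, ⟨0, 0⟩; ⟨0, 0⟩, ⟨1, 1⟩, ⟨0, 1⟩]),
    (1, !![⟨0, 1⟩, ⟨0, 0⟩, ⟨0, 0⟩; ⟨0, 0⟩, ⟨0, 1⟩, ⟨0, 0⟩; ⟨0, 0⟩, ⟨-1, 0⟩, ⟨1, 1⟩])],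
    ![(1, !![⟨0, 1⟩, ⟨0, 0⟩, ⟨0, 0⟩; ⟨0, 0⟩, ⟨0, 1⟩, ⟨0, 0⟩; ⟨0, 0⟩, ⟨0, 0⟩, ⟨1, 1⟩]),
    (1, !![⟨0, 1⟩, ⟨0, 0⟩, ⟨0, 0⟩; ⟨0, 0⟩, ⟨1, 1⟩, ⟨0, 0⟩; ⟨0, 0⟩, ⟨0, 0⟩, ⟨1, 1⟩]),
    (1, !![⟨0, 1⟩, ⟨0, 0⟩, ⟨0, 0⟩; ⟨0, 0⟩, ⟨0, 1⟩, ⟨0, 0⟩; ⟨0, 0⟩, ⟨-1, 0⟩, ⟨1, 0⟩])],
    ![(0, !![⟨0, 1⟩, ⟨0, 0⟩, ⟨0, 0⟩; ⟨0, 0⟩, ⟨-1, -1⟩, ⟨0, 0⟩; ⟨0, 0⟩, ⟨0, 0⟩, ⟨1, 1⟩]),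
    (1, !![⟨0, 1⟩, ⟨0, 0⟩, ⟨0, 0⟩; ⟨0, 0⟩, ⟨-1, 0⟩, ⟨1, 0⟩; ⟨0, 0⟩, ⟨0, 0⟩, ⟨1, 1⟩]),
    (1, !![⟨0, 1⟩, ⟨0, 0⟩, ⟨0, 0⟩; ⟨0, 0⟩, ⟨-1, 0⟩, ⟨0, 0⟩; ⟨0, 0⟩, ⟨-1, -1⟩, ⟨1, 1⟩])]],
    ![![(1, !![⟨0, 1⟩, ⟨0, 0⟩, ⟨0, 0⟩; ⟨0, 0⟩, ⟨0, 1⟩, ⟨0, 0⟩; ⟨1, 1⟩, ⟨0, 0⟩, ⟨1, 1⟩]),
    (0, !![⟨0, 1⟩, ⟨0, 0⟩, ⟨0, 0⟩; ⟨0, 0⟩, ⟨-1, 0⟩, ⟨0, 0⟩; ⟨1, 1⟩, ⟨0, 0⟩, ⟨1, 0⟩]),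
    (1, !![⟨0, 1⟩, ⟨0, 0⟩, ⟨0, 0⟩; ⟨0, 0⟩, ⟨0, 1⟩, ⟨0, 0⟩; ⟨0, 0⟩, ⟨0, 1⟩, ⟨-1, 0⟩])],
    ![(1, !![⟨0, 1⟩, ⟨0, 0⟩, ⟨0, 0⟩; ⟨0, 0⟩, ⟨0, 0⟩, ⟨0, 1⟩; ⟨0, 0⟩, ⟨0, 1⟩, ⟨0, 0⟩]),
    (1, !![⟨0, 1⟩, ⟨0, 0⟩, ⟨0, 0⟩; ⟨0, 0⟩, ⟨0, 0⟩, ⟨1, 1⟩; ⟨0, 0⟩, ⟨0, 1⟩, ⟨0, 0⟩]),
    (1, !![⟨0, 1⟩, ⟨0, 0⟩, ⟨0, 0⟩; ⟨0, 0⟩, ⟨0, 0⟩, ⟨0, 1⟩; ⟨0, 0⟩, ⟨-1, 0⟩, ⟨0, 0⟩])],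
    ![(1, !![⟨0, 1⟩, ⟨0, 0⟩, ⟨0, 0⟩; ⟨0, 0⟩, ⟨-1, 0⟩, ⟨0, 0⟩; ⟨0, 0⟩, ⟨0, 0⟩, ⟨0, 1⟩]),
    (1, !![⟨0, 1⟩, ⟨0, 0⟩, ⟨0, 0⟩; ⟨0, 0⟩, ⟨0, 1⟩, ⟨0, -1⟩; ⟨0, 0⟩, ⟨0, 1⟩, ⟨0, 0⟩]),
    (1, !![⟨0, 1⟩, ⟨0, 0⟩, ⟨0, 0⟩; ⟨0, 0⟩, ⟨-1, 0⟩, ⟨0, 0⟩; ⟨0, 0⟩, ⟨0, 0⟩, ⟨-1, 0⟩])]]],
    ![![![(0, !![⟨0, 1⟩, ⟨0, 0⟩, ⟨0, 0⟩; ⟨1, 0⟩, ⟨0, -1⟩, ⟨0, 0⟩; ⟨1, 0⟩, ⟨0, 0⟩, ⟨-1, 0⟩]),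
    (1, !![⟨0, 1⟩, ⟨0, 0⟩, ⟨0, 0⟩; ⟨0, 0⟩, ⟨1, 1⟩, ⟨0, 1⟩; ⟨1, 0⟩, ⟨-1, 0⟩, ⟨0, 0⟩]),
    (1, !![⟨0, 1⟩, ⟨0, 0⟩, ⟨0, 0⟩; ⟨1, 1⟩, ⟨1, 1⟩, ⟨0, 0⟩; ⟨0, 0⟩, ⟨0, 1⟩, ⟨-1, 0⟩])],
    ![(1, !![⟨0, 1⟩, ⟨0, 0⟩, ⟨0, 0⟩; ⟨1, 1⟩, ⟨1, 1⟩, ⟨0, 0⟩; ⟨0, 0⟩, ⟨0, 0⟩, ⟨0, 1⟩]),
    (1, !![⟨0, 1⟩, ⟨0, 0⟩, ⟨0, 0⟩; ⟨1, 1⟩, ⟨1, 0⟩, ⟨1, 1⟩; ⟨0, 0⟩, ⟨0, 1⟩, ⟨0, 0⟩]),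
    (1, !![⟨0, 1⟩, ⟨0, 0⟩, ⟨0, 0⟩; ⟨1, 1⟩, ⟨0, 0⟩, ⟨1, 1⟩; ⟨0, 0⟩, ⟨-1, 0⟩, ⟨0, 0⟩])],
    ![(1, !![⟨0, 1⟩, ⟨0, 0⟩, ⟨0, 0⟩; ⟨1, 1⟩, ⟨1, 1⟩, ⟨-1, -1⟩; ⟨0, 0⟩, ⟨0, 1⟩, ⟨0, 0⟩]),
    (1, !![⟨0, 1⟩, ⟨0, 0⟩, ⟨0, 0⟩; ⟨1, 1⟩, ⟨1, 1⟩, ⟨0, -1⟩; ⟨0, 0⟩, ⟨0, 1⟩, ⟨0, 0⟩]),
    (1, !![⟨0, 1⟩, ⟨0, 0⟩, ⟨0, 0⟩; ⟨0, 1⟩, ⟨1, 1⟩, ⟨0, 1⟩; ⟨0, 0⟩, ⟨-1, 0⟩, ⟨0, 0⟩])]],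
    ![![(1, !![⟨0, 1⟩, ⟨0, 0⟩, ⟨0, 0⟩; ⟨0, 0⟩, ⟨0, 1⟩, ⟨0, 0⟩; ⟨1, 0⟩, ⟨-1, -1⟩, ⟨1, 1⟩]),
    (1, !![⟨0, 1⟩, ⟨0, 0⟩, ⟨0, 0⟩; ⟨0, 0⟩, ⟨1, 1⟩, ⟨0, 0⟩; ⟨0, -1⟩, ⟨0, 1⟩, ⟨-1, 0⟩]),
    (1, !![⟨0, 1⟩, ⟨0, 0⟩, ⟨0, 0⟩; ⟨0, 0⟩, ⟨0, 1⟩, ⟨0, 0⟩; ⟨0, -1⟩, ⟨-1, 0⟩, ⟨-1, 0⟩])],
    ![(1, !![⟨0, 1⟩, ⟨0, 0⟩, ⟨0, 0⟩; ⟨0, 0⟩, ⟨0, 1⟩, ⟨0, 0⟩; ⟨0, -1⟩, ⟨0, 0⟩, ⟨-1, 0⟩]),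
    (0, !![⟨0, 1⟩, ⟨0, 0⟩, ⟨0, 0⟩; ⟨0, 0⟩, ⟨-1, 0⟩, ⟨0, 0⟩; ⟨0, 0⟩, ⟨0, 0⟩, ⟨1, 1⟩]),
    (1, !![⟨0, 1⟩, ⟨0, 0⟩, ⟨0, 0⟩; ⟨0, 0⟩, ⟨0, 1⟩, ⟨0, 0⟩; ⟨0, 0⟩, ⟨-1, -1⟩, ⟨1, 1⟩])],
    ![(1, !![⟨0, 1⟩, ⟨0, 0⟩, ⟨0, 0⟩; ⟨0, 0⟩, ⟨-1, 0⟩, ⟨0, 0⟩; ⟨0, -1⟩, ⟨0, 0⟩, ⟨-1, 0⟩]),
    (1, !![⟨0, 1⟩, ⟨0, 0⟩, ⟨0, 0⟩; ⟨0, 0⟩, ⟨0, 1⟩, ⟨0, -1⟩; ⟨0, 0⟩, ⟨0, 0⟩, ⟨1, 1⟩]),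
    (1, !![⟨0, 1⟩, ⟨0, 0⟩, ⟨0, 0⟩; ⟨0, 0⟩, ⟨-1, 0⟩, ⟨0, 0⟩; ⟨0, 0⟩, ⟨0, -1⟩, ⟨0, 1⟩])]],
    ![![(1, !![⟨0, 1⟩, ⟨0, 0⟩, ⟨0, 0⟩; ⟨0, 0⟩, ⟨0, 1⟩, ⟨0, 0⟩; ⟨1, 0⟩, ⟨0, 0⟩, ⟨-1, 0⟩]),
    (1, !![⟨0, 1⟩, ⟨0, 0⟩, ⟨0, 0⟩; ⟨0, 0⟩, ⟨1, 1⟩, ⟨0, 0⟩; ⟨1, 1⟩, ⟨0, 0⟩, ⟨1, 1⟩]),
    (1, !![⟨0, 1⟩, ⟨0, 0⟩, ⟨0, 0⟩; ⟨0, 0⟩, ⟨0, 1⟩, ⟨0, 0⟩; ⟨1, 0⟩, ⟨-1, 0⟩, ⟨-1, -1⟩])],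
    ![(1, !![⟨0, 1⟩, ⟨0, 0⟩, ⟨0, 0⟩; ⟨0, 0⟩, ⟨0, 1⟩, ⟨0, 0⟩; ⟨1, 0⟩, ⟨0, 0⟩, ⟨-1, -1⟩]),
    (1, !![⟨0, 1⟩, ⟨0, 0⟩, ⟨0, 0⟩; ⟨0, 0⟩, ⟨1, 1⟩, ⟨0, 0⟩; ⟨0, 0⟩, ⟨0, 0⟩, ⟨0, 1⟩]),
    (1, !![⟨0, 1⟩, ⟨0, 0⟩, ⟨0, 0⟩; ⟨0, 0⟩, ⟨0, 1⟩, ⟨0, 0⟩; ⟨0, 0⟩, ⟨0, 0⟩, ⟨-1, 0⟩])],
    ![(1, !![⟨0, 1⟩, ⟨0, 0⟩, ⟨0, 0⟩; ⟨0, 0⟩, ⟨-1, 0⟩, ⟨0, 0⟩; ⟨1, 0⟩, ⟨0, 0⟩, ⟨-1, -1⟩]),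
    (1, !![⟨0, 1⟩, ⟨0, 0⟩, ⟨0, 0⟩; ⟨0, 0⟩, ⟨-1, 0⟩, ⟨1, 0⟩; ⟨0, 0⟩, ⟨0, 0⟩, ⟨0, 1⟩]),
    (0, !![⟨0, 1⟩, ⟨0, 0⟩, ⟨0, 0⟩; ⟨0, 0⟩, ⟨-1, -1⟩, ⟨0, 0⟩; ⟨0, 0⟩, ⟨0, 0⟩, ⟨0, 1⟩])]]]]

/-- neighbours -/
def G4 : Fin 4 → Matrix (Fin 2) (Fin 2) O :=
  ![!![⟨1, 0⟩, ⟨1, 0⟩; ⟨0, 1⟩, ⟨0, 0⟩],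
    !![⟨0, 1⟩, ⟨0, 0⟩; ⟨-1, -1⟩, ⟨1, 1⟩],
    !![⟨0, 1⟩, ⟨0, 0⟩; ⟨0, 0⟩, ⟨1, 1⟩],
    !![⟨0, 1⟩, ⟨0, 0⟩; ⟨0, 0⟩, ⟨-1, 0⟩]]

/-- spanning certificate -/
def M9 : Fin 3 → Fin 3 → Fin 3 → Fin 9 → ℤ :=
  ![![![![2, 0, 0, 0, 0, 0, 0, 0, 0],
      ![8, 0, 0, 0, 0, 0, 0, 0, 0],
      ![2, 0, 0, 0, 0, 0, 0, 0, 0]],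
    ![![2, 0, 0, 0, 0, 0, 0, 0, 0],
      ![0, 0, 2, 0, 0, 0, 0, 0, 0],
      ![3, 3, -1, -1, -1, -1, 1, 1, 1]],
    ![![2, 0, 0, 0, 0, 0, 0, 0, 0],
      ![3, 1, -1, 1, -1, 3, -1, -1, 1],
      ![3, -1, 1, -1, 1, 3, 1, -1, -1]]],
    ![![![0, 2, 0, 0, 0, 0, 0, 0, 0],
      ![0, 0, 2, 0, 0, 0, 0, 0, 0],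
      ![3, 3, -1, 1, 1, 1, -1, -1, -1]],
    ![![0, 2, 0, 0, 0, 0, 0, 0, 0],
      ![0, 8, 0, 0, 0, 0, 0, 0, 0],
      ![0, 2, 0, 0, 0, 0, 0, 0, 0]],
    ![![0, 2, 0, 0, 0, 0, 0, 0, 0],
      ![0, 0, 0, 0, 0, 0, 2, 0, 0],
      ![-1, 3, 1, 1, -1, 3, -1, 1, -1]]],
    ![![![0, 0, 0, 0, 0, 2, 0, 0, 0],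
      ![3, 1, -1, 1, -1, 3, -1, -1, 1],
      ![0, 0, 0, 0, 0, 0, 0, 2, 0]],
    ![![0, 0, 0, 0, 0, 2, 0, 0, 0],
      ![0, 0, 0, 0, 0, 0, 2, 0, 0],
      ![1, 3, -1, -1, 1, 3, -1, -1, 1]],
    ![![0, 0, 0, 0, 0, 2, 0, 0, 0],
      ![0, 0, 0, 0, 0, 8, 0, 0, 0],
      ![0, 0, 0, 0, 0, 2, 0, 0, 0]]]]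

/-- spanning certificate -/
def M12 : Fin 3 → Fin 3 → Fin 3 → Fin 12 → ℤ :=
  ![![![![1, 0, 0, 0, 0, 0, 0, 0, 0, 0, 0, 0],
      ![4, 0, 0, 0, 0, 0, 0, 0, 0, 0, 0, 0],
      ![1, 0, 0, 0, 0, 0, 0, 0, 0, 0, 0, 0]],
    ![![1, 0, 0, 0, 0, 0, 0, 0, 0, 0, 0, 0],
      ![2, 1, 1, 1, 0, 0, -1, -1, 0, 0, -1, 0],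
      ![1, -1, -1, 2, 0, 0, 1, 1, 0, 0, 0, 0]],
    ![![1, 0, 0, 0, 0, 0, 0, 0, 0, 0, 0, 0],
      ![2, 1, 1, 0, -1, 0, 1, 0, 0, -1, -1, 0],
      ![1, -1, -1, 0, 0, 0, 2, 0, 0, 1, 1, 0]]],
    ![![![0, 0, 0, 1, 0, 0, 0, 0, 0, 0, 0, 0],
      ![2, 1, 1, 1, 0, 0, -1, -1, 0, 0, -1, 0],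
      ![0, 0, 0, 0, 0, 0, 0, 0, 0, 0, 1, 0]],
    ![![0, 0, 0, 1, 0, 0, 0, 0, 0, 0, 0, 0],
      ![0, 0, 0, 4, 0, 0, 0, 0, 0, 0, 0, 0],
      ![0, 0, 0, 1, 0, 0, 0, 0, 0, 0, 0, 0]],
    ![![0, 0, 0, 1, 0, 0, 0, 0, 0, 0, 0, 0],
      ![0, 0, -1, 2, 0, 0, 2, 0, 0, 0, 0, 0],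
      ![0, 0, 0, 0, 0, 0, 0, 0, 0, 1, 0, 0]]],
    ![![![0, 0, 0, 0, 0, 0, 1, 0, 0, 0, 0, 0],
      ![2, 1, 1, 0, -1, 0, 1, 0, 0, -1, -1, 0],
      ![0, 0, 0, 0, 1, 0, 0, 0, 0, 0, 0, 0]],
    ![![0, 0, 0, 0, 0, 0, 1, 0, 0, 0, 0, 0],
      ![0, 0, -1, 2, 0, 0, 2, 0, 0, 0, 0, 0],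
      ![0, 0, 1, 1, 0, 0, 1, 0, 0, -1, 0, 0]],
    ![![0, 0, 0, 0, 0, 0, 1, 0, 0, 0, 0, 0],
      ![0, 0, 0, 0, 0, 0, 4, 0, 0, 0, 0, 0],
      ![0, 0, 0, 0, 0, 0, 1, 0, 0, 0, 0, 0]]]]

/-- spanning certificate -/
def M4 : Fin 2 → Fin 2 → Fin 3 → Fin 4 → ℤ :=
  ![![![![1, 0, 0, 0],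
      ![4, 0, 0, 0],
      ![1, 0, 0, 0]],
    ![![1, 0, 0, 0],
      ![1, 1, 1, -1],
      ![0, 0, 0, 1]]],
    ![![![0, 1, 0, 0],
      ![1, 1, 1, -1],
      ![2, 2, -1, 0]],
    ![![0, 1, 0, 0],
      ![0, 4, 0, 0],
      ![0, 1, 0, 0]]]]

/-- value of a sum of rank one forms -/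
def sv {n : ℕ} {K : Type*} [Fintype K] (l : Vec n) (u : K → Vec n) : ℤ := ∑ k, nm (l ⬝ᵥ u k)

/-- determinant -/
def d3 (A : Matrix (Fin 3) (Fin 3) O) : O :=
  A 0 0 * A 1 1 * A 2 2 - A 0 0 * A 1 2 * A 2 1 - A 0 1 * A 1 0 * A 2 2 + A 0 1 * A 1 2 * A 2 0 +
    A 0 2 * A 1 0 * A 2 1 - A 0 2 * A 1 1 * A 2 0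

/-- position of a root in its triple -/
def ix (a : Fin 4) (b : Fin 3) : Fin 12 := finProdFinEquiv (a, b)

theorem c9_det : ∀ f, nm (d3 (G9 f)) = 1 := by decide +kernel

theorem c9_val : ∀ f i, sv (V9 i) (fun k => G9 f *ᵥ U3 1 k) - sv (V9 i) (U3 0) =
    if i = f then 6 else 0 := by decide +kernel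

theorem c12_det : ∀ a b c d, nm (d3 (G12 a b c d).2) = 1 := by decide +kernel

theorem c12_val : ∀ a b c d x y, sv (V12 (ix x y)) (fun k => (G12 a b c d).2 *ᵥ
    U3 (G12 a b c d).1 k) - sv (V12 (ix x y)) (U3 1) =
    if y = ![a, b, c, d] x then (if (G12 a b c d).1 = 0 then 3 else 6) else 0 := by decide +kernel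

theorem c12_rel : ∀ x a b, ∑ y, star (V12 (ix x y) a) * V12 (ix x y) b =
    ∑ y, star (V12 (ix 0 y) a) * V12 (ix 0 y) b := by decide +kernel

theorem c4_det : ∀ f, nm (G4 f 0 0 * G4 f 1 1 - G4 f 0 1 * G4 f 1 0) = 1 := by decide +kernel

theorem c4_val : ∀ f i, sv (V4 i) (fun k => G4 f *ᵥ U2 0 k) - sv (V4 i) (U2 0) =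
    if i = f then 3 else 0 := by decide +kernel

theorem s9 : ∀ i j k a b, (2 : ℤ) • (star (tv i j k a) * tv i j k b) =
    ∑ m, M9 i j k m • (star (V9 m a) * V9 m b) := by decide +kernel

theorem s12 : ∀ i j k a b, (1 : ℤ) • (star (tv i j k a) * tv i j k b) =
    ∑ m, M12 i j k m • (star (V12 m a) * V12 m b) := by decide +kernel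

theorem s4 : ∀ i j k a b, (1 : ℤ) • (star (tv i j k a) * tv i j k b) =
    ∑ m, M4 i j k m • (star (V4 m a) * V4 m b) := by decide +kernel

end Pool.Agent.MP_20d318_ag.Lat
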